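import Mathlib

/-!
Point sets with few near pairs: definitions.
-/

set_option autoImplicit false

open Filter Topology Metric

open scoped ENNReal

namespace Pool.Agent.H779.RB

variable {n : ℕ}

/-- The number of the points of `X` other than `x` at distance less than `s` from `x`. -/
noncomputable def others (X : Set (EuclideanSpace ℝ (Fin n))) (x : EuclideanSpace ℝ (Fin n))
    (s : ℝ) : ℝ≥0∞ :=
  (({y | y ∈ X ∧ y ≠ x ∧ dist x y < s} : Set (EuclideanSpace ℝ (Fin n))).encard : ℝ≥0∞)

/-- Every point of `P` has at most `μ s ^ n` other points of `P` within distance `s ≤ 1`. -/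
def PtSparse (μ : ℝ) (P : Finset (EuclideanSpace ℝ (Fin n))) : Prop :=
  ∀ x ∈ P, ∀ s : ℝ, 0 < s → s ≤ 1 → others (P : Set _) x s ≤ ENNReal.ofReal (μ * s ^ n)

/-- The points of `P` have on average at most `μ s ^ n` other points of `P` within distance
`s ≤ 1`. -/
def AvSparse (μ : ℝ) (P : Finset (EuclideanSpace ℝ (Fin n))) : Prop :=
  ∀ s : ℝ, 0 < s → s ≤ 1 →
    ∑ x ∈ P, others (P : Set _) x s ≤ ENNReal.ofReal (μ * s ^ n * P.card)

/-- The largest density of the finite sets with the property `C`: the limes superior for
`T → ∞` of `|P| / (2 T) ^ n` for the largest such sets `P` in the ball of radius `T`. The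
normalisation is that of the density of the balls of radius `1/2` about the points of `P`. -/
noncomputable def relDensity (C : Finset (EuclideanSpace ℝ (Fin n)) → Prop) : ℝ≥0∞ :=
  limsup (fun T : ℝ => (⨆ P : {P : Finset (EuclideanSpace ℝ (Fin n)) //
    (∀ x ∈ P, ‖x‖ < T) ∧ C P}, (P.1.card : ℝ≥0∞)) / ENNReal.ofReal ((2 * T) ^ n)) atTop

/-- The largest density of the sets in which every point has at most `μ s ^ n` others within
distance `s ≤ 1`. -/
noncomputable def ptDensity (n : ℕ) (μ : ℝ) : ℝ≥0∞ := relDensity (PtSparse (n := n) μ)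

/-- The largest density of the sets in which the points have on average at most `μ s ^ n` others
within distance `s ≤ 1`. -/
noncomputable def avDensity (n : ℕ) (μ : ℝ) : ℝ≥0∞ := relDensity (AvSparse (n := n) μ)

/-- The upper density of the number of the points of `X`: the limes superior for `T → ∞` of the
number of points in the ball of radius `T`, divided by `T ^ n`. -/
noncomputable def numDensity (X : Set (EuclideanSpace ℝ (Fin n))) : ℝ≥0∞ :=
  limsup (fun T : ℝ => ((X ∩ ball 0 T).encard : ℝ≥0∞) / ENNReal.ofReal (T ^ n)) atTop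

/-- The points of `X` which have, for all `s ≤ R`, at most `lam s ^ n` other points of `X` within
distance `s`. -/
def sparsePts (X : Set (EuclideanSpace ℝ (Fin n))) (R lam : ℝ) :
    Set (EuclideanSpace ℝ (Fin n)) :=
  {x | x ∈ X ∧ ∀ s : ℝ, 0 < s → s ≤ R → others X x s ≤ ENNReal.ofReal (lam * s ^ n)}

end Pool.Agent.H779.RB
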