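import Mathlib
import Pool.Graph.R_seed8.H818R2.Base2

/-!
Large finite sets with few near pairs, by a local optimality argument.
-/

set_option autoImplicit false
set_option linter.unusedSectionVars false

open MeasureTheory Filter Topology Metric

open scoped ENNReal NNReal

namespace Pool.Agent.H779.RB

variable {n : ℕ}


theorem sep_card_le {σ T : ℝ} (hσ : 0 < σ) (hT : 0 < T) (S : Finset (EuclideanSpace ℝ (Fin n))) (hS : ∀ x ∈ S, ‖x‖ < T)
    (hsep : ∀ x ∈ S, ∀ y ∈ S, x ≠ y → σ ≤ dist x y) :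
    (S.card : ℝ) ≤ (2 / σ * T + 1) ^ n := by
  classical
  have hinj : Function.Injective (fun x : (EuclideanSpace ℝ (Fin n)) => (2 / σ) • x) :=
    smul_right_injective _ (by positivity)
  have h1 := Pool.Agent.H818R2.card_le (P := S.map ⟨fun x : (EuclideanSpace ℝ (Fin n)) => (2 / σ) • x, hinj⟩)
    (c := 0) (R := 2 / σ * T) ?_ (by positivity) ?_
  · rw [Finset.card_map, finrank_euclideanSpace_fin] at h1
    exact h1
  · intro x hx y hy hxy
    rw [Finset.mem_map] at hx hy
    obtain ⟨x', hx', rfl⟩ := hx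
    obtain ⟨y', hy', rfl⟩ := hy
    simp only [Function.Embedding.coeFn_mk] at hxy ⊢
    have h2 : x' ≠ y' := fun h => hxy (by rw [h])
    have h3 := hsep x' hx' y' hy' h2
    rw [dist_smul₀, Real.norm_of_nonneg (by positivity)]
    calc (2 : ℝ) = 2 / σ * σ := by field_simp
      _ ≤ 2 / σ * dist x' y' := mul_le_mul_of_nonneg_left h3 (by positivity)
  · intro x hx
    rw [Finset.mem_map] at hx
    obtain ⟨x', hx', rfl⟩ := hx
    simp only [Function.Embedding.coeFn_mk]
    rw [dist_zero_right, norm_smul, Real.norm_of_nonneg (by positivity)]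
    exact mul_le_mul_of_nonneg_left (hS x' hx').le (by positivity)

theorem local_opt (hn : 0 < n) (Φ : (EuclideanSpace ℝ (Fin n)) → ℝ) (hΦ0 : ∀ z, 0 ≤ Φ z) (hev : ∀ z, Φ (-z) = Φ z)
    (hint : Integrable Φ) {a δ σ T : ℝ} (ha : 0 < a) (hδ : 0 < δ) (hσ : 0 < σ) (hT : 0 < T)
    (hbig : ∀ z, ‖z‖ < σ → a ≤ Φ z) :
    ∃ S : Finset (EuclideanSpace ℝ (Fin n)), (∀ x ∈ S, ‖x‖ < T) ∧
      (∀ x ∈ S, ∀ R : Finset (EuclideanSpace ℝ (Fin n)), R ⊆ S → x ∉ R → ∑ y ∈ R, Φ (x - y) ≤ a + δ) ∧
      (a - δ) * volume.real (ball (0 : (EuclideanSpace ℝ (Fin n))) T) ≤ S.card * ∫ z, Φ z := by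
  classical
  set 𝒮 : Set (Finset (EuclideanSpace ℝ (Fin n))) := {S | (∀ x ∈ S, ‖x‖ < T) ∧
    ∀ x ∈ S, ∀ y ∈ S, x ≠ y → σ ≤ dist x y} with h𝒮
  set F : Finset (EuclideanSpace ℝ (Fin n)) → ℝ := fun S => 2 * a * S.card - ∑ x ∈ S, ∑ y ∈ S.erase x, Φ (x - y) with hF
  have hbd : BddAbove (F '' 𝒮) := by
    refine ⟨2 * a * (2 / σ * T + 1) ^ n, ?_⟩
    rintro _ ⟨S, hS, rfl⟩
    have h1 := sep_card_le hσ hT S hS.1 hS.2
    have h2 : 0 ≤ ∑ x ∈ S, ∑ y ∈ S.erase x, Φ (x - y) :=
      Finset.sum_nonneg fun x _ => Finset.sum_nonneg fun y _ => hΦ0 _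
    have h3 := mul_le_mul_of_nonneg_left h1 (show 0 ≤ 2 * a by positivity)
    simp only [hF]
    linarith
  have hne : (F '' 𝒮).Nonempty := by
    refine ⟨F ∅, ∅, ⟨?_, ?_⟩, rfl⟩
    · intro x hx
      simp at hx
    · intro x hx
      simp at hx
  obtain ⟨_, ⟨S, hS, rfl⟩, hSs⟩ := exists_lt_of_lt_csSup hne
    (show sSup (F '' 𝒮) - 2 * δ < sSup (F '' 𝒮) by linarith)
  have hmax : ∀ S' ∈ 𝒮, F S' < F S + 2 * δ := fun S' hS' => by
    have := le_csSup hbd (Set.mem_image_of_mem F hS')
    linarith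
  refine ⟨S, hS.1, ?_, ?_⟩
  · -- removing a point
    intro x hx R hR hxR
    have hS' : S.erase x ∈ 𝒮 := ⟨fun y hy => hS.1 y (Finset.mem_of_mem_erase hy),
      fun y hy z hz => hS.2 y (Finset.mem_of_mem_erase hy) z (Finset.mem_of_mem_erase hz)⟩
    have h1 := hmax _ hS'
    have h2 : F S = F (S.erase x) + 2 * a - 2 * ∑ y ∈ S.erase x, Φ (x - y) := by
      have e1 : ∑ z ∈ S, ∑ y ∈ S.erase z, Φ (z - y) = ∑ y ∈ S.erase x, Φ (x - y) +
          ∑ z ∈ S.erase x, ∑ y ∈ S.erase z, Φ (z - y) := (Finset.add_sum_erase S _ hx).symm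
      have e2 : ∑ z ∈ S.erase x, ∑ y ∈ S.erase z, Φ (z - y) = ∑ z ∈ S.erase x, (Φ (z - x) +
          ∑ y ∈ (S.erase x).erase z, Φ (z - y)) := by
        refine Finset.sum_congr rfl fun z hz => ?_
        have hxz : x ∈ S.erase z := Finset.mem_erase.2 ⟨(Finset.ne_of_mem_erase hz).symm, hx⟩
        rw [← Finset.add_sum_erase (S.erase z) _ hxz, Finset.erase_right_comm]
      have e3 : ∑ z ∈ S.erase x, Φ (z - x) = ∑ y ∈ S.erase x, Φ (x - y) := by
        refine Finset.sum_congr rfl fun z _ => ?_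
        rw [← hev, neg_sub]
      have e4 : ((S.erase x).card : ℝ) = S.card - 1 := by
        rw [Finset.card_erase_of_mem hx, Nat.cast_sub (Finset.card_pos.2 ⟨x, hx⟩)]
        simp
      simp only [hF]
      rw [e1, e2, Finset.sum_add_distrib, e3, e4]
      ring
    have h3 : ∑ y ∈ R, Φ (x - y) ≤ ∑ y ∈ S.erase x, Φ (x - y) := by
      refine Finset.sum_le_sum_of_subset_of_nonneg ?_ fun y _ _ => hΦ0 _
      intro y hy
      refine Finset.mem_erase.2 ⟨?_, hR hy⟩
      rintro rfl
      exact hxR hy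
    linarith
  · -- adding a point
    have hadd : ∀ z ∈ ball (0 : (EuclideanSpace ℝ (Fin n))) T, z ∉ S → a - δ ≤ ∑ x ∈ S, Φ (z - x) := by
      intro z hz hzS
      by_cases hsep : ∀ x ∈ S, σ ≤ dist z x
      · have hS' : insert z S ∈ 𝒮 := by
          refine ⟨fun y hy => ?_, fun x hx y hy hxy => ?_⟩
          · rcases Finset.mem_insert.1 hy with rfl | hy
            · exact mem_ball_zero_iff.1 hz
            · exact hS.1 y hy
          · rcases Finset.mem_insert.1 hx with h1 | h1
            · rcases Finset.mem_insert.1 hy with h2 | h2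
              · exact absurd (h1.trans h2.symm) hxy
              · rw [h1]
                exact hsep y h2
            · rcases Finset.mem_insert.1 hy with h2 | h2
              · rw [dist_comm, h2]
                exact hsep x h1
              · exact hS.2 x h1 y h2 hxy
        have h1 := hmax _ hS'
        have h2 : F (insert z S) = F S + 2 * a - 2 * ∑ x ∈ S, Φ (z - x) := by
          have e1 : ∑ w ∈ insert z S, ∑ y ∈ (insert z S).erase w, Φ (w - y) =
              ∑ y ∈ S, Φ (z - y) + ∑ w ∈ S, ∑ y ∈ (insert z S).erase w, Φ (w - y) := by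
            rw [Finset.sum_insert hzS, Finset.erase_insert hzS]
          have e2 : ∑ w ∈ S, ∑ y ∈ (insert z S).erase w, Φ (w - y) =
              ∑ w ∈ S, (Φ (w - z) + ∑ y ∈ S.erase w, Φ (w - y)) := by
            refine Finset.sum_congr rfl fun w hw => ?_
            have hzw : z ≠ w := fun h => hzS (h ▸ hw)
            rw [Finset.erase_insert_of_ne hzw, Finset.sum_insert]
            exact fun h => hzS (Finset.mem_of_mem_erase h)
          have e3 : ∑ w ∈ S, Φ (w - z) = ∑ x ∈ S, Φ (z - x) := by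
            refine Finset.sum_congr rfl fun w _ => ?_
            rw [← hev, neg_sub]
          simp only [hF]
          rw [e1, e2, Finset.sum_add_distrib, e3, Finset.card_insert_of_notMem hzS]
          push_cast
          ring
        linarith
      · push Not at hsep
        obtain ⟨x, hx, hxz⟩ := hsep
        have h1 : a ≤ Φ (z - x) := hbig _ (by rwa [← dist_eq_norm])
        have h2 : Φ (z - x) ≤ ∑ x ∈ S, Φ (z - x) :=
          Finset.single_le_sum (f := fun x => Φ (z - x)) (fun y _ => hΦ0 _) hx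
        linarith
    have : Nonempty (Fin n) := ⟨⟨0, hn⟩⟩
    have hnull : volume (S : Set (EuclideanSpace ℝ (Fin n))) = 0 := S.finite_toSet.measure_zero _
    have hiI : ∀ x ∈ S, Integrable (fun z => Φ (z - x)) := fun x _ => hint.comp_sub_right x
    have h1 : ∫ z in ball (0 : (EuclideanSpace ℝ (Fin n))) T, (a - δ) ≤ ∫ z in ball (0 : (EuclideanSpace ℝ (Fin n))) T, ∑ x ∈ S, Φ (z - x) := by
      refine integral_mono_ae (integrableOn_const measure_ball_lt_top.ne)
        (integrable_finsetSum _ fun x hx => (hiI x hx).integrableOn) ?_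
      rw [EventuallyLE, ae_restrict_iff' measurableSet_ball]
      have h2 : ∀ᵐ z : (EuclideanSpace ℝ (Fin n)), z ∉ (S : Set (EuclideanSpace ℝ (Fin n))) := measure_eq_zero_iff_ae_notMem.1 hnull
      filter_upwards [h2] with z hz hzT
      exact hadd z hzT hz
    rw [setIntegral_const, smul_eq_mul, integral_finsetSum _
      fun x hx => (hiI x hx).integrableOn] at h1
    have h3 : ∀ x ∈ S, ∫ z in ball (0 : (EuclideanSpace ℝ (Fin n))) T, Φ (z - x) ≤ ∫ z, Φ z := by
      intro x hx
      rw [← integral_sub_right_eq_self Φ x]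
      exact setIntegral_le_integral (hiI x hx) (Eventually.of_forall fun z => hΦ0 _)
    have h4 := Finset.sum_le_sum h3
    rw [Finset.sum_const, nsmul_eq_mul] at h4
    linarith [mul_comm (a - δ) (volume.real (ball (0 : (EuclideanSpace ℝ (Fin n))) T))]

/-- `P` has at most `μ s ^ n` other points within distance `s` of each of its points, for
`0 < s ≤ 1`. -/
def Sparse (μ : ℝ) (P : Finset (EuclideanSpace ℝ (Fin n))) : Prop :=
  ∀ x ∈ P, ∀ s : ℝ, 0 < s → s ≤ 1 →
    (({y | y ∈ P ∧ y ≠ x ∧ dist x y < s} : Set (EuclideanSpace ℝ (Fin n))).ncard : ℝ) ≤ μ * s ^ n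

/-- the potential of the scales `q^{-j}`, `j ≤ m` -/
noncomputable def pot (n : ℕ) (q : ℝ) (m : ℕ) (z : EuclideanSpace ℝ (Fin n)) : ℝ :=
  ∑ j ∈ Finset.range (m + 1), (ball (0 : EuclideanSpace ℝ (Fin n)) (q⁻¹ ^ j)).indicator
    (fun _ => (q ^ j) ^ n) z

theorem pot_nonneg {q : ℝ} (hq : 0 < q) (m : ℕ) (z : (EuclideanSpace ℝ (Fin n))) : 0 ≤ pot n q m z :=
  Finset.sum_nonneg fun j _ => Set.indicator_nonneg (fun _ _ => by positivity) _

theorem pot_neg (q : ℝ) (m : ℕ) (z : (EuclideanSpace ℝ (Fin n))) : pot n q m (-z) = pot n q m z := by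
  unfold pot
  refine Finset.sum_congr rfl fun j _ => ?_
  by_cases h : z ∈ ball (0 : (EuclideanSpace ℝ (Fin n))) (q⁻¹ ^ j)
  · have h' : -z ∈ ball (0 : (EuclideanSpace ℝ (Fin n))) (q⁻¹ ^ j) := by
      rw [mem_ball_zero_iff, norm_neg]
      exact mem_ball_zero_iff.1 h
    rw [Set.indicator_of_mem h, Set.indicator_of_mem h']
  · have h' : -z ∉ ball (0 : (EuclideanSpace ℝ (Fin n))) (q⁻¹ ^ j) := by
      rw [mem_ball_zero_iff, norm_neg]
      exact fun h2 => h (mem_ball_zero_iff.2 h2)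
    rw [Set.indicator_of_notMem h, Set.indicator_of_notMem h']

theorem le_pot {q : ℝ} (hq : 0 < q) {m j : ℕ} (hj : j ≤ m) {z : (EuclideanSpace ℝ (Fin n))} (hz : ‖z‖ < q⁻¹ ^ j) :
    (q ^ j) ^ n ≤ pot n q m z := by
  unfold pot
  have h1 : (ball (0 : (EuclideanSpace ℝ (Fin n))) (q⁻¹ ^ j)).indicator (fun _ => (q ^ j) ^ n) z = (q ^ j) ^ n :=
    Set.indicator_of_mem (mem_ball_zero_iff.2 hz) _
  rw [← h1]
  exact Finset.single_le_sum (f := fun j => (ball (0 : (EuclideanSpace ℝ (Fin n))) (q⁻¹ ^ j)).indicator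
    (fun _ => (q ^ j) ^ n) z) (fun i _ => Set.indicator_nonneg (fun _ _ => by positivity) _)
    (Finset.mem_range.2 (by omega))

theorem ind_integrable (s c : ℝ) : Integrable ((ball (0 : (EuclideanSpace ℝ (Fin n))) s).indicator (fun _ => c)) := by
  rw [integrable_indicator_iff measurableSet_ball]
  exact integrableOn_const measure_ball_lt_top.ne

theorem pot_integrable (q : ℝ) (m : ℕ) : Integrable (pot n q m) :=
  integrable_finsetSum _ fun j _ => ind_integrable _ _

theorem pot_integral (hn : 0 < n) {q : ℝ} (hq : 0 < q) (m : ℕ) :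
    ∫ z, pot n q m z = (m + 1) * volume.real (ball (0 : (EuclideanSpace ℝ (Fin n))) 1) := by
  have : Nonempty (Fin n) := ⟨⟨0, hn⟩⟩
  unfold pot
  rw [integral_finsetSum _ fun j _ => ind_integrable _ _]
  have h1 : ∀ j ∈ Finset.range (m + 1), ∫ z : (EuclideanSpace ℝ (Fin n)), (ball (0 : (EuclideanSpace ℝ (Fin n))) (q⁻¹ ^ j)).indicator
      (fun _ => (q ^ j) ^ n) z = volume.real (ball (0 : (EuclideanSpace ℝ (Fin n))) 1) := by
    intro j _
    rw [integral_indicator measurableSet_ball, setIntegral_const, smul_eq_mul, measureReal_def,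
      Measure.addHaar_ball _ _ (by positivity), ENNReal.toReal_mul,
      ENNReal.toReal_ofReal (by positivity), ← measureReal_def, finrank_euclideanSpace_fin]
    rw [mul_right_comm, ← mul_pow, ← mul_pow, inv_mul_cancel₀ hq.ne', one_pow, one_pow, one_mul]
  rw [Finset.sum_congr rfl h1, Finset.sum_const, Finset.card_range, nsmul_eq_mul]
  push_cast
  ring

/-- **Large sparse sets.** -/
theorem exists_sparse (hn : 0 < n) {μ : ℝ} (hμ : 1 ≤ μ) (m : ℕ) (hm : μ ≤ 2 ^ m) {T : ℝ}
    (hT : 0 < T) : ∃ P : Finset (EuclideanSpace ℝ (Fin n)), (∀ x ∈ P, ‖x‖ < T) ∧ Sparse μ P ∧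
      μ * T ^ n ≤ 6 * (m + 1) * P.card := by
  classical
  have hn' : (0 : ℝ) < n := by exact_mod_cast hn
  have : Nonempty (Fin n) := ⟨⟨0, hn⟩⟩
  set q : ℝ := 1 + 1 / n with hq
  have hq0 : 0 < q := by positivity
  have hq1 : 1 < q := by
    have : 0 < 1 / (n : ℝ) := by positivity
    linarith
  have hqe : q ^ n ≤ Real.exp 1 := by
    have h1 : q ≤ Real.exp (1 / n) := by
      have := Real.add_one_le_exp (1 / (n : ℝ))
      linarith
    calc q ^ n ≤ Real.exp (1 / n) ^ n := pow_le_pow_left₀ hq0.le h1 _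
      _ = Real.exp 1 := by
          rw [← Real.exp_nat_mul]
          congr 1
          field_simp
  have hq2 : 2 ≤ q ^ n := by
    have h1 := one_add_mul_le_pow (a := 1 / (n : ℝ)) (by
      have : 0 < 1 / (n : ℝ) := by positivity
      linarith) n
    rw [mul_one_div_cancel hn'.ne'] at h1
    linarith
  have he0 := Real.exp_pos 1
  have he3 : Real.exp 1 < 3 := Real.exp_one_lt_three
  have hμ0 : 0 < μ := by linarith
  have hbig : ∀ z : (EuclideanSpace ℝ (Fin n)), ‖z‖ < q⁻¹ ^ m → 3 * μ / (4 * Real.exp 1) ≤ pot n q m z := by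
    intro z hz
    refine le_trans ?_ (le_pot hq0 le_rfl hz)
    have h1 : μ ≤ (q ^ m) ^ n := by
      rw [← pow_mul, mul_comm, pow_mul]
      exact hm.trans (pow_le_pow_left₀ (by norm_num) hq2 m)
    refine le_trans ?_ h1
    rw [div_le_iff₀ (by positivity)]
    have : 2 < Real.exp 1 := by
      have := Real.add_one_lt_exp (one_ne_zero)
      linarith
    nlinarith
  obtain ⟨S, hS1, hS2, hS3⟩ := local_opt hn (pot n q m) (pot_nonneg hq0 m) (pot_neg q m)
    (pot_integrable q m) (a := 3 * μ / (4 * Real.exp 1)) (δ := μ / (4 * Real.exp 1))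
    (σ := q⁻¹ ^ m) (by positivity) (by positivity) (by positivity) hT hbig
  have haδ : 3 * μ / (4 * Real.exp 1) + μ / (4 * Real.exp 1) = μ / Real.exp 1 := by
    field_simp
    ring
  have haδ' : 3 * μ / (4 * Real.exp 1) - μ / (4 * Real.exp 1) = μ / (2 * Real.exp 1) := by
    field_simp
    ring
  rw [haδ] at hS2
  rw [haδ', pot_integral hn hq0, measureReal_def, Measure.addHaar_ball _ _ hT.le,
    ENNReal.toReal_mul, ENNReal.toReal_ofReal (by positivity), ← measureReal_def,
    finrank_euclideanSpace_fin] at hS3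
  have hom : 0 < volume.real (ball (0 : (EuclideanSpace ℝ (Fin n))) 1) := by
    rw [measureReal_def, ENNReal.toReal_pos_iff]
    exact ⟨measure_ball_pos _ _ one_pos, measure_ball_lt_top⟩
  refine ⟨S, hS1, ?_, ?_⟩
  · intro x hx s hs0 hs1
    -- the points at the scale `j`
    have key : ∀ j ≤ m, ∀ s : ℝ, s ≤ q⁻¹ ^ j →
        (({y | y ∈ S ∧ y ≠ x ∧ dist x y < s} : Set (EuclideanSpace ℝ (Fin n))).ncard : ℝ) * (q ^ j) ^ n ≤
          μ / Real.exp 1 := by
      intro j hj s hs
      have e1 : ({y | y ∈ S ∧ y ≠ x ∧ dist x y < s} : Set (EuclideanSpace ℝ (Fin n))) =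
          ((S.filter (fun y => y ≠ x ∧ dist x y < s) : Finset (EuclideanSpace ℝ (Fin n))) : Set (EuclideanSpace ℝ (Fin n))) := by
        ext y
        simp
      rw [e1, Set.ncard_coe_finset]
      have h1 := hS2 x hx (S.filter (fun y => y ≠ x ∧ dist x y < s)) (Finset.filter_subset _ _)
        (by simp)
      refine le_trans ?_ h1
      rw [← nsmul_eq_mul, ← Finset.sum_const]
      refine Finset.sum_le_sum fun y hy => ?_
      rw [Finset.mem_filter] at hy
      refine le_pot hq0 hj ?_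
      rw [← dist_eq_norm]
      exact lt_of_lt_of_le hy.2.2 hs
    by_cases hsm : s ≤ q⁻¹ ^ m
    · have h1 := key m le_rfl s hsm
      have h2 : μ ≤ (q ^ m) ^ n := by
        rw [← pow_mul, mul_comm, pow_mul]
        exact hm.trans (pow_le_pow_left₀ (by norm_num) hq2 m)
      have h3 : (({y | y ∈ S ∧ y ≠ x ∧ dist x y < s} : Set (EuclideanSpace ℝ (Fin n))).ncard : ℝ) < 1 := by
        by_contra h
        push Not at h
        have h4 : μ ≤ μ / Real.exp 1 := by
          calc μ ≤ (q ^ m) ^ n := h2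
            _ = 1 * (q ^ m) ^ n := by ring
            _ ≤ _ := mul_le_mul_of_nonneg_right h (by positivity)
            _ ≤ _ := h1
        rw [le_div_iff₀ he0] at h4
        have : 2 < Real.exp 1 := by
          have := Real.add_one_lt_exp (one_ne_zero)
          linarith
        nlinarith
      have h4 : ({y | y ∈ S ∧ y ≠ x ∧ dist x y < s} : Set (EuclideanSpace ℝ (Fin n))).ncard = 0 := by
        have : ({y | y ∈ S ∧ y ≠ x ∧ dist x y < s} : Set (EuclideanSpace ℝ (Fin n))).ncard < 1 := by exact_mod_cast h3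
        omega
      rw [h4, Nat.cast_zero]
      positivity
    · push Not at hsm
      -- the scale of `s`
      have hex : ∃ j : ℕ, q⁻¹ ^ (j + 1) < s ∧ s ≤ q⁻¹ ^ j := by
        have h1 : ∃ j : ℕ, q⁻¹ ^ (j + 1) < s := ⟨m, lt_of_le_of_lt
          (pow_le_pow_of_le_one (by positivity) (inv_le_one_of_one_le₀ hq1.le) (Nat.le_succ m))
          hsm⟩
        refine ⟨Nat.find h1, Nat.find_spec h1, ?_⟩
        rcases Nat.eq_zero_or_pos (Nat.find h1) with h | h
        · rw [h, pow_zero]
          exact hs1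
        · have h2 := Nat.find_min h1 (Nat.sub_lt h one_pos)
          rw [not_lt] at h2
          rwa [show Nat.find h1 - 1 + 1 = Nat.find h1 by omega] at h2
      obtain ⟨j, hj1, hj2⟩ := hex
      have hjm : j ≤ m := by
        by_contra h
        push Not at h
        have h1 : q⁻¹ ^ j ≤ q⁻¹ ^ m :=
          pow_le_pow_of_le_one (by positivity) (inv_le_one_of_one_le₀ hq1.le) h.le
        linarith
      have h1 := key j hjm s hj2
      rw [← le_div_iff₀ (by positivity)] at h1
      refine h1.trans ?_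
      rw [div_div, div_le_iff₀ (by positivity)]
      have h2 : 1 ≤ s ^ n * (q ^ (j + 1)) ^ n := by
        rw [← mul_pow]
        refine one_le_pow₀ ?_
        rw [inv_pow, inv_lt_iff_one_lt_mul₀ (by positivity)] at hj1
        linarith
      have h3 : (q ^ (j + 1)) ^ n ≤ Real.exp 1 * (q ^ j) ^ n := by
        rw [pow_succ, mul_pow, mul_comm]
        exact mul_le_mul_of_nonneg_right hqe (by positivity)
      calc μ = μ * 1 := by ring
        _ ≤ μ * (s ^ n * (q ^ (j + 1)) ^ n) := mul_le_mul_of_nonneg_left h2 hμ0.le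
        _ ≤ μ * (s ^ n * (Real.exp 1 * (q ^ j) ^ n)) := by
            refine mul_le_mul_of_nonneg_left ?_ hμ0.le
            exact mul_le_mul_of_nonneg_left h3 (by positivity)
        _ = _ := by ring
  · have h1 : μ / (2 * Real.exp 1) * T ^ n * volume.real (ball (0 : (EuclideanSpace ℝ (Fin n))) 1) ≤
        S.card * (m + 1) * volume.real (ball (0 : (EuclideanSpace ℝ (Fin n))) 1) := by linarith
    have h2 := le_of_mul_le_mul_right h1 hom
    have h3 : μ * T ^ n = 2 * Real.exp 1 * (μ / (2 * Real.exp 1) * T ^ n) := by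
      field_simp
    rw [h3]
    calc 2 * Real.exp 1 * (μ / (2 * Real.exp 1) * T ^ n) ≤ 2 * Real.exp 1 * (S.card * (m + 1)) :=
          mul_le_mul_of_nonneg_left h2 (by positivity)
      _ ≤ 6 * (S.card * (m + 1)) := mul_le_mul_of_nonneg_right (by linarith) (by positivity)
      _ = _ := by ring

end Pool.Agent.H779.RB
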