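import Mathlib
import Pool.Graph.R_seed8.TH41.BL.ASM9

/-!
The auxiliary functions of the linear programming bound for sphere packings of
`Pool.Graph.R_seed8.TH41.BL`, with a nonnegative majorant of comparable integral.
(MP_dbfdb2_gt, helper779; the proofs follow the modules CE9, AS9, EU9 of that project.)
-/

set_option autoImplicit false
set_option linter.unusedSectionVars false

open MeasureTheory Filter Topology

open scoped FourierTransform ContDiff

namespace Pool.Agent.H779.RB

open Pool.Agent.TH41.BL Pool.Agent.TH41.BL.CE8f Pool.Agent.TH41.BL.CE9f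

/-- `f` has a continuous compactly supported nonnegative majorant with integral at most
`K ∫ f`. -/
def Maj {d : ℕ} (K : ℝ) (f : EuclideanSpace ℝ (Fin d) → ℝ) : Prop :=
  ∃ G : EuclideanSpace ℝ (Fin d) → ℝ, Continuous G ∧ HasCompactSupport G ∧ (∀ x, 0 ≤ G x) ∧
    (∀ x, f x ≤ G x) ∧ ∫ x, G x ≤ K * ∫ x, f x

/-- the majorant -/
noncomputable def gg {Ω : Type} [Fintype Ω] [DecidableEq Ω] {q : ℕ} (pos : Ω → Fin q) {m : ℕ}
    (D : ℝ) (T : Matrix (Fin m → Ω) (Fin m → Ω) ℝ)
    (φ : EuclideanSpace ℝ (Fin m) → ℝ) (x : EuclideanSpace ℝ (Fin m)) : ℝ :=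
  ∑ a, ∑ b, (D * T a b ^ 2) * φ (x - zz pos a b)

theorem cert : ∀ (Ω : Type) [Fintype Ω] [DecidableEq Ω] (q : ℕ) (pos : Ω → Fin q) (m : ℕ)
    (T : Matrix (Fin m → Ω) (Fin m → Ω) ℝ) (r D : ℝ), PSD T → 0 < hs T T →
    PSD (Ae pos T - r • T) → 0 < D → -D < r →
    ∃ f : EuclideanSpace ℝ (Fin m) → ℝ, AuxS m (√D + √m) f ∧
      f 0 * ((r + D) * hs T T) ≤ 2 * (D * hs (dgP (bX pos) T) (dgP (bX pos) T)) * ∫ x, f x ∧
      Maj (D / (r + D)) f := by

  have hp := PO7f.po
  intro Ω _ _ q pos m T r D hT hTT hA hD hr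
  obtain ⟨φ, hsm, hcs, hc, hi, h1, hpos, h02, h0, g, hgi, hg0, hg⟩ := k9_tent m
  have hW := PSD_WW pos hT hA hr.le
  have hI : ∫ x, ff pos D T φ x = ∑ a, ∑ b, cc pos D T a b := by
    unfold ff
    have hI1 : ∀ a b : Fin m → Ω, Integrable (fun x : EuclideanSpace ℝ (Fin m) =>
        cc pos D T a b * φ (x - zz pos a b)) := fun a b =>
      (hi.comp_sub_right (zz pos a b)).const_mul _
    rw [integral_finsetSum _ fun a _ => integrable_finsetSum _ fun b _ => hI1 a b]
    refine Finset.sum_congr rfl fun a _ => ?_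
    rw [integral_finsetSum _ fun b _ => hI1 a b]
    refine Finset.sum_congr rfl fun b _ => ?_
    rw [integral_const_mul, integral_sub_right_eq_self (μ := volume) φ (zz pos a b), h1, mul_one]
  have hI2 : (r + D) * hs T T ≤ ∫ x, ff pos D T φ x := by
    rw [hI, sum_cc pos D r T]
    have := hp.1 _ _ _ hT hA
    linarith
  have hI0 : 0 < (r + D) * hs T T := mul_pos (by linarith) hTT
  have hF := ff_fourier pos D T hc hi g hg
  refine ⟨ff pos D T φ, ⟨⟨?_, ?_, ?_, ?_, ?_, ?_, ?_⟩, ff_smooth pos D T hsm, ff_compact pos D T hcs⟩, ?_, ?_⟩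
  · unfold ff
    fun_prop
  · unfold ff
    exact integrable_finsetSum _ fun a _ => integrable_finsetSum _ fun b _ =>
      (hi.comp_sub_right (zz pos a b)).const_mul _
  · have e : 𝓕 (fun x => (ff pos D T φ x : ℂ)) =
        fun p => ∑ a, ∑ b, (cc pos D T a b : ℂ) * (ex (zz pos a b) p * (g p : ℂ)) := by
      ext p
      exact hF p
    rw [e]
    refine integrable_finsetSum _ fun a _ => integrable_finsetSum _ fun b _ => Integrable.const_mul ?_ _
    refine hgi.mono' ?_ (Eventually.of_forall fun p => ?_)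
    · exact (ex_cont (zz pos a b)).aestronglyMeasurable.mul hgi.ofReal.aestronglyMeasurable
    · rw [norm_mul, ex_norm, one_mul, Complex.norm_real, Real.norm_of_nonneg (hg0 p)]
  · intro p
    rw [hF p, Complex.im_sum]
    simp_rw [Complex.im_sum]
    have h2 : ∀ a b : Fin m → Ω, ((cc pos D T a b : ℂ) * (ex (zz pos a b) p * (g p : ℂ))).im =
        cc pos D T a b * (Real.sin (th pos p b - th pos p a) * g p) := by
      intro a b
      rw [← th_sub]
      exact term_im _ _ _ _ rfl
    simp_rw [h2]
    have h3 : ∑ a, ∑ b, cc pos D T a b * (Real.sin (th pos p b - th pos p a) * g p) =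
        -∑ a, ∑ b, cc pos D T a b * (Real.sin (th pos p b - th pos p a) * g p) := by
      conv_lhs => rw [Finset.sum_comm]
      rw [← Finset.sum_neg_distrib]
      refine Finset.sum_congr rfl fun a _ => ?_
      rw [← Finset.sum_neg_distrib]
      refine Finset.sum_congr rfl fun b _ => ?_
      rw [cc_symm pos D hT b a, ← neg_sub (th pos p b) (th pos p a), Real.sin_neg]
      ring
    linarith
  · intro p
    rw [hF p, Complex.re_sum]
    simp_rw [Complex.re_sum]
    have h2 : ∀ a b : Fin m → Ω, ((cc pos D T a b : ℂ) * (ex (zz pos a b) p * (g p : ℂ))).re =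
        cc pos D T a b * (Real.cos (th pos p b - th pos p a) * g p) := by
      intro a b
      rw [← th_sub]
      exact term_re _ _ _ _ rfl
    simp_rw [h2]
    have h3 : ∑ a, ∑ b, cc pos D T a b * (Real.cos (th pos p b - th pos p a) * g p) =
        g p * (hs (Matrix.of fun a b => Real.cos (th pos p a) * T a b * Real.cos (th pos p b))
            (WW pos D T) +
          hs (Matrix.of fun a b => Real.sin (th pos p a) * T a b * Real.sin (th pos p b))
            (WW pos D T)) := by
      unfold hs
      rw [← Finset.sum_add_distrib, Finset.mul_sum]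
      refine Finset.sum_congr rfl fun a _ => ?_
      rw [← Finset.sum_add_distrib, Finset.mul_sum]
      refine Finset.sum_congr rfl fun b _ => ?_
      unfold cc WW
      rw [Matrix.of_apply, Matrix.of_apply, Matrix.of_apply, Real.cos_sub]
      ring
    rw [h3]
    exact mul_nonneg (hg0 p) (add_nonneg
      (hp.1 _ _ _ (hp.2.1 _ _ _ hT) hW) (hp.1 _ _ _ (hp.2.1 _ _ _ hT) hW))
  · linarith
  · intro x hx
    exact ff_nonpos pos T φ hpos h0 hD x hx
  · rw [ff_zero' pos D T φ h0]
    have h2 : 0 ≤ D * hs (dgP (bX pos) T) (dgP (bX pos) T) := by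
      refine mul_nonneg hD.le ?_
      unfold hs
      exact Finset.sum_nonneg fun a _ => Finset.sum_nonneg fun b _ => mul_self_nonneg _
    have h3 : φ 0 * (D * hs (dgP (bX pos) T) (dgP (bX pos) T)) ≤
        2 * (D * hs (dgP (bX pos) T) (dgP (bX pos) T)) := mul_le_mul_of_nonneg_right h02 h2
    calc φ 0 * (D * hs (dgP (bX pos) T) (dgP (bX pos) T)) * ((r + D) * hs T T)
        ≤ 2 * (D * hs (dgP (bX pos) T) (dgP (bX pos) T)) * ((r + D) * hs T T) :=
          mul_le_mul_of_nonneg_right h3 hI0.le
      _ ≤ 2 * (D * hs (dgP (bX pos) T) (dgP (bX pos) T)) * ∫ x, ff pos D T φ x :=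
          mul_le_mul_of_nonneg_left hI2 (by linarith)
  · refine ⟨gg pos D T φ, ?_, ?_, ?_, ?_, ?_⟩
    · unfold gg
      fun_prop
    · unfold gg
      refine hcs_sum _ _ fun a => hcs_sum _ _ fun b => ?_
      exact (hcs_tr hcs (zz pos a b)).mul_left
    · intro x
      unfold gg
      exact Finset.sum_nonneg fun a _ => Finset.sum_nonneg fun b _ =>
        mul_nonneg (by positivity) (hpos _)
    · intro x
      unfold gg ff
      refine Finset.sum_le_sum fun a _ => Finset.sum_le_sum fun b _ => ?_
      refine mul_le_mul_of_nonneg_right ?_ (hpos _)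
      unfold cc
      refine mul_le_mul_of_nonneg_right ?_ (sq_nonneg _)
      have : 0 ≤ sd pos a b := by
        unfold sd
        exact Finset.sum_nonneg fun k _ => sq_nonneg _
      linarith
    · have hG : ∫ x, gg pos D T φ x = D * hs T T := by
        unfold gg
        have hI1 : ∀ a b : Fin m → Ω, Integrable (fun x : EuclideanSpace ℝ (Fin m) =>
            (D * T a b ^ 2) * φ (x - zz pos a b)) := fun a b =>
          (hi.comp_sub_right (zz pos a b)).const_mul _
        rw [integral_finsetSum _ fun a _ => integrable_finsetSum _ fun b _ => hI1 a b]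
        unfold hs
        rw [Finset.mul_sum]
        refine Finset.sum_congr rfl fun a _ => ?_
        rw [integral_finsetSum _ fun b _ => hI1 a b, Finset.mul_sum]
        refine Finset.sum_congr rfl fun b _ => ?_
        rw [integral_const_mul, integral_sub_right_eq_self (μ := volume) φ (zz pos a b), h1]
        ring
      rw [hG]
      have hrD : 0 < r + D := by linarith
      have h3 : D * hs T T = D / (r + D) * ((r + D) * hs T T) := by
        field_simp
      rw [h3]
      exact mul_le_mul_of_nonneg_left hI2 (by positivity)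

end Pool.Agent.H779.RB
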