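import Mathlib
import Pool.Agent.H779.RB.Cert

set_option autoImplicit false

open MeasureTheory Filter Topology

open scoped FourierTransform

namespace Pool.Agent.H779.RB

open Pool.Agent.TH41.BL

open Pool.Agent.H390R2.LP

open Pool.Agent.TH41.BL.AS8f

theorem asm : ∀ (Ω : Type) [Fintype Ω] [DecidableEq Ω] (q : ℕ) (s : Site Ω (Fin q))
    (D ε : ℝ), s.E (fun (_ : Unit) (x : Fin q) => (x : ℝ)) < D → 0 < D → 0 < ε → ∃ (m₀ : ℕ) (K : ℝ),
    0 < K ∧ ∀ m ≥ m₀, ∃ f : EuclideanSpace ℝ (Fin m) → ℝ, AuxS m (√(m * D) + √m) f ∧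
      f 0 ≤ Real.exp (-(m * (s.h - s.S - ε))) * ∫ x, f x ∧ Maj K f := by
  have hd : S7_dim := DM7f.dm
  have he : S7_env := EN7f.en
  have hl : S7_low := LO7f.lo
  have ht : S7_top := TP7f.tp
  have hp : S7_pos := PO7f.po
  have hq : S8_alg := k8_alg
  have hr : S8_ray := k8_ray
  have hy : S8_typ := k8_typ
  have hs8 : S8_ps := k8_ps
  have hst : S8_st := k8_st

  intro Ω _ _ q s D ε hED hD hε
  obtain ⟨E₀, hE₀⟩ : ∃ E₀ : ℝ, E₀ = s.E (fun (_ : Unit) (x : Fin q) => (x : ℝ)) := ⟨_, rfl⟩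
  have hE0 : 0 ≤ E₀ := by
    have h1 := (hst Ω q s 1).2.2.2.2
    have h2 := hs_Ae_nonpos s.pos (Tg s 1)
    rw [h1, ← hE₀] at h2
    push_cast at h2
    linarith
  rw [← hE₀] at hED
  obtain ⟨g, hg⟩ : ∃ g : ℝ, g = D - E₀ := ⟨_, rfl⟩
  have hg0 : 0 < g := by linarith
  obtain ⟨κ, hκ0, hκ1, hκ2, hκ3⟩ :
      ∃ κ : ℝ, 0 < κ ∧ 16 * (D + (q : ℝ) ^ 2) * √κ ≤ g ∧ 4 * √κ < 1 ∧ 6 * κ ≤ ε := by
    have hw : 0 < 16 * (D + (q : ℝ) ^ 2) := by positivity
    refine ⟨min (min ((g / (16 * (D + (q : ℝ) ^ 2))) ^ 2) ((1 / 8) ^ 2)) (ε / 6),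
      by positivity, ?_, ?_, ?_⟩
    · have h1 : √(min (min ((g / (16 * (D + (q : ℝ) ^ 2))) ^ 2) ((1 / 8) ^ 2)) (ε / 6)) ≤
          g / (16 * (D + (q : ℝ) ^ 2)) := by
        rw [Real.sqrt_le_left (by positivity)]
        exact (min_le_left _ _).trans (min_le_left _ _)
      rw [le_div_iff₀ hw] at h1
      linarith
    · have h1 : √(min (min ((g / (16 * (D + (q : ℝ) ^ 2))) ^ 2) ((1 / 8) ^ 2)) (ε / 6)) ≤
          1 / 8 := by
        rw [Real.sqrt_le_left (by positivity)]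
        exact (min_le_left _ _).trans (min_le_right _ _)
      linarith
    · have h1 : min (min ((g / (16 * (D + (q : ℝ) ^ 2))) ^ 2) ((1 / 8) ^ 2)) (ε / 6) ≤ ε / 6 :=
        min_le_right _ _
      linarith
  obtain ⟨m₁, hm₁⟩ := hy Ω q s κ hκ0
  obtain ⟨m₂, hm₂⟩ := hs8 Ω q s κ hκ0
  obtain ⟨m₃, hm₃⟩ := eventually_atTop.mp (ev_pow (Fintype.card Ω ^ 2) 1 κ one_pos hκ0)
  obtain ⟨m₄, hm₄⟩ := eventually_atTop.mp
    (ev_pow (Fintype.card Ω ^ 2) (4 * D / g) (ε / 2) (by positivity) (by positivity))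
  refine ⟨m₁ + m₂ + m₃ + m₄ + 1, 2 * D / g, by positivity, fun m hm => ?_⟩
  obtain ⟨E, hEi, hEp, hEt, hEr⟩ := hm₁ m (by omega)
  have hps := hm₂ m (by omega)
  have hB1 := hm₃ m (by omega)
  have hB2 := hm₄ m (by omega)
  have hdim := hd Ω m
  have hmn : 1 ≤ m := by omega
  have hm1 : (1 : ℝ) ≤ m := by exact_mod_cast hmn
  obtain ⟨Q, hQi, hQp, hQE, hQc, hQt⟩ := he Ω m E hEi hEp
  obtain ⟨L, hL⟩ : ∃ L : ℝ, L = Real.exp (m * (s.h - 2 * κ)) := ⟨_, rfl⟩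
  have hL0 : 0 < L := by
    rw [hL]
    exact Real.exp_pos _
  obtain ⟨P, hPi, hPd, hPp, hPt, hPmin⟩ := hl Ω (Fin q) (bX s.pos) m L hL0
  obtain ⟨hTpsd, hTi, hTT, hT1, hTE⟩ := hst Ω q s m
  rw [← hE₀] at hTE
  have hB : dimP Ω m ≤ Real.exp (m * κ) := by linarith
  have hPr : ((1 - P) * Rg s m).trace ≤ κ := by
    apply hps _ (prj_compl hPp) (pdi_compl hPd)
    refine hPt.trans ?_
    have h1 : Real.exp (m * (s.h - κ)) = L * Real.exp (m * κ) := by
      rw [hL, ← Real.exp_add]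
      congr 1
      ring
    rw [h1]
    exact mul_le_mul_of_nonneg_left hB hL0.le
  rw [← hTT] at hPr hEr
  generalize Tg s m = T₀ at hTpsd hTi hTT hT1 hTE hPr hEr
  have hPQ : Q * P = P * Q := hQc P hPi
  obtain ⟨c1, c2, c3, c4, c5⟩ := comp hPp hQp hEp hPQ hQE hTpsd hT1 hPr hEr
  have hT₁i : PInv (P * Q * T₀ * (P * Q)) :=
    pinv_mul (pinv_mul (pinv_mul hPi hQi) hTi) (pinv_mul hPi hQi)
  generalize P * Q * T₀ * (P * Q) = T₁ at c1 c2 c3 c4 c5 hT₁i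
  have hT₁0 : T₁ ≠ 0 := by
    intro h0
    rw [h0, sub_zero, hT1, Real.sqrt_one] at c5
    linarith
  obtain ⟨T, r, hTp, hTin, hTne, hPT, hQT, hray, hAdT⟩ := hr Ω q s.pos m P Q T₁
    hPi hPd hPp hQi hQp hQc c1.1 hT₁i c2 c3 hT₁0
  have hlow : -(m * E₀) - m * (8 * (q : ℝ) ^ 2 * √κ) ≤ hs T₁ (Ae s.pos T₁) := by
    have e1 : hs T₀ (Ae s.pos T₀) - hs T₁ (Ae s.pos T₁) =
        hs (T₀ - T₁) (Ae s.pos (T₀ + T₁)) := by
      have e0 := (hq Ω q s.pos m T₀ T₁).2.2.2.2.1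
      rw [Ae_add, hs_add_right, hs_sub_left, hs_sub_left, hs_comm T₁ (Ae s.pos T₀), ← e0]
      ring
    have e2 := (hq Ω q s.pos m (T₀ - T₁) (T₀ + T₁)).2.2.2.2.2.2
    have e3 : √(hs (T₀ + T₁) (T₀ + T₁)) ≤ 2 := by
      have h1 := N_add T₀ T₁
      have h2 := Real.sqrt_le_one.mpr c4
      rw [hT1, Real.sqrt_one] at h1
      linarith
    rw [← e1] at e2
    have e4 := (le_abs_self _).trans e2
    have e5 : √(hs (T₀ - T₁) (T₀ - T₁)) * √(hs (T₀ + T₁) (T₀ + T₁)) ≤ 4 * √κ * 2 :=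
      mul_le_mul c5 e3 (Real.sqrt_nonneg _) (by positivity)
    have e6 := mul_le_mul_of_nonneg_left e5 (show (0 : ℝ) ≤ m * (q : ℝ) ^ 2 by positivity)
    rw [hTE] at e4
    linarith
  have hN1 : 1 - 8 * √κ ≤ hs T₁ T₁ := by
    have h1 := N_add (T₀ - T₁) T₁
    rw [sub_add_cancel, hT1, Real.sqrt_one] at h1
    have h2 : 1 - 4 * √κ ≤ √(hs T₁ T₁) := by linarith
    have h3 := mul_self_le_mul_self (by linarith) h2
    rw [Real.mul_self_sqrt (hs_self_nonneg T₁)] at h3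
    have h4 := mul_self_nonneg (4 * √κ)
    linarith
  have hgap : m * (g / 2) ≤ r + m * D := by
    rw [hg]
    rw [hg] at hκ1
    exact rbd hD hE0 hED hmn hκ1 hN1 hlow hray (by positivity)
  have hmg : 0 < (m : ℝ) * (g / 2) := by positivity
  obtain ⟨f, hf, hval, hmaj⟩ := cert Ω q s.pos m T r (m * D) hTp (hs_self_pos hTne) hAdT
    (by positivity) (by linarith)
  refine ⟨f, hf, ?_, ?_⟩
  rotate_left
  · obtain ⟨G, hG1, hG2, hG3, hG4, hG5⟩ := hmaj
    refine ⟨G, hG1, hG2, hG3, hG4, hG5.trans ?_⟩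
    refine mul_le_mul_of_nonneg_right ?_ hf.integral_pos.le
    rw [div_le_div_iff₀ (by linarith) hg0]
    have h1 := mul_le_mul_of_nonneg_left hgap (show (0 : ℝ) ≤ 2 * D by positivity)
    nlinarith
  have hMp := hp.2.2 Ω (Fin q) (bX s.pos) m P T
  have hMt := hp.2.2 Ω (Fin q) (bX s.pos) m T T
  have hPM : P * dgP (bX s.pos) T = dgP (bX s.pos) T := by
    have h1 := hMp.2.2.2.2.2.2.2.1 hPd
    rw [hPT] at h1
    exact h1.symm
  have htop := ht Ω (Fin q) (bX s.pos) m L P hL0.le hPmin (dgP (bX s.pos) T) (hMt.2.1 hTp)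
    (hMt.2.2.2.1 hTin) hMt.2.2.2.2.1 hPM
  rw [trace_dgP] at htop
  have htr2 : T.trace ^ 2 ≤ Q.trace * hs T T := by
    have e1 : T.trace = hs Q T := by rw [hs_trace, hQp.1, hQT]
    have e2 : hs Q Q = Q.trace := by rw [hs_trace, hQp.1, hQp.2]
    rw [e1, ← e2]
    exact hs_cs Q T
  have hTpos := hs_self_pos hTne
  have hv0 := hf.integral_pos
  generalize ∫ x, f x = v at hval hv0 ⊢
  rcases le_or_gt (f 0) 0 with h0 | h0
  · exact h0.trans (by positivity)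
  generalize f 0 = F at hval h0 ⊢
  generalize hs (dgP (bX s.pos) T) (dgP (bX s.pos) T) = G at hval htop
  have hB0 : 0 ≤ dimP Ω m := by
    unfold dimP
    positivity
  have hQ2 : Q.trace ≤ dimP Ω m * Real.exp (m * (s.S + κ)) :=
    hQt.trans (mul_le_mul_of_nonneg_left hEt hB0)
  have f1 : F * (m * (g / 2) * hs T T) * L ≤
      2 * (m * D * (dimP Ω m * Real.exp (m * (s.S + κ)) * hs T T) * v) := by
    have g1 : F * (m * (g / 2) * hs T T) * L ≤ F * ((r + m * D) * hs T T) * L :=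
      mul_le_mul_of_nonneg_right (mul_le_mul_of_nonneg_left
        (mul_le_mul_of_nonneg_right hgap hTpos.le) h0.le) hL0.le
    have g2 : F * ((r + m * D) * hs T T) * L ≤ 2 * (m * D * G) * v * L :=
      mul_le_mul_of_nonneg_right hval hL0.le
    have g3 : L * G ≤ dimP Ω m * Real.exp (m * (s.S + κ)) * hs T T :=
      htop.trans (htr2.trans (mul_le_mul_of_nonneg_right hQ2 hTpos.le))
    have g4 : 2 * (m * D * G) * v * L = 2 * (m * D * (L * G) * v) := by ring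
    have g5 : m * D * (L * G) * v ≤
        m * D * (dimP Ω m * Real.exp (m * (s.S + κ)) * hs T T) * v :=
      mul_le_mul_of_nonneg_right (mul_le_mul_of_nonneg_left g3 (by positivity)) hv0.le
    linarith
  have f2 : F * (g / 2 * L) ≤ 2 * D * (dimP Ω m * Real.exp (m * (s.S + κ))) * v := by
    have h1 : F * (m * (g / 2) * hs T T) * L = F * (g / 2 * L) * (m * hs T T) := by ring
    have h2 : 2 * (m * D * (dimP Ω m * Real.exp (m * (s.S + κ)) * hs T T) * v) =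
      2 * D * (dimP Ω m * Real.exp (m * (s.S + κ))) * v * (m * hs T T) := by
      ring
    rw [h1, h2] at f1
    exact le_of_mul_le_mul_right f1 (by positivity)
  have f3 : 2 * D * (dimP Ω m * Real.exp (m * (s.S + κ))) ≤
      Real.exp (-(m * (s.h - s.S - ε))) * (g / 2 * L) := by
    have h1 : 4 * D / g * dimP Ω m ≤ Real.exp (m * (ε / 2)) :=
      (mul_le_mul_of_nonneg_left hdim (by positivity)).trans hB2
    have h3 : 2 * D * (dimP Ω m * Real.exp (m * (s.S + κ))) =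
        g / 2 * ((4 * D / g * dimP Ω m) * Real.exp (m * (s.S + κ))) := by
      field_simp
      ring
    have h4 : Real.exp (-(m * (s.h - s.S - ε))) * (g / 2 * L) =
        g / 2 * (Real.exp (-(m * (s.h - s.S - ε))) * L) := by ring
    rw [h3, h4]
    refine mul_le_mul_of_nonneg_left ?_ (by positivity)
    refine (mul_le_mul_of_nonneg_right h1 (by positivity)).trans ?_
    rw [hL, ← Real.exp_add, ← Real.exp_add]
    apply Real.exp_le_exp.mpr
    have h5 : (m : ℝ) * (6 * κ) ≤ m * ε := mul_le_mul_of_nonneg_left hκ3 (by positivity)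
    linarith
  have f4 := mul_le_mul_of_nonneg_right f3 hv0.le
  have f5 : F * (g / 2 * L) ≤ Real.exp (-(m * (s.h - s.S - ε))) * v * (g / 2 * L) := by
    linarith
  exact le_of_mul_le_mul_right f5 (by positivity)

end Pool.Agent.H779.RB
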