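import Mathlib
import Pool.Agent.H779.RB.Asm

set_option autoImplicit false

open MeasureTheory Filter Topology

open scoped FourierTransform

namespace Pool.Agent.H779.RB

open Pool.Agent.TH41.BL

open Pool.Agent.H390R2.LP

theorem Maj.scale {d : ℕ} {K t : ℝ} (ht : 0 < t) {f : EuclideanSpace ℝ (Fin d) → ℝ}
    (h : Maj K f) : Maj K (fun x => f (t⁻¹ • x)) := by
  obtain ⟨G, hG1, hG2, hG3, hG4, hG5⟩ := h
  refine ⟨fun x => G (t⁻¹ • x), hG1.comp (continuous_const_smul t⁻¹),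
    hG2.comp_smul (inv_ne_zero ht.ne'), fun x => hG3 _, fun x => hG4 _, ?_⟩
  rw [SC8f.integral_scale ht f, SC8f.integral_scale ht G]
  have := mul_le_mul_of_nonneg_left hG5 (pow_pos ht d).le
  linarith

theorem euc : ∀ (Ω : Type) [Fintype Ω] [DecidableEq Ω] (q : ℕ) (s : Site Ω (Fin q))
    (hg ε : ℝ), 0 < hg → 0 < ε → ∃ (n₀ : ℕ) (K : ℝ), 0 < K ∧ ∀ n ≥ n₀, ∀ r : ℝ, 0 < r →
    ∃ f : EuclideanSpace ℝ (Fin n) → ℝ, AuxS n r f ∧
      dB n r f ≤ Real.exp (-(n * (s.h - s.S + Real.log hg - 1 / 2 * Real.log (2 * Real.pi *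
        Real.exp 1) - Real.log ((√(s.E (fun (_ : Unit) (x : Fin q) => hg * (x : ℝ))) + hg) / 2)
          - ε))) ∧ Maj K f := by
  have hs : S9_sc := k9_sc

  intro Ω _ _ q s hg ε hhg hε
  set E1 := s.E (fun (_ : Unit) (x : Fin q) => (x : ℝ)) with hE1
  have hE0 : 0 ≤ E1 := Pool.Agent.H390R2.LP.site_E_nonneg s _
  set δ := (ε / 2) ^ 2 with hδ
  have hδ0 : 0 < δ := by positivity
  set D := E1 + δ with hD
  have hD0 : 0 < D := by positivity
  obtain ⟨m₀, K, hK0, hm₀⟩ := asm Ω q s D (ε / 2) (by linarith) hD0 (by positivity)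
  refine ⟨max m₀ 1, K, hK0, fun n hn r hr => ?_⟩
  have hn1 : 0 < n := lt_of_lt_of_le one_pos ((le_max_right _ _).trans hn)
  have hn' : (0 : ℝ) < n := by exact_mod_cast hn1
  obtain ⟨f, hf, hf0, hmaj⟩ := hm₀ n ((le_max_left _ _).trans hn)
  set R := √(n * D) + √(n : ℝ) with hR
  have hR0 : 0 < R := by
    have : 0 < √(n : ℝ) := Real.sqrt_pos.2 hn'
    positivity
  have ht0 : 0 < r / R := by positivity
  obtain ⟨g1, g2⟩ := hs n R (r / R) f hR0 ht0 hf
  have etR : r / R * R = r := div_mul_cancel₀ _ hR0.ne'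
  rw [etR] at g1 g2
  refine ⟨_, g1, ?_, hmaj.scale ht0⟩
  rw [g2]
  -- the bound
  have hI := hf.integral_pos
  have hq : f 0 / ∫ x, f x ≤ Real.exp (-(n * (s.h - s.S - ε / 2))) := by
    rw [div_le_iff₀ hI]
    exact hf0
  have hvol : (volume (Metric.ball (0 : EuclideanSpace ℝ (Fin n)) (R / 2))).toReal ≤
      (√(2 * Real.pi * Real.exp 1 / n) * (R / 2)) ^ n := by
    have h1 := Pool.Agent.H390R2.LP.volume_ball_le n hn1 0 (R / 2) (by positivity)
    have h2 := ENNReal.toReal_mono ENNReal.ofReal_ne_top h1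
    rwa [ENNReal.toReal_ofReal (by positivity)] at h2
  have hdB : dB n R f ≤ (√(2 * Real.pi * Real.exp 1 / n) * (R / 2)) ^ n *
      Real.exp (-(n * (s.h - s.S - ε / 2))) := by
    unfold dB
    rw [mul_div_assoc]
    calc (volume (Metric.ball (0 : EuclideanSpace ℝ (Fin n)) (R / 2))).toReal *
          (f 0 / ∫ x, f x)
        ≤ (volume (Metric.ball (0 : EuclideanSpace ℝ (Fin n)) (R / 2))).toReal *
          Real.exp (-(n * (s.h - s.S - ε / 2))) :=
          mul_le_mul_of_nonneg_left hq ENNReal.toReal_nonneg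
      _ ≤ _ := mul_le_mul_of_nonneg_right hvol (Real.exp_pos _).le
  refine hdB.trans ?_
  have e1 : √(2 * Real.pi * Real.exp 1 / n) * (R / 2) =
      √(2 * Real.pi * Real.exp 1) * ((√D + 1) / 2) := by
    have hsn : √(n : ℝ) ≠ 0 := (Real.sqrt_pos.2 hn').ne'
    rw [hR, Real.sqrt_div (by positivity), Real.sqrt_mul hn'.le]
    field_simp
  have hsq : √D ≤ √E1 + ε / 2 := by
    have h5 : √D ≤ √E1 + √δ := by
      rw [Real.sqrt_le_left (by positivity), add_sq, Real.sq_sqrt hE0, Real.sq_sqrt hδ0.le]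
      have : 0 ≤ 2 * √E1 * √δ := by positivity
      linarith
    rwa [hδ, Real.sqrt_sq (by positivity)] at h5
  have hsE := Real.sqrt_nonneg E1
  have hfac : (√D + 1) / 2 ≤ (√E1 + 1) / 2 * Real.exp (ε / 2) := by
    have h3 : ε / 2 + 1 ≤ Real.exp (ε / 2) := Real.add_one_le_exp _
    have h4 : √D + 1 ≤ (√E1 + 1) * (ε / 2 + 1) := by
      nlinarith [mul_nonneg hsE hε.le]
    have h5 : √D + 1 ≤ (√E1 + 1) * Real.exp (ε / 2) :=
      h4.trans (mul_le_mul_of_nonneg_left h3 (by positivity))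
    linarith
  have hlog : √(2 * Real.pi * Real.exp 1) * ((√E1 + 1) / 2) =
      Real.exp (1 / 2 * Real.log (2 * Real.pi * Real.exp 1) + Real.log ((√E1 + 1) / 2)) := by
    rw [Real.exp_add, Real.exp_log (by positivity), Real.sqrt_eq_rpow,
      Real.rpow_def_of_pos (by positivity), mul_comm (Real.log _) (1 / 2 : ℝ)]
  have hEE : √(s.E (fun (_ : Unit) (x : Fin q) => hg * (x : ℝ))) = hg * √E1 := by
    rw [EU8f.E_scale, Real.sqrt_mul (by positivity), Real.sqrt_sq hhg.le]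
  have hlg : Real.log ((√(s.E (fun (_ : Unit) (x : Fin q) => hg * (x : ℝ))) + hg) / 2) =
      Real.log hg + Real.log ((√E1 + 1) / 2) := by
    rw [hEE, ← Real.log_mul hhg.ne' (by positivity)]
    congr 1
    ring
  rw [e1, hlg]
  calc (√(2 * Real.pi * Real.exp 1) * ((√D + 1) / 2)) ^ n *
        Real.exp (-(n * (s.h - s.S - ε / 2)))
      ≤ (√(2 * Real.pi * Real.exp 1) * ((√E1 + 1) / 2 * Real.exp (ε / 2))) ^ n *
        Real.exp (-(n * (s.h - s.S - ε / 2))) := by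
        gcongr
    _ = (Real.exp ((1 / 2 * Real.log (2 * Real.pi * Real.exp 1) + Real.log ((√E1 + 1) / 2)) +
          ε / 2)) ^ n * Real.exp (-(n * (s.h - s.S - ε / 2))) := by
        rw [← mul_assoc, hlog, ← Real.exp_add]
    _ = _ := by
        rw [← Real.exp_nat_mul, ← Real.exp_add]
        congr 1
        ring

/-- The auxiliary functions of the linear programming bound of exponential rate
`(e / 2π)^(n/2)`, with a majorant of comparable integral. -/
theorem fin_main : ∀ ε : ℝ, 0 < ε → ∃ (n₀ : ℕ) (K : ℝ), 0 < K ∧ ∀ n ≥ n₀, ∀ r : ℝ, 0 < r →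
    ∃ f : EuclideanSpace ℝ (Fin n) → ℝ, AuxS n r f ∧
      dB n r f ≤ Real.exp (-(n * (1 / 2 * Real.log (2 * Real.pi / Real.exp 1) - ε))) ∧
      Maj K f := by
  intro ε hε
  obtain ⟨Ω, i1, i2, q, s, hs⟩ := Pool.Agent.W259.GP.s_main (ε / 3) (by positivity)
  obtain ⟨Ω', j1, j2, q', s', hg, hg0, -, hs'⟩ :=
    Pool.Agent.H785R2.LP.exists_refine s (show 0 < ε / 3 by positivity)
  have hcE : Pool.Agent.H390R2.LP.cE s' hg = Pool.Agent.H785R2.LP.cval s' hg := rfl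
  obtain ⟨n0, K, hK, hn0⟩ := euc Ω' q' s' hg (ε / 3) hg0 (by positivity)
  refine ⟨n0, K, hK, fun n hn r hr => ?_⟩
  obtain ⟨f, hf, hb, hmaj⟩ := hn0 n hn r hr
  refine ⟨f, hf, hb.trans ?_, hmaj⟩
  apply Real.exp_le_exp.mpr
  have h1 : 1 / 2 * Real.log (2 * Real.pi / Real.exp 1) - ε ≤
      Pool.Agent.H390R2.LP.cE s' hg - ε / 3 := by
    rw [hcE]
    linarith
  have h2 := mul_le_mul_of_nonneg_left h1 (Nat.cast_nonneg (α := ℝ) n)
  unfold Pool.Agent.H390R2.LP.cE at h2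
  linarith

end Pool.Agent.H779.RB
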