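import Mathlib
import Pool.Graph.R_seed8.Helper843.Haar

/-!
Averages over rotations.
-/

set_option autoImplicit false
set_option linter.unusedSectionVars false

open MeasureTheory Filter Topology Metric

open scoped ENNReal

namespace Pool.Agent.H779.RB

open Pool.Agent.Helper843.Haar

attribute [local instance] compactSpace_UG secondCountable_UG measUG borelUG

theorem opensUG (E : Type*) [NormedAddCommGroup E] [InnerProductSpace ℝ E]
    [CompleteSpace E] : OpensMeasurableSpace (unitary (E →L[ℝ] E)) :=
  @BorelSpace.opensMeasurable _ _ _ (borelUG E)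

attribute [local instance] opensUG

section
variable {E : Type*} [NormedAddCommGroup E] [InnerProductSpace ℝ E] [CompleteSpace E]
  [FiniteDimensional ℝ E] [MeasurableSpace E] [BorelSpace E]


theorem act_smul (Q : (unitary (E →L[ℝ] E))) (a : ℝ) (x : E) : act Q (a • x) = a • act Q x := by
  simp [act]

theorem act_sub (Q : (unitary (E →L[ℝ] E))) (x y : E) : act Q (x - y) = act Q x - act Q y := by
  simp [act]

theorem act_dist (Q : (unitary (E →L[ℝ] E))) (x y : E) : dist (act Q x) (act Q y) = dist x y := by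
  rw [dist_eq_norm, dist_eq_norm, ← act_sub, act_norm]

theorem meas_act (x : E) : Measurable (fun Q : (unitary (E →L[ℝ] E)) => act Q x) := by
  have h : Continuous (fun Q : (unitary (E →L[ℝ] E)) => act Q x) := by
    unfold act
    exact (continuous_subtype_val.comp continuous_inv).clm_apply continuous_const
  exact h.measurable

theorem meas_act' (Q : (unitary (E →L[ℝ] E))) : Measurable (fun x : E => act Q x) := by
  have h : Continuous (fun x : E => act Q x) := by
    unfold act
    exact ContinuousLinearMap.continuous _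
  exact h.measurable

/-- the average depends on the norm only -/
theorem haar_const' {k : ℕ} (hn : Module.finrank ℝ E = k + 1) (h : E → ℝ≥0∞) (x y : E)
    (hxy : ‖x‖ = ‖y‖) : ∫⁻ Q, h (act Q x) ∂(Measure.haar : Measure (unitary (E →L[ℝ] E))) = ∫⁻ Q, h (act Q y) ∂(Measure.haar : Measure (unitary (E →L[ℝ] E))) := by
  rcases eq_or_ne x 0 with rfl | hx
  · have hy : y = 0 := by
      rw [norm_zero] at hxy
      exact norm_eq_zero.1 hxy.symm
    rw [hy]
  · have hx0 : 0 < ‖x‖ := norm_pos_iff.2 hx
    have hy0 : 0 < ‖y‖ := hxy ▸ hx0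
    have h1 := haar_const hn (fun v => h (‖x‖ • v)) (‖x‖⁻¹ • x) (‖x‖⁻¹ • y)
      (by rw [norm_smul, norm_inv, norm_norm, inv_mul_cancel₀ hx0.ne'])
      (by rw [norm_smul, norm_inv, norm_norm, ← hxy, inv_mul_cancel₀ hx0.ne'])
    simp only [← act_smul, smul_smul, mul_inv_cancel₀ hx0.ne', one_smul] at h1
    exact h1

/-- the proportion of the rotations that take `z` into a ball -/
theorem rot_ball {k : ℕ} (hn : Module.finrank ℝ E = k + 1) (z v : E) (hz : z ≠ 0) {ρ η : ℝ}
    (hρ : 0 < ρ) (hη : 0 < η) :
    (Measure.haar : Measure (unitary (E →L[ℝ] E))) {Q : (unitary (E →L[ℝ] E)) | dist (act Q z) v < ρ} * volume (ball (0 : E) (‖z‖ + η * ρ) \ ball 0 ‖z‖) ≤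
      (Measure.haar : Measure (unitary (E →L[ℝ] E))) Set.univ * volume (ball (0 : E) ((1 + η) * ρ)) := by
  set A : Set E := ball (0 : E) (‖z‖ + η * ρ) \ ball 0 ‖z‖ with hA
  have hAm : MeasurableSet A := measurableSet_ball.diff measurableSet_ball
  have hz0 : 0 < ‖z‖ := norm_pos_iff.2 hz
  set h : E → ℝ≥0∞ := (ball v ((1 + η) * ρ)).indicator 1 with hh
  have hhm : Measurable h := measurable_one.indicator measurableSet_ball
  have key : ∀ z' ∈ A, (Measure.haar : Measure (unitary (E →L[ℝ] E))) {Q : (unitary (E →L[ℝ] E)) | dist (act Q z) v < ρ} ≤ ∫⁻ Q, h (act Q z') ∂(Measure.haar : Measure (unitary (E →L[ℝ] E))) := by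
    intro z' hz'
    rw [hA, Set.mem_sdiff, mem_ball_zero_iff, mem_ball_zero_iff, not_lt] at hz'
    rw [haar_const' hn h z' ((‖z'‖ / ‖z‖) • z) (by
      rw [norm_smul, Real.norm_of_nonneg (by positivity), div_mul_cancel₀ _ hz0.ne'])]
    rw [← lintegral_indicator_one (measurableSet_lt ((meas_act z).dist measurable_const)
      measurable_const)]
    refine lintegral_mono fun Q => ?_
    by_cases hQ : dist (act Q z) v < ρ
    · have h1 : act Q ((‖z'‖ / ‖z‖) • z) ∈ ball v ((1 + η) * ρ) := by
        rw [mem_ball, act_smul]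
        have h2 : dist ((‖z'‖ / ‖z‖) • act Q z) (act Q z) ≤ η * ρ := by
          rw [dist_eq_norm, show (‖z'‖ / ‖z‖) • act Q z - act Q z =
            (‖z'‖ / ‖z‖ - 1) • act Q z by rw [sub_smul, one_smul], norm_smul, act_norm,
            Real.norm_of_nonneg (by rw [sub_nonneg, one_le_div hz0]; exact hz'.2), sub_mul,
            div_mul_cancel₀ _ hz0.ne', one_mul]
          linarith [hz'.1]
        calc dist ((‖z'‖ / ‖z‖) • act Q z) v ≤ dist ((‖z'‖ / ‖z‖) • act Q z) (act Q z) +
              dist (act Q z) v := dist_triangle _ _ _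
          _ < η * ρ + ρ := by linarith
          _ = (1 + η) * ρ := by ring
      rw [Set.indicator_of_mem (show Q ∈ {Q : (unitary (E →L[ℝ] E)) | dist (act Q z) v < ρ} from hQ), hh,
        Set.indicator_of_mem h1]
      exact le_rfl
    · rw [Set.indicator_of_notMem (show Q ∉ {Q : (unitary (E →L[ℝ] E)) | dist (act Q z) v < ρ} from hQ)]
      exact zero_le
  calc (Measure.haar : Measure (unitary (E →L[ℝ] E))) {Q : (unitary (E →L[ℝ] E)) | dist (act Q z) v < ρ} * volume A
      = ∫⁻ _z' in A, (Measure.haar : Measure (unitary (E →L[ℝ] E))) {Q : (unitary (E →L[ℝ] E)) | dist (act Q z) v < ρ} := by rw [setLIntegral_const]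
    _ ≤ ∫⁻ z' in A, ∫⁻ Q, h (act Q z') ∂(Measure.haar : Measure (unitary (E →L[ℝ] E))) := setLIntegral_mono' hAm key
    _ ≤ ∫⁻ z', ∫⁻ Q, h (act Q z') ∂(Measure.haar : Measure (unitary (E →L[ℝ] E))) := setLIntegral_le_lintegral _ _
    _ = ∫⁻ Q, (∫⁻ z', h (act Q z') ∂volume) ∂(Measure.haar : Measure (unitary (E →L[ℝ] E))) := by
        have h3 : Measurable (fun p : (unitary (E →L[ℝ] E)) × E => h (act p.1 p.2)) :=
          hhm.comp act_continuous.measurable
        exact (lintegral_lintegral_swap h3.aemeasurable).symm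
    _ = ∫⁻ _Q : (unitary (E →L[ℝ] E)), volume (ball (0 : E) ((1 + η) * ρ)) ∂(Measure.haar : Measure (unitary (E →L[ℝ] E))) := by
        refine lintegral_congr fun Q => ?_
        have e1 : (fun z' : E => h (act Q z')) =
            (ball (((Q : (unitary (E →L[ℝ] E))) : E →L[ℝ] E) v) ((1 + η) * ρ)).indicator 1 := by
          ext z'
          have h2 : z' ∈ ball (((Q : (unitary (E →L[ℝ] E))) : E →L[ℝ] E) v) ((1 + η) * ρ) ↔
              act Q z' ∈ ball v ((1 + η) * ρ) := by
            have h3 : act Q (((Q : (unitary (E →L[ℝ] E))) : E →L[ℝ] E) v) = v := by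
              have := act_mul Q Q v
              rw [inv_mul_cancel] at this
              rw [← this]
              simp [act]
            rw [mem_ball, mem_ball]
            conv_rhs => rw [← h3]
            rw [act_dist]
          by_cases h4 : act Q z' ∈ ball v ((1 + η) * ρ)
          · rw [hh, Set.indicator_of_mem h4, Set.indicator_of_mem (h2.2 h4)]
            rfl
          · rw [hh, Set.indicator_of_notMem h4, Set.indicator_of_notMem (fun h5 => h4 (h2.1 h5))]
        rw [e1, lintegral_indicator_one measurableSet_ball]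
        rw [Measure.addHaar_ball_center]
    _ = (Measure.haar : Measure (unitary (E →L[ℝ] E))) Set.univ * volume (ball (0 : E) ((1 + η) * ρ)) := by
        rw [lintegral_const, mul_comm]

end

end Pool.Agent.H779.RB
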