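import Mathlib
import Pool.Agent.H779.RB.Rot

/-!
The average over rotations of the interaction of two balls.
-/

set_option autoImplicit false
set_option linter.unusedSectionVars false

open MeasureTheory Filter Topology Metric

open scoped ENNReal

namespace Pool.Agent.H779.RB

open Pool.Agent.Helper843.Haar

attribute [local instance] compactSpace_UG secondCountable_UG measUG borelUG opensUG

section
variable {E : Type*} [NormedAddCommGroup E] [InnerProductSpace ℝ E] [CompleteSpace E]
  [FiniteDimensional ℝ E] [MeasurableSpace E] [BorelSpace E]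


/-- the interaction of two balls -/
noncomputable def inter (g : E → ℝ≥0∞) (x y : E) (ρ : ℝ) : ℝ≥0∞ :=
  ∫⁻ v in ball y ρ, ∫⁻ u in ball x ρ, g (u - v)

theorem inter_eq (g : E → ℝ≥0∞) (x y : E) (ρ : ℝ) :
    inter g x y ρ = ∫⁻ b, (ball (0 : E) ρ).indicator 1 b *
      ∫⁻ w, g w * (ball (x - y) ρ).indicator 1 (w + b) := by
  unfold inter
  rw [← lintegral_indicator measurableSet_ball]
  rw [← lintegral_add_right_eq_self _ y]
  refine lintegral_congr fun b => ?_
  by_cases hb : b ∈ ball (0 : E) ρ
  · have hb' : b + y ∈ ball y ρ := by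
      rw [mem_ball, dist_eq_norm, add_sub_cancel_right]
      exact mem_ball_zero_iff.1 hb
    rw [Set.indicator_of_mem hb', Set.indicator_of_mem hb, Pi.one_apply, one_mul,
      ← lintegral_indicator measurableSet_ball, ← lintegral_add_right_eq_self _ (b + y)]
    refine lintegral_congr fun w => ?_
    have h1 : w + (b + y) ∈ ball x ρ ↔ w + b ∈ ball (x - y) ρ := by
      rw [mem_ball, mem_ball, dist_eq_norm, dist_eq_norm]
      rw [show w + (b + y) - x = w + b - (x - y) by abel]
    by_cases h2 : w + b ∈ ball (x - y) ρ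
    · rw [Set.indicator_of_mem (h1.2 h2), Set.indicator_of_mem h2, add_sub_cancel_right,
        Pi.one_apply, mul_one]
    · rw [Set.indicator_of_notMem (fun h => h2 (h1.1 h)), Set.indicator_of_notMem h2, mul_zero]
  · have hb' : b + y ∉ ball y ρ := by
      rw [mem_ball, dist_eq_norm, add_sub_cancel_right]
      intro h
      exact hb (mem_ball_zero_iff.2 h)
    rw [Set.indicator_of_notMem hb', Set.indicator_of_notMem hb, zero_mul]

theorem meas_abstract {Ω : Type*} [MeasurableSpace Ω] (a : Ω → E)
    (ha : Measurable a) (g : E → ℝ≥0∞) (hg : Measurable g) (ρ : ℝ) :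
    Measurable (fun Q : Ω => (∫⁻ b, (ball (0 : E) ρ).indicator 1 b *
          ∫⁻ w, g w * (ball (a Q) ρ).indicator (1 : E → ℝ≥0∞) (w + b))) := by
  have hind : ∀ (Q : Ω) (c : E), (ball (a Q) ρ).indicator (1 : E → ℝ≥0∞) c =
      {Q : Ω | dist (a Q) c < ρ}.indicator 1 Q := by
    intro Q c
    have h1 : c ∈ ball (a Q) ρ ↔ Q ∈ {Q : Ω | dist (a Q) c < ρ} := by
      rw [mem_ball, Set.mem_ofPred_eq, dist_comm]
    by_cases h2 : c ∈ ball (a Q) ρ
    · rw [Set.indicator_of_mem h2, Set.indicator_of_mem (h1.1 h2)]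
      rfl
    · rw [Set.indicator_of_notMem h2, Set.indicator_of_notMem (fun h => h2 (h1.2 h))]
  have hmeas : Measurable (fun p : Ω × E =>
      (ball (a p.1) ρ).indicator (1 : E → ℝ≥0∞) p.2) := by
    have h1 : MeasurableSet {p : Ω × E | dist (a p.1) p.2 < ρ} :=
      measurableSet_lt ((ha.comp measurable_fst).dist measurable_snd) measurable_const
    have h2 : (fun p : Ω × E => (ball (a p.1) ρ).indicator (1 : E → ℝ≥0∞) p.2) =
        {p : Ω × E | dist (a p.1) p.2 < ρ}.indicator 1 := by
      ext p
      rw [hind]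
      rfl
    rw [h2]
    exact measurable_one.indicator h1
  have hm1 : Measurable (fun p : Ω × E => (ball (0 : E) ρ).indicator (1 : E → ℝ≥0∞) p.2 *
      ∫⁻ w, g w * (ball (a p.1) ρ).indicator 1 (w + p.2)) := by
    refine ((measurable_one.indicator measurableSet_ball).comp measurable_snd).mul ?_
    have h3 : Measurable (fun q : (Ω × E) × E => g q.2 *
        (ball (a q.1.1) ρ).indicator (1 : E → ℝ≥0∞) (q.2 + q.1.2)) := by
      refine (hg.comp measurable_snd).mul ?_
      exact hmeas.comp ((measurable_fst.comp measurable_fst).prodMk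
        (measurable_snd.add (measurable_snd.comp measurable_fst)))
    exact h3.lintegral_prod_right'
  exact hm1.lintegral_prod_right'

theorem avg_abstract {Ω : Type*} [MeasurableSpace Ω] (m : Measure Ω) [SFinite m] (a : Ω → E)
    (ha : Measurable a) (g : E → ℝ≥0∞) (hg : Measurable g) {ρ : ℝ} {α β : ℝ≥0∞}
    (hrot : ∀ v : E, m {Q : Ω | dist (a Q) v < ρ} * α ≤ β) :
    (∫⁻ Q : Ω, (∫⁻ b, (ball (0 : E) ρ).indicator 1 b *
          ∫⁻ w, g w * (ball (a Q) ρ).indicator 1 (w + b)) ∂m) * α ≤
      volume (ball (0 : E) ρ) * ((∫⁻ w, g w) * β) := by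
  have hind : ∀ (Q : Ω) (c : E), (ball (a Q) ρ).indicator (1 : E → ℝ≥0∞) c =
      {Q : Ω | dist (a Q) c < ρ}.indicator 1 Q := by
    intro Q c
    have h1 : c ∈ ball (a Q) ρ ↔ Q ∈ {Q : Ω | dist (a Q) c < ρ} := by
      rw [mem_ball, Set.mem_ofPred_eq, dist_comm]
    by_cases h2 : c ∈ ball (a Q) ρ
    · rw [Set.indicator_of_mem h2, Set.indicator_of_mem (h1.1 h2)]
      rfl
    · rw [Set.indicator_of_notMem h2, Set.indicator_of_notMem (fun h => h2 (h1.2 h))]
  have hmeas : Measurable (fun p : Ω × E =>
      (ball (a p.1) ρ).indicator (1 : E → ℝ≥0∞) p.2) := by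
    have h1 : MeasurableSet {p : Ω × E | dist (a p.1) p.2 < ρ} :=
      measurableSet_lt ((ha.comp measurable_fst).dist measurable_snd) measurable_const
    have h2 : (fun p : Ω × E => (ball (a p.1) ρ).indicator (1 : E → ℝ≥0∞) p.2) =
        {p : Ω × E | dist (a p.1) p.2 < ρ}.indicator 1 := by
      ext p
      rw [hind]
      rfl
    rw [h2]
    exact measurable_one.indicator h1
  have hm1 : Measurable (fun p : Ω × E => (ball (0 : E) ρ).indicator (1 : E → ℝ≥0∞) p.2 *
      ∫⁻ w, g w * (ball (a p.1) ρ).indicator 1 (w + p.2)) := by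
    refine ((measurable_one.indicator measurableSet_ball).comp measurable_snd).mul ?_
    have h3 : Measurable (fun q : (Ω × E) × E => g q.2 *
        (ball (a q.1.1) ρ).indicator (1 : E → ℝ≥0∞) (q.2 + q.1.2)) := by
      refine (hg.comp measurable_snd).mul ?_
      exact hmeas.comp ((measurable_fst.comp measurable_fst).prodMk
        (measurable_snd.add (measurable_snd.comp measurable_fst)))
    exact h3.lintegral_prod_right'
  calc (∫⁻ Q : Ω, (∫⁻ b, (ball (0 : E) ρ).indicator 1 b *
          ∫⁻ w, g w * (ball (a Q) ρ).indicator 1 (w + b)) ∂m) * α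
      = (∫⁻ b, (∫⁻ Q : Ω, (ball (0 : E) ρ).indicator (1 : E → ℝ≥0∞) b *
          (∫⁻ w, g w * (ball (a Q) ρ).indicator 1 (w + b)) ∂m)) * α := by
        rw [lintegral_lintegral_swap hm1.aemeasurable]
    _ = (∫⁻ b, (ball (0 : E) ρ).indicator (1 : E → ℝ≥0∞) b *
          ∫⁻ w, g w * m {Q : Ω | dist (a Q) (w + b) < ρ}) * α := by
        congr 1
        refine lintegral_congr fun b => ?_
        have h3 : Measurable (fun q : Ω × E => g q.2 *
              (ball (a q.1) ρ).indicator (1 : E → ℝ≥0∞) (q.2 + b)) := by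
            refine (hg.comp measurable_snd).mul ?_
            exact hmeas.comp (measurable_fst.prodMk (measurable_snd.add measurable_const))
        rw [lintegral_const_mul _ h3.lintegral_prod_right']
        congr 1
        rw [lintegral_lintegral_swap h3.aemeasurable]
        refine lintegral_congr fun w => ?_
        simp only
        rw [lintegral_const_mul]
        · congr 1
          simp_rw [hind]
          rw [lintegral_indicator_one]
          exact measurableSet_lt (ha.dist measurable_const) measurable_const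
        · exact hmeas.comp (measurable_id.prodMk measurable_const)
    _ = ∫⁻ b, (ball (0 : E) ρ).indicator (1 : E → ℝ≥0∞) b *
          ∫⁻ w, g w * (m {Q : Ω | dist (a Q) (w + b) < ρ} * α) := by
        have hms : Measurable fun c : E => m {Q : Ω | dist (a Q) c < ρ} := by
          have h4 : MeasurableSet {p : E × Ω | dist (a p.2) p.1 < ρ} :=
            measurableSet_lt ((ha.comp measurable_snd).dist measurable_fst) measurable_const
          exact measurable_measure_prodMk_left h4
        rw [← lintegral_mul_const]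
        · refine lintegral_congr fun b => ?_
          rw [mul_assoc, ← lintegral_mul_const]
          · simp_rw [mul_assoc]
          · exact hg.mul (hms.comp (measurable_id.add measurable_const))
        · refine (measurable_one.indicator measurableSet_ball).mul ?_
          have h5 : Measurable (fun q : E × E => g q.2 *
              m {Q : Ω | dist (a Q) (q.2 + q.1) < ρ}) :=
            (hg.comp measurable_snd).mul (hms.comp (measurable_snd.add measurable_fst))
          exact h5.lintegral_prod_right'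
    _ ≤ ∫⁻ b, (ball (0 : E) ρ).indicator (1 : E → ℝ≥0∞) b * ∫⁻ w, g w * β := by
        refine lintegral_mono fun b => ?_
        refine mul_le_mul_right ?_ _
        exact lintegral_mono fun w => mul_le_mul_right (hrot _) _
    _ = volume (ball (0 : E) ρ) * ((∫⁻ w, g w) * β) := by
        rw [lintegral_mul_const _ (measurable_one.indicator measurableSet_ball),
          lintegral_mul_const _ hg, lintegral_indicator_one measurableSet_ball]

theorem rot_inter {k : ℕ} (hn : Module.finrank ℝ E = k + 1) (g : E → ℝ≥0∞) (hg : Measurable g)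
    (x y : E) (hxy : x ≠ y) {ρ η : ℝ} (hρ : 0 < ρ) (hη : 0 < η) :
    (∫⁻ Q : (unitary (E →L[ℝ] E)), inter g (act Q x) (act Q y) ρ ∂(Measure.haar : Measure (unitary (E →L[ℝ] E)))) *
        volume (ball (0 : E) (dist x y + η * ρ) \ ball 0 (dist x y)) ≤
      volume (ball (0 : E) ρ) * ((∫⁻ w, g w) *
        ((Measure.haar : Measure (unitary (E →L[ℝ] E))) Set.univ * volume (ball (0 : E) ((1 + η) * ρ)))) := by
  have h1 := avg_abstract (E := E) (Measure.haar : Measure (unitary (E →L[ℝ] E))) (fun Q : (unitary (E →L[ℝ] E)) => act Q (x - y)) (meas_act (x - y)) g hg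
    (ρ := ρ) (α := volume (ball (0 : E) (dist x y + η * ρ) \ ball 0 (dist x y)))
    (β := (Measure.haar : Measure (unitary (E →L[ℝ] E))) Set.univ * volume (ball (0 : E) ((1 + η) * ρ))) (fun v => by
      have h := rot_ball hn (x - y) v (sub_ne_zero.2 hxy) hρ hη
      rwa [← dist_eq_norm] at h)
  simp_rw [inter_eq, ← act_sub]
  exact h1

end

/-- A rotation invariant average, abstractly. -/
theorem exists_rot (E : Type) [NormedAddCommGroup E] [InnerProductSpace ℝ E] [CompleteSpace E]
    [FiniteDimensional ℝ E] [MeasurableSpace E] [BorelSpace E] {k : ℕ}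
    (hn : Module.finrank ℝ E = k + 1) :
    ∃ (Ω : Type) (_ : MeasurableSpace Ω) (m : Measure Ω) (a : Ω → E → E), m Set.univ ≠ 0 ∧
      m Set.univ ≠ ∞ ∧ (∀ (Q : Ω) (x y : E), dist (a Q x) (a Q y) = dist x y) ∧
      (∀ (Q : Ω) (x : E), ‖a Q x‖ = ‖x‖) ∧
      ∀ (g : E → ℝ≥0∞), Measurable g → ∀ (x y : E) (ρ : ℝ),
        Measurable (fun Q : Ω => inter g (a Q x) (a Q y) ρ) ∧ ∀ η : ℝ, x ≠ y → 0 < ρ → 0 < η →
        (∫⁻ Q : Ω, inter g (a Q x) (a Q y) ρ ∂m) *
        volume (ball (0 : E) (dist x y + η * ρ) \ ball 0 (dist x y)) ≤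
          volume (ball (0 : E) ρ) * ((∫⁻ w, g w) *
            (m Set.univ * volume (ball (0 : E) ((1 + η) * ρ)))) := by
  refine ⟨unitary (E →L[ℝ] E), measUG E, Measure.haar, fun Q x => act Q x, ?_, measure_ne_top _ _,
    fun Q x y => act_dist Q x y, fun Q x => act_norm Q x, fun g hg x y ρ => ⟨?_, ?_⟩⟩
  · have : (Measure.haar : Measure (unitary (E →L[ℝ] E))) ≠ 0 := NeZero.ne _
    exact fun h => this (Measure.measure_univ_eq_zero.1 h)
  · simp_rw [inter_eq, ← act_sub]
    exact meas_abstract _ (meas_act (x - y)) g hg ρ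
  · intro η hxy hρ hη
    exact rot_inter hn g hg x y hxy hρ hη

end Pool.Agent.H779.RB
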