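import Mathlib
import Pool.Graph.R_seed8.TH41.BL.Stm10

/-!
Positive definiteness of the auxiliary functions, tested on finite measures.
-/

set_option autoImplicit false

open MeasureTheory Filter Topology

open scoped FourierTransform ContDiff

namespace Pool.Agent.H779.RB

open Pool.Agent.TH41.BL

variable {n : ℕ}


/-- `f` is the cosine transform of an integrable nonnegative function -/
def CosRep (f : (EuclideanSpace ℝ (Fin n)) → ℝ) : Prop :=
  ∃ w : (EuclideanSpace ℝ (Fin n)) → ℝ, Integrable w ∧ (∀ p, 0 ≤ w p) ∧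
    ∀ x, f x = ∫ p, w p * Real.cos (2 * Real.pi * inner ℝ p x)

theorem cosRep_of_aux {r : ℝ} {f : (EuclideanSpace ℝ (Fin n)) → ℝ} (hf : Aux n r f) : CosRep f := by
  have hI : Integrable (fun x => (f x : ℂ)) := hf.integrable.ofReal
  have hc : Continuous (fun x => (f x : ℂ)) := Complex.continuous_ofReal.comp hf.continuous
  have hinv := hc.fourierInv_fourier_eq hI hf.integrable_fourier
  refine ⟨fun p => (𝓕 (fun x => (f x : ℂ)) p).re, hf.integrable_fourier.re, hf.fourier_nonneg,
    fun x => ?_⟩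
  have h1 := congrFun hinv x
  rw [Real.fourierInv_eq'] at h1
  have h2 : (f x : ℂ).re = (∫ v, Complex.exp (((2 * Real.pi * inner ℝ v x : ℝ) : ℂ) * Complex.I) •
      𝓕 (fun x => (f x : ℂ)) v).re := by
    rw [h1]
  rw [Complex.ofReal_re] at h2
  rw [h2]
  have h3 : Integrable (fun v : (EuclideanSpace ℝ (Fin n)) => Complex.exp (((2 * Real.pi * inner ℝ v x : ℝ) : ℂ) *
      Complex.I) • 𝓕 (fun x => (f x : ℂ)) v) := by
    refine hf.integrable_fourier.norm.mono' ?_ (Eventually.of_forall fun v => ?_)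
    · have hce : Continuous fun v : (EuclideanSpace ℝ (Fin n)) => Complex.exp (((2 * Real.pi * inner ℝ v x : ℝ) : ℂ)
        * Complex.I) := by fun_prop
      exact AEStronglyMeasurable.smul (𝕜 := ℂ) hce.aestronglyMeasurable
        hf.integrable_fourier.aestronglyMeasurable
    · rw [norm_smul, Complex.norm_exp_ofReal_mul_I, one_mul]
  have h4 := integral_re h3
  have h5 : (∫ v, Complex.exp (((2 * Real.pi * inner ℝ v x : ℝ) : ℂ) * Complex.I) •
      𝓕 (fun x => (f x : ℂ)) v).re = ∫ v, (Complex.exp (((2 * Real.pi * inner ℝ v x : ℝ) : ℂ) *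
      Complex.I) • 𝓕 (fun x => (f x : ℂ)) v).re := h4.symm
  rw [h5]
  refine integral_congr_ae (Eventually.of_forall fun v => ?_)
  simp only [smul_eq_mul, Complex.mul_re, Complex.exp_ofReal_mul_I_re, Complex.exp_ofReal_mul_I_im]
  rw [hf.fourier_real v]
  ring

/-- cosine transform of a measure -/
noncomputable def cM (a : Measure (EuclideanSpace ℝ (Fin n))) (p : (EuclideanSpace ℝ (Fin n))) : ℝ := ∫ x, Real.cos (2 * Real.pi * inner ℝ p x) ∂a

/-- sine transform of a measure -/
noncomputable def sM (a : Measure (EuclideanSpace ℝ (Fin n))) (p : (EuclideanSpace ℝ (Fin n))) : ℝ := ∫ x, Real.sin (2 * Real.pi * inner ℝ p x) ∂a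

theorem abs_cM_le (a : Measure (EuclideanSpace ℝ (Fin n))) [IsFiniteMeasure a] (p : (EuclideanSpace ℝ (Fin n))) : |cM a p| ≤ a.real Set.univ := by
  unfold cM
  have h := norm_integral_le_of_norm_le_const (μ := a)
    (f := fun x : (EuclideanSpace ℝ (Fin n)) => Real.cos (2 * Real.pi * inner ℝ p x)) (C := 1)
    (Eventually.of_forall fun x => Real.abs_cos_le_one _)
  rw [one_mul] at h
  exact h

theorem abs_sM_le (a : Measure (EuclideanSpace ℝ (Fin n))) [IsFiniteMeasure a] (p : (EuclideanSpace ℝ (Fin n))) : |sM a p| ≤ a.real Set.univ := by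
  unfold sM
  have h := norm_integral_le_of_norm_le_const (μ := a)
    (f := fun x : (EuclideanSpace ℝ (Fin n)) => Real.sin (2 * Real.pi * inner ℝ p x)) (C := 1)
    (Eventually.of_forall fun x => Real.abs_sin_le_one _)
  rw [one_mul] at h
  exact h

theorem pair_eq {f : (EuclideanSpace ℝ (Fin n)) → ℝ} {w : (EuclideanSpace ℝ (Fin n)) → ℝ} (hw : Integrable w)
    (hf : ∀ x, f x = ∫ p, w p * Real.cos (2 * Real.pi * inner ℝ p x))
    (a b : Measure (EuclideanSpace ℝ (Fin n))) [IsFiniteMeasure a] [IsFiniteMeasure b] :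
    ∫ x, ∫ y, f (x - y) ∂b ∂a = ∫ p, w p * (cM a p * cM b p + sM a p * sM b p) := by
  have hF : Integrable (fun z : ((EuclideanSpace ℝ (Fin n)) × (EuclideanSpace ℝ (Fin n))) × (EuclideanSpace ℝ (Fin n)) =>
      w z.2 * Real.cos (2 * Real.pi * inner ℝ z.2 (z.1.1 - z.1.2))) ((a.prod b).prod volume) := by
    have h1 : Integrable (fun z : ((EuclideanSpace ℝ (Fin n)) × (EuclideanSpace ℝ (Fin n))) × (EuclideanSpace ℝ (Fin n)) => w z.2) ((a.prod b).prod volume) :=
      hw.comp_snd (a.prod b)
    refine h1.norm.mono' ?_ (Eventually.of_forall fun z => ?_)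
    · refine h1.aestronglyMeasurable.mul ?_
      exact (by fun_prop : Continuous fun z : ((EuclideanSpace ℝ (Fin n)) × (EuclideanSpace ℝ (Fin n))) × (EuclideanSpace ℝ (Fin n)) =>
        Real.cos (2 * Real.pi * inner ℝ z.2 (z.1.1 - z.1.2))).aestronglyMeasurable
    · rw [norm_mul]
      exact mul_le_of_le_one_right (norm_nonneg _) (Real.abs_cos_le_one _)
  have h1 : ∫ x, ∫ y, f (x - y) ∂b ∂a = ∫ z : (EuclideanSpace ℝ (Fin n)) × (EuclideanSpace ℝ (Fin n)), f (z.1 - z.2) ∂(a.prod b) := by
    rw [integral_prod]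
    have h2 := hF.integral_prod_left
    refine h2.congr (Eventually.of_forall fun z => ?_)
    simp only
    rw [← hf]
  rw [h1]
  have h2 : ∫ z : (EuclideanSpace ℝ (Fin n)) × (EuclideanSpace ℝ (Fin n)), f (z.1 - z.2) ∂(a.prod b) =
      ∫ z : (EuclideanSpace ℝ (Fin n)) × (EuclideanSpace ℝ (Fin n)), (∫ p, w p * Real.cos (2 * Real.pi * inner ℝ p (z.1 - z.2))) ∂(a.prod b) :=
    integral_congr_ae (Eventually.of_forall fun z => hf _)
  rw [h2, integral_integral_swap hF]
  refine integral_congr_ae (Eventually.of_forall fun p => ?_)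
  simp only
  rw [integral_const_mul]
  congr 1
  have hca : Integrable (fun x : (EuclideanSpace ℝ (Fin n)) => Real.cos (2 * Real.pi * inner ℝ p x)) a :=
    (integrable_const (1 : ℝ)).mono' (by fun_prop : Continuous fun x : (EuclideanSpace ℝ (Fin n)) =>
      Real.cos (2 * Real.pi * inner ℝ p x)).aestronglyMeasurable
      (Eventually.of_forall fun x => Real.abs_cos_le_one _)
  have hsa : Integrable (fun x : (EuclideanSpace ℝ (Fin n)) => Real.sin (2 * Real.pi * inner ℝ p x)) a :=
    (integrable_const (1 : ℝ)).mono' (by fun_prop : Continuous fun x : (EuclideanSpace ℝ (Fin n)) =>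
      Real.sin (2 * Real.pi * inner ℝ p x)).aestronglyMeasurable
      (Eventually.of_forall fun x => Real.abs_sin_le_one _)
  have hcb : Integrable (fun x : (EuclideanSpace ℝ (Fin n)) => Real.cos (2 * Real.pi * inner ℝ p x)) b :=
    (integrable_const (1 : ℝ)).mono' (by fun_prop : Continuous fun x : (EuclideanSpace ℝ (Fin n)) =>
      Real.cos (2 * Real.pi * inner ℝ p x)).aestronglyMeasurable
      (Eventually.of_forall fun x => Real.abs_cos_le_one _)
  have hsb : Integrable (fun x : (EuclideanSpace ℝ (Fin n)) => Real.sin (2 * Real.pi * inner ℝ p x)) b :=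
    (integrable_const (1 : ℝ)).mono' (by fun_prop : Continuous fun x : (EuclideanSpace ℝ (Fin n)) =>
      Real.sin (2 * Real.pi * inner ℝ p x)).aestronglyMeasurable
      (Eventually.of_forall fun x => Real.abs_sin_le_one _)
  have h3 : (fun z : (EuclideanSpace ℝ (Fin n)) × (EuclideanSpace ℝ (Fin n)) => Real.cos (2 * Real.pi * inner ℝ p (z.1 - z.2))) = fun z : (EuclideanSpace ℝ (Fin n)) × (EuclideanSpace ℝ (Fin n)) =>
      Real.cos (2 * Real.pi * inner ℝ p z.1) * Real.cos (2 * Real.pi * inner ℝ p z.2) +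
      Real.sin (2 * Real.pi * inner ℝ p z.1) * Real.sin (2 * Real.pi * inner ℝ p z.2) := by
    ext z
    rw [inner_sub_right, mul_sub, Real.cos_sub]
  rw [h3, integral_add (hca.mul_prod hcb) (hsa.mul_prod hsb)]
  have e1 := integral_prod_mul (μ := a) (ν := b)
    (fun x : (EuclideanSpace ℝ (Fin n)) => Real.cos (2 * Real.pi * inner ℝ p x))
    (fun x : (EuclideanSpace ℝ (Fin n)) => Real.cos (2 * Real.pi * inner ℝ p x))
  have e2 := integral_prod_mul (μ := a) (ν := b)
    (fun x : (EuclideanSpace ℝ (Fin n)) => Real.sin (2 * Real.pi * inner ℝ p x))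
    (fun x : (EuclideanSpace ℝ (Fin n)) => Real.sin (2 * Real.pi * inner ℝ p x))
  exact congrArg₂ (· + ·) e1 e2

/-- positive definiteness, tested on the difference of two finite measures -/
theorem CosRep.two_mul_le {f : (EuclideanSpace ℝ (Fin n)) → ℝ} (hf : CosRep f) (a b : Measure (EuclideanSpace ℝ (Fin n))) [IsFiniteMeasure a]
    [IsFiniteMeasure b] :
    2 * ∫ x, ∫ y, f (x - y) ∂b ∂a ≤ ∫ x, ∫ y, f (x - y) ∂a ∂a + ∫ x, ∫ y, f (x - y) ∂b ∂b := by
  obtain ⟨w, hw, hw0, hfw⟩ := hf
  rw [pair_eq hw hfw, pair_eq hw hfw, pair_eq hw hfw, ← integral_const_mul]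
  have hmc : ∀ (m : Measure (EuclideanSpace ℝ (Fin n))) [IsFiniteMeasure m], AEStronglyMeasurable (cM m) := fun m _ => by
    have hm : Continuous fun z : (EuclideanSpace ℝ (Fin n)) × (EuclideanSpace ℝ (Fin n)) => Real.cos (2 * Real.pi * inner ℝ z.1 z.2) := by fun_prop
    have : AEStronglyMeasurable (fun z : (EuclideanSpace ℝ (Fin n)) × (EuclideanSpace ℝ (Fin n)) => Real.cos (2 * Real.pi * inner ℝ z.1 z.2))
      (volume.prod m) := hm.aestronglyMeasurable
    exact this.integral_prod_right'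
  have hms : ∀ (m : Measure (EuclideanSpace ℝ (Fin n))) [IsFiniteMeasure m], AEStronglyMeasurable (sM m) := fun m _ => by
    have hm : Continuous fun z : (EuclideanSpace ℝ (Fin n)) × (EuclideanSpace ℝ (Fin n)) => Real.sin (2 * Real.pi * inner ℝ z.1 z.2) := by fun_prop
    have : AEStronglyMeasurable (fun z : (EuclideanSpace ℝ (Fin n)) × (EuclideanSpace ℝ (Fin n)) => Real.sin (2 * Real.pi * inner ℝ z.1 z.2))
      (volume.prod m) := hm.aestronglyMeasurable
    exact this.integral_prod_right'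
  have hint : ∀ (a b : Measure (EuclideanSpace ℝ (Fin n))) [IsFiniteMeasure a] [IsFiniteMeasure b],
      Integrable (fun p => w p * (cM a p * cM b p + sM a p * sM b p)) := fun a b _ _ => by
    have h1 : Integrable (fun p => |w p| * (a.real Set.univ * b.real Set.univ +
      a.real Set.univ * b.real Set.univ)) := hw.abs.mul_const _
    refine h1.mono' ?_ (Eventually.of_forall fun p => ?_)
    · exact hw.aestronglyMeasurable.mul (((hmc a).mul (hmc b)).add ((hms a).mul (hms b)))
    · rw [Real.norm_eq_abs, abs_mul]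
      refine mul_le_mul_of_nonneg_left ?_ (abs_nonneg _)
      refine (abs_add_le _ _).trans ?_
      rw [abs_mul, abs_mul]
      exact add_le_add (mul_le_mul (abs_cM_le a p) (abs_cM_le b p) (abs_nonneg _)
        measureReal_nonneg) (mul_le_mul (abs_sM_le a p) (abs_sM_le b p) (abs_nonneg _)
        measureReal_nonneg)
  rw [← integral_add (hint a a) (hint b b)]
  refine integral_mono ((hint a b).const_mul 2) ((hint a a).add (hint b b)) fun p => ?_
  simp only
  have h1 := hw0 p
  nlinarith [mul_nonneg h1 (sq_nonneg (cM a p - cM b p)), mul_nonneg h1 (sq_nonneg (sM a p - sM b p))]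

theorem CosRep.le_zero {f : (EuclideanSpace ℝ (Fin n)) → ℝ} (hf : CosRep f) (x : (EuclideanSpace ℝ (Fin n))) : f x ≤ f 0 := by
  obtain ⟨w, hw, hw0, hfw⟩ := hf
  rw [hfw x, hfw 0]
  have hint : ∀ x : (EuclideanSpace ℝ (Fin n)), Integrable (fun p : (EuclideanSpace ℝ (Fin n)) => w p * Real.cos (2 * Real.pi * inner ℝ p x)) :=
    fun x => by
    refine hw.norm.mono' ?_ (Eventually.of_forall fun p => ?_)
    · exact hw.aestronglyMeasurable.mul (by fun_prop : Continuous fun p : (EuclideanSpace ℝ (Fin n)) =>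
        Real.cos (2 * Real.pi * inner ℝ p x)).aestronglyMeasurable
    · rw [norm_mul]
      exact mul_le_of_le_one_right (norm_nonneg _) (Real.abs_cos_le_one _)
  refine integral_mono (hint x) (hint 0) fun p => ?_
  simp only [inner_zero_right, mul_zero, Real.cos_zero, mul_one]
  exact mul_le_of_le_one_right (hw0 p) (Real.cos_le_one _)

theorem CosRep.even {f : (EuclideanSpace ℝ (Fin n)) → ℝ} (hf : CosRep f) (x : (EuclideanSpace ℝ (Fin n))) : f (-x) = f x := by
  obtain ⟨w, hw, hw0, hfw⟩ := hf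
  rw [hfw x, hfw (-x)]
  simp [inner_neg_right]

end Pool.Agent.H779.RB
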