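import Mathlib
import Pool.Agent.H779.RB.PD
import Pool.Agent.H779.RB.Avg

/-!
The positive definiteness inequality for a finite set of balls and a uniform background.
-/

set_option autoImplicit false
set_option linter.unusedSectionVars false

open MeasureTheory Filter Topology Metric

open scoped ENNReal NNReal

namespace Pool.Agent.H779.RB

variable {n : ℕ}


/-- the interaction of two balls, real form -/
noncomputable def pr (f : (EuclideanSpace ℝ (Fin n)) → ℝ) (x y : (EuclideanSpace ℝ (Fin n))) (ρ : ℝ) : ℝ :=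
  ∫ u in ball x ρ, ∫ v in ball y ρ, f (u - v)

instance restr_fin (x : (EuclideanSpace ℝ (Fin n))) (ρ : ℝ) : IsFiniteMeasure (volume.restrict (ball x ρ)) :=
  ⟨by rw [Measure.restrict_apply_univ]; exact measure_ball_lt_top⟩

theorem int_sub {f : (EuclideanSpace ℝ (Fin n)) → ℝ} (hc : Continuous f) (hcs : HasCompactSupport f) (μ : Measure (EuclideanSpace ℝ (Fin n)))
    [IsFiniteMeasure μ] (u : (EuclideanSpace ℝ (Fin n))) : Integrable (fun v => f (u - v)) μ := by
  obtain ⟨C, hC⟩ := hcs.exists_bound_of_continuous hc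
  refine (integrable_const C).mono' ?_ (Eventually.of_forall fun v => hC _)
  exact (hc.comp (continuous_const.sub continuous_id)).aestronglyMeasurable

theorem int_int_sub {f : (EuclideanSpace ℝ (Fin n)) → ℝ} (hc : Continuous f) (hcs : HasCompactSupport f) (μ ν : Measure (EuclideanSpace ℝ (Fin n)))
    [IsFiniteMeasure μ] [IsFiniteMeasure ν] : Integrable (fun u => ∫ v, f (u - v) ∂ν) μ := by
  obtain ⟨C, hC⟩ := hcs.exists_bound_of_continuous hc
  have h1 : Integrable (fun z : (EuclideanSpace ℝ (Fin n)) × (EuclideanSpace ℝ (Fin n)) => f (z.1 - z.2)) (μ.prod ν) := by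
    refine (integrable_const C).mono' ?_ (Eventually.of_forall fun v => hC _)
    exact (hc.comp (continuous_fst.sub continuous_snd)).aestronglyMeasurable
  exact h1.integral_prod_left

theorem pr_le_diag {f : (EuclideanSpace ℝ (Fin n)) → ℝ} (hc : Continuous f) (hcs : HasCompactSupport f) {C : ℝ}
    (hC : ∀ z, f z ≤ C) (x y : (EuclideanSpace ℝ (Fin n))) (ρ : ℝ) :
    pr f x y ρ ≤ volume.real (ball (0 : (EuclideanSpace ℝ (Fin n))) ρ) ^ 2 * C := by
  unfold pr
  have h1 : ∀ u : (EuclideanSpace ℝ (Fin n)), ∫ v in ball y ρ, f (u - v) ≤ volume.real (ball (0 : (EuclideanSpace ℝ (Fin n))) ρ) * C := by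
    intro u
    have h2 : ∫ v in ball y ρ, f (u - v) ≤ ∫ _v in ball y ρ, C :=
      integral_mono (int_sub hc hcs _ u) (integrable_const _) fun v => hC _
    rw [setIntegral_const, smul_eq_mul, measureReal_def, Measure.addHaar_ball_center,
      ← measureReal_def] at h2
    exact h2
  have h3 : ∫ u in ball x ρ, ∫ v in ball y ρ, f (u - v) ≤
      ∫ _u in ball x ρ, volume.real (ball (0 : (EuclideanSpace ℝ (Fin n))) ρ) * C :=
    integral_mono (int_int_sub hc hcs _ _) (integrable_const _) fun u => h1 u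
  rw [setIntegral_const, smul_eq_mul, measureReal_def (μ := volume) (s := ball x ρ),
    Measure.addHaar_ball_center, ← measureReal_def] at h3
  refine h3.trans (le_of_eq ?_)
  ring

theorem pr_nonpos {f : (EuclideanSpace ℝ (Fin n)) → ℝ} {r : ℝ} (hr : ∀ z, r ≤ ‖z‖ → f z ≤ 0) (x y : (EuclideanSpace ℝ (Fin n))) (ρ : ℝ)
    (hxy : r + 2 * ρ ≤ dist x y) : pr f x y ρ ≤ 0 := by
  unfold pr
  refine setIntegral_nonpos measurableSet_ball fun u hu => ?_
  refine setIntegral_nonpos measurableSet_ball fun v hv => ?_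
  refine hr _ ?_
  rw [mem_ball] at hu hv
  rw [← dist_eq_norm]
  have h1 : dist x y ≤ dist x u + dist u v + dist v y := by
    have h2 := dist_triangle x u y
    have h3 := dist_triangle u v y
    linarith
  rw [dist_comm x u] at h1
  linarith

theorem pr_le_inter {f G : (EuclideanSpace ℝ (Fin n)) → ℝ} (hc : Continuous f) (hcs : HasCompactSupport f)
    (hGc : Continuous G) (hGs : HasCompactSupport G) (hG0 : ∀ z, 0 ≤ G z) (hfG : ∀ z, f z ≤ G z)
    (hev : ∀ z, f (-z) = f z) (x y : (EuclideanSpace ℝ (Fin n))) (ρ : ℝ) :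
    pr f x y ρ ≤ (inter (fun z => ENNReal.ofReal (G z)) y x ρ).toReal := by
  unfold pr inter
  have h1 : ∫ u in ball x ρ, ∫ v in ball y ρ, f (u - v) ≤
      ∫ u in ball x ρ, ∫ v in ball y ρ, G (v - u) := by
    have e : ∀ u v : (EuclideanSpace ℝ (Fin n)), G (v - u) = (fun z => G (-z)) (u - v) := fun u v => by simp
    simp_rw [e]
    have hGc' : Continuous fun z : (EuclideanSpace ℝ (Fin n)) => G (-z) := hGc.comp continuous_neg
    have hGs' : HasCompactSupport fun z : (EuclideanSpace ℝ (Fin n)) => G (-z) := hGs.comp_homeomorph (Homeomorph.neg (EuclideanSpace ℝ (Fin n)))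
    refine integral_mono (int_int_sub hc hcs _ _) (int_int_sub hGc' hGs' _ _) fun u => ?_
    refine integral_mono (int_sub hc hcs _ u) (int_sub hGc' hGs' _ u) fun v => ?_
    simp only
    rw [← hev]
    exact hfG _
  refine h1.trans (le_of_eq ?_)
  have e : ∀ u v : (EuclideanSpace ℝ (Fin n)), G (v - u) = (fun z => G (-z)) (u - v) := fun u v => by simp
  have hGc' : Continuous fun z : (EuclideanSpace ℝ (Fin n)) => G (-z) := hGc.comp continuous_neg
  have hGs' : HasCompactSupport fun z : (EuclideanSpace ℝ (Fin n)) => G (-z) := hGs.comp_homeomorph (Homeomorph.neg (EuclideanSpace ℝ (Fin n)))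
  have h2 : ∀ u : (EuclideanSpace ℝ (Fin n)), ENNReal.ofReal (∫ v in ball y ρ, G (v - u)) =
      ∫⁻ v in ball y ρ, ENNReal.ofReal (G (v - u)) := by
    intro u
    rw [ofReal_integral_eq_lintegral_ofReal]
    · simp_rw [e]
      exact int_sub hGc' hGs' _ u
    · exact Eventually.of_forall fun v => hG0 _
  have h3 : ENNReal.ofReal (∫ u in ball x ρ, ∫ v in ball y ρ, G (v - u)) =
      ∫⁻ u in ball x ρ, ∫⁻ v in ball y ρ, ENNReal.ofReal (G (v - u)) := by
    rw [ofReal_integral_eq_lintegral_ofReal]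
    · simp_rw [h2]
    · simp_rw [e]
      exact int_int_sub hGc' hGs' _ _
    · exact Eventually.of_forall fun u => integral_nonneg fun v => hG0 _
  rw [← h3, ENNReal.toReal_ofReal]
  exact integral_nonneg fun u => integral_nonneg fun v => hG0 _

theorem inter_lt_top {G : (EuclideanSpace ℝ (Fin n)) → ℝ} (hGc : Continuous G) (hGs : HasCompactSupport G) (x y : (EuclideanSpace ℝ (Fin n)))
    (ρ : ℝ) : inter (fun z => ENNReal.ofReal (G z)) x y ρ < ∞ := by
  obtain ⟨C, hC⟩ := hGs.exists_bound_of_continuous hGc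
  unfold inter
  calc ∫⁻ v in ball y ρ, ∫⁻ u in ball x ρ, ENNReal.ofReal (G (u - v))
      ≤ ∫⁻ _v in ball y ρ, ∫⁻ _u in ball x ρ, ENNReal.ofReal C := by
        refine lintegral_mono fun v => lintegral_mono fun u => ENNReal.ofReal_le_ofReal ?_
        exact (le_abs_self _).trans (hC _)
    _ < ∞ := by
        rw [setLIntegral_const, setLIntegral_const]
        exact ENNReal.mul_lt_top (ENNReal.mul_lt_top ENNReal.ofReal_lt_top measure_ball_lt_top)
          measure_ball_lt_top

/-- the measure of the balls -/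
noncomputable def bm (P : Finset (EuclideanSpace ℝ (Fin n))) (φ : (EuclideanSpace ℝ (Fin n)) → (EuclideanSpace ℝ (Fin n))) (ρ : ℝ) : Measure (EuclideanSpace ℝ (Fin n)) :=
  ∑ x ∈ P, volume.restrict (ball (φ x) ρ)

instance bm_fin (P : Finset (EuclideanSpace ℝ (Fin n))) (φ : (EuclideanSpace ℝ (Fin n)) → (EuclideanSpace ℝ (Fin n))) (ρ : ℝ) : IsFiniteMeasure (bm P φ ρ) := by
  unfold bm
  infer_instance

theorem int_bm (P : Finset (EuclideanSpace ℝ (Fin n))) (φ : (EuclideanSpace ℝ (Fin n)) → (EuclideanSpace ℝ (Fin n))) (ρ : ℝ) {h : (EuclideanSpace ℝ (Fin n)) → ℝ}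
    (hh : ∀ μ : Measure (EuclideanSpace ℝ (Fin n)), IsFiniteMeasure μ → Integrable h μ) :
    ∫ u, h u ∂(bm P φ ρ) = ∑ x ∈ P, ∫ u in ball (φ x) ρ, h u := by
  unfold bm
  rw [integral_finsetSum_measure]
  intro x _
  exact hh _ inferInstance

theorem int_bm_bm {f : (EuclideanSpace ℝ (Fin n)) → ℝ} (hc : Continuous f) (hcs : HasCompactSupport f) (P : Finset (EuclideanSpace ℝ (Fin n)))
    (φ : (EuclideanSpace ℝ (Fin n)) → (EuclideanSpace ℝ (Fin n))) (ρ : ℝ) : ∫ u, ∫ v, f (u - v) ∂(bm P φ ρ) ∂(bm P φ ρ) =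
      ∑ x ∈ P, ∑ y ∈ P, pr f (φ x) (φ y) ρ := by
  rw [int_bm P φ ρ (fun μ _ => int_int_sub hc hcs μ _)]
  refine Finset.sum_congr rfl fun x _ => ?_
  unfold pr
  have h1 : ∀ u : (EuclideanSpace ℝ (Fin n)), ∫ v, f (u - v) ∂(bm P φ ρ) = ∑ y ∈ P, ∫ v in ball (φ y) ρ, f (u - v) :=
    fun u => int_bm P φ ρ (fun μ _ => int_sub hc hcs μ u)
  simp_rw [h1]
  rw [integral_finsetSum]
  intro y _
  exact int_int_sub hc hcs _ _

/-- background and balls -/
theorem int_back {f : (EuclideanSpace ℝ (Fin n)) → ℝ} {L T T' ρ : ℝ} (hL : ∀ z, L ≤ ‖z‖ → f z = 0)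
    (hT' : T + ρ + L ≤ T') (P : Finset (EuclideanSpace ℝ (Fin n))) (φ : (EuclideanSpace ℝ (Fin n)) → (EuclideanSpace ℝ (Fin n))) (hφ : ∀ x ∈ P, ‖φ x‖ < T)
    (hc : Continuous f) (hcs : HasCompactSupport f) :
    ∫ u, (∫ v in ball (0 : (EuclideanSpace ℝ (Fin n))) T', f (u - v)) ∂(bm P φ ρ) =
      P.card * (volume.real (ball (0 : (EuclideanSpace ℝ (Fin n))) ρ) * ∫ z, f z) := by
  rw [int_bm P φ ρ (fun μ _ => int_int_sub hc hcs μ _)]
  have h1 : ∀ x ∈ P, ∫ u in ball (φ x) ρ, ∫ v in ball (0 : (EuclideanSpace ℝ (Fin n))) T', f (u - v) =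
      volume.real (ball (0 : (EuclideanSpace ℝ (Fin n))) ρ) * ∫ z, f z := by
    intro x hx
    have h2 : ∀ u ∈ ball (φ x) ρ, ∫ v in ball (0 : (EuclideanSpace ℝ (Fin n))) T', f (u - v) = ∫ z, f z := by
      intro u hu
      rw [setIntegral_eq_integral_of_forall_compl_eq_zero, integral_sub_left_eq_self]
      intro v hv
      refine hL _ ?_
      rw [mem_ball_zero_iff, not_lt] at hv
      rw [mem_ball, dist_eq_norm] at hu
      have h3 := hφ x hx
      have h4 : ‖u‖ ≤ ‖u - φ x‖ + ‖φ x‖ := by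
        have := norm_add_le (u - φ x) (φ x)
        rwa [sub_add_cancel] at this
      have h5 : ‖v‖ - ‖u‖ ≤ ‖u - v‖ := by
        rw [norm_sub_rev]
        exact norm_sub_norm_le _ _
      linarith
    rw [setIntegral_congr_fun measurableSet_ball h2, setIntegral_const, smul_eq_mul,
      measureReal_def, Measure.addHaar_ball_center, ← measureReal_def]
  rw [Finset.sum_congr rfl h1, Finset.sum_const, nsmul_eq_mul]

/-- the energy of the background -/
theorem back_back {f : (EuclideanSpace ℝ (Fin n)) → ℝ} {L T' : ℝ} (hL0 : 0 < L) (hL : ∀ z, L ≤ ‖z‖ → f z = 0)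
    (hc : Continuous f) (hcs : HasCompactSupport f) :
    ∫ u in ball (0 : (EuclideanSpace ℝ (Fin n))) T', ∫ v in ball (0 : (EuclideanSpace ℝ (Fin n))) T', f (u - v) ≤
      volume.real (ball (0 : (EuclideanSpace ℝ (Fin n))) T') * (∫ z, f z) +
        volume.real (ball (0 : (EuclideanSpace ℝ (Fin n))) T' \ ball 0 (T' - L)) * (2 * ∫ z, |f z|) := by
  have hfi : Integrable f := hc.integrable_of_hasCompactSupport hcs
  have hI : |∫ z, f z| ≤ ∫ z, |f z| := abs_integral_le_integral_abs
  have hJ : 0 ≤ ∫ z, |f z| := integral_nonneg fun z => abs_nonneg _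
  have h1 : ∀ u ∈ ball (0 : (EuclideanSpace ℝ (Fin n))) T', ∫ v in ball (0 : (EuclideanSpace ℝ (Fin n))) T', f (u - v) ≤ (∫ z, f z) +
      (ball (0 : (EuclideanSpace ℝ (Fin n))) T' \ ball 0 (T' - L)).indicator (fun _ => 2 * ∫ z, |f z|) u := by
    intro u hu
    by_cases hu2 : u ∈ ball (0 : (EuclideanSpace ℝ (Fin n))) (T' - L)
    · rw [Set.indicator_of_notMem (fun h => h.2 hu2), add_zero,
        setIntegral_eq_integral_of_forall_compl_eq_zero, integral_sub_left_eq_self]
      intro v hv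
      refine hL _ ?_
      rw [mem_ball_zero_iff, not_lt] at hv
      rw [mem_ball_zero_iff] at hu2
      have h5 : ‖v‖ - ‖u‖ ≤ ‖u - v‖ := by
        rw [norm_sub_rev]
        exact norm_sub_norm_le _ _
      linarith
    · rw [Set.indicator_of_mem (show u ∈ ball (0 : (EuclideanSpace ℝ (Fin n))) T' \ ball 0 (T' - L) from ⟨hu, hu2⟩)]
      have h2 : ∫ v in ball (0 : (EuclideanSpace ℝ (Fin n))) T', f (u - v) ≤ ∫ v in ball (0 : (EuclideanSpace ℝ (Fin n))) T', |f (u - v)| :=
        (le_abs_self _).trans abs_integral_le_integral_abs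
      have h3 : ∫ v in ball (0 : (EuclideanSpace ℝ (Fin n))) T', |f (u - v)| ≤ ∫ v, |f (u - v)| :=
        setIntegral_le_integral (hfi.comp_sub_left u).abs (Eventually.of_forall fun v => abs_nonneg _)
      have h4 : ∫ v, |f (u - v)| = ∫ z, |f z| := integral_sub_left_eq_self (fun z => |f z|) _ u
      have h5 := (abs_le.1 hI).1
      linarith
  have h2 : ∫ u in ball (0 : (EuclideanSpace ℝ (Fin n))) T', ∫ v in ball (0 : (EuclideanSpace ℝ (Fin n))) T', f (u - v) ≤
      ∫ u in ball (0 : (EuclideanSpace ℝ (Fin n))) T', ((∫ z, f z) +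
      (ball (0 : (EuclideanSpace ℝ (Fin n))) T' \ ball 0 (T' - L)).indicator (fun _ => 2 * ∫ z, |f z|) u) := by
    refine setIntegral_mono_on (int_int_sub hc hcs _ _) ?_ measurableSet_ball h1
    exact (integrable_const _).add ((integrable_const _).indicator
      (measurableSet_ball.diff measurableSet_ball))
  refine h2.trans (le_of_eq ?_)
  rw [integral_add (integrable_const _) ((integrable_const _).indicator
      (measurableSet_ball.diff measurableSet_ball)), setIntegral_const, smul_eq_mul,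
    integral_indicator (measurableSet_ball.diff measurableSet_ball),
    Measure.restrict_restrict (measurableSet_ball.diff measurableSet_ball), setIntegral_const,
    smul_eq_mul]
  congr 2
  rw [Set.inter_eq_left.2 Set.sdiff_subset]

/-- **The inequality for a finite set.** -/
theorem fin_ineq {f : (EuclideanSpace ℝ (Fin n)) → ℝ} (hf : CosRep f) (hc : Continuous f) (hcs : HasCompactSupport f)
    {L T T' ρ : ℝ} (hL0 : 0 < L) (hL : ∀ z, L ≤ ‖z‖ → f z = 0) (hT' : T + ρ + L ≤ T')
    (P : Finset (EuclideanSpace ℝ (Fin n))) (φ : (EuclideanSpace ℝ (Fin n)) → (EuclideanSpace ℝ (Fin n))) (hφ : ∀ x ∈ P, ‖φ x‖ < T) (c : ℝ≥0) :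
    2 * (c * (P.card * (volume.real (ball (0 : (EuclideanSpace ℝ (Fin n))) ρ) * ∫ z, f z))) ≤
      ∑ x ∈ P, ∑ y ∈ P, pr f (φ x) (φ y) ρ + c ^ 2 * (volume.real (ball (0 : (EuclideanSpace ℝ (Fin n))) T') * (∫ z, f z) +
        volume.real (ball (0 : (EuclideanSpace ℝ (Fin n))) T' \ ball 0 (T' - L)) * (2 * ∫ z, |f z|)) := by
  have h := hf.two_mul_le (bm P φ ρ) (c • volume.restrict (ball (0 : (EuclideanSpace ℝ (Fin n))) T'))
  rw [int_bm_bm hc hcs] at h
  simp only [integral_smul_nnreal_measure, NNReal.smul_def, smul_eq_mul, integral_const_mul] at h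
  rw [int_back hL hT' P φ hφ hc hcs] at h
  have h2 := back_back (T' := T') hL0 hL hc hcs
  refine h.trans ?_
  refine add_le_add_right ?_ _
  rw [← mul_assoc, ← sq]
  exact mul_le_mul_of_nonneg_left h2 (sq_nonneg _)

end Pool.Agent.H779.RB
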