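import Mathlib
import Pool.Agent.H779.RB.Fin1

/-!
The inequality for a finite set, averaged over rotations.
-/

set_option autoImplicit false
set_option linter.unusedSectionVars false

open MeasureTheory Filter Topology Metric

open scoped ENNReal NNReal

namespace Pool.Agent.H779.RB

theorem pow_gap (k : ℕ) {t h : ℝ} (ht : 0 ≤ t) (hh : 0 ≤ h) :
    ((k : ℝ) + 1) * t ^ k * h ≤ (t + h) ^ (k + 1) - t ^ (k + 1) := by
  induction k with
  | zero => simp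
  | succ k ih =>
    have h1 : (t + h) * (((k : ℝ) + 1) * t ^ k * h + t ^ (k + 1)) ≤ (t + h) * (t + h) ^ (k + 1) :=
      mul_le_mul_of_nonneg_left (by linarith) (by linarith)
    have h2 : (t + h) ^ (k + 1 + 1) = (t + h) * (t + h) ^ (k + 1) := by ring
    have h3 : 0 ≤ ((k : ℝ) + 1) * t ^ k * h * h := by positivity
    rw [h2]
    push_cast
    have h4 : t ^ (k + 1 + 1) = t * t ^ (k + 1) := by ring
    have h5 : (t + h) * (((k : ℝ) + 1) * t ^ k * h + t ^ (k + 1)) =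
      ((k : ℝ) + 1 + 1) * t ^ (k + 1) * h + t * t ^ (k + 1) + ((k : ℝ) + 1) * t ^ k * h * h := by ring
    rw [h4]
    linarith

variable {k : ℕ}


/-- the volume of the unit ball -/
noncomputable def om (k : ℕ) : ℝ := volume.real (ball (0 : EuclideanSpace ℝ (Fin (k + 1))) 1)

theorem om_pos (k : ℕ) : 0 < om k := by
  unfold om
  rw [measureReal_def, ENNReal.toReal_pos_iff]
  exact ⟨measure_ball_pos _ _ one_pos, measure_ball_lt_top⟩

theorem vol_real (x : (EuclideanSpace ℝ (Fin (k + 1)))) {s : ℝ} (hs : 0 ≤ s) : volume.real (ball x s) = s ^ (k + 1) * om k := by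
  unfold om
  rw [measureReal_def, Measure.addHaar_ball _ _ hs, ENNReal.toReal_mul,
    ENNReal.toReal_ofReal (by positivity), measureReal_def, finrank_euclideanSpace_fin]

theorem vol_ofReal (x : (EuclideanSpace ℝ (Fin (k + 1)))) {s : ℝ} (hs : 0 ≤ s) :
    volume (ball x s) = ENNReal.ofReal (s ^ (k + 1) * om k) := by
  rw [← vol_real x hs, measureReal_def, ENNReal.ofReal_toReal measure_ball_lt_top.ne]

theorem ann_vol {t h : ℝ} (ht : 0 ≤ t) (hh : 0 ≤ h) :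
    ENNReal.ofReal (om k * ((k : ℝ) + 1) * h * t ^ k) ≤
      volume (ball (0 : (EuclideanSpace ℝ (Fin (k + 1)))) (t + h) \ ball 0 t) := by
  rw [measure_sdiff (ball_subset_ball (by linarith)) measurableSet_ball.nullMeasurableSet
    measure_ball_lt_top.ne, vol_ofReal _ (by linarith), vol_ofReal _ ht,
    ← ENNReal.ofReal_sub _ (mul_nonneg (by positivity) (om_pos k).le)]
  refine ENNReal.ofReal_le_ofReal ?_
  have h1 := mul_le_mul_of_nonneg_left (pow_gap k ht hh) (om_pos k).le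
  linarith

theorem rot_pair {Ω : Type} [MeasurableSpace Ω] {m : Measure Ω} {a : Ω → (EuclideanSpace ℝ (Fin (k + 1))) → (EuclideanSpace ℝ (Fin (k + 1)))} {G : (EuclideanSpace ℝ (Fin (k + 1))) → ℝ}
    (hGc : Continuous G) (hGs : HasCompactSupport G)
    (hG0 : ∀ z, 0 ≤ G z) (x y : (EuclideanSpace ℝ (Fin (k + 1)))) (hxy : x ≠ y) {ρ η : ℝ} (hρ : 0 < ρ) (hη : 0 < η)
    (h1 : (∫⁻ Q : Ω, inter (fun z => ENNReal.ofReal (G z)) (a Q y) (a Q x) ρ ∂m) *
        volume (ball (0 : (EuclideanSpace ℝ (Fin (k + 1)))) (dist y x + η * ρ) \ ball 0 (dist y x)) ≤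
          volume (ball (0 : (EuclideanSpace ℝ (Fin (k + 1)))) ρ) * ((∫⁻ w, ENNReal.ofReal (G w)) *
            (m Set.univ * volume (ball (0 : (EuclideanSpace ℝ (Fin (k + 1)))) ((1 + η) * ρ))))) :
    ∫⁻ Q : Ω, inter (fun z => ENNReal.ofReal (G z)) (a Q y) (a Q x) ρ ∂m ≤
      m Set.univ * ENNReal.ofReal (((ρ ^ (k + 1) * om k) ^ 2 * (1 + η) ^ (k + 1) * (∫ z, G z)) /
        (om k * ((k : ℝ) + 1) * (η * ρ)) * ((dist x y) ^ k)⁻¹) := by
  have hd : 0 < dist x y := dist_pos.2 hxy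
  have hom := om_pos k
  rw [dist_comm y x] at h1
  have h2 := ann_vol (k := k) hd.le (show 0 ≤ η * ρ by positivity)
  have h3 : (∫⁻ Q : Ω, inter (fun z => ENNReal.ofReal (G z)) (a Q y) (a Q x) ρ ∂m) *
      ENNReal.ofReal (om k * ((k : ℝ) + 1) * (η * ρ) * dist x y ^ k) ≤
      volume (ball (0 : (EuclideanSpace ℝ (Fin (k + 1)))) ρ) * ((∫⁻ w, ENNReal.ofReal (G w)) *
        (m Set.univ * volume (ball (0 : (EuclideanSpace ℝ (Fin (k + 1)))) ((1 + η) * ρ)))) :=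
    (mul_le_mul_right h2 _).trans h1
  have hpos : 0 < om k * ((k : ℝ) + 1) * (η * ρ) * dist x y ^ k := by positivity
  rw [← ENNReal.le_div_iff_mul_le (Or.inl (by simpa using hpos)) (Or.inl ENNReal.ofReal_ne_top)] at h3
  refine h3.trans (le_of_eq ?_)
  have hGI : ∫⁻ w, ENNReal.ofReal (G w) = ENNReal.ofReal (∫ w, G w) := by
    rw [ofReal_integral_eq_lintegral_ofReal (hGc.integrable_of_hasCompactSupport hGs)
      (Eventually.of_forall hG0)]
  have hGI0 : 0 ≤ ∫ w, G w := integral_nonneg hG0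
  rw [hGI, vol_ofReal _ hρ.le, vol_ofReal _ (by positivity)]
  rw [show ENNReal.ofReal (ρ ^ (k + 1) * om k) * (ENNReal.ofReal (∫ w, G w) *
      (m Set.univ * ENNReal.ofReal (((1 + η) * ρ) ^ (k + 1) * om k))) =
      m Set.univ * (ENNReal.ofReal (ρ ^ (k + 1) * om k) * ENNReal.ofReal (∫ w, G w) *
        ENNReal.ofReal (((1 + η) * ρ) ^ (k + 1) * om k)) by ring]
  rw [← ENNReal.ofReal_mul (by positivity), ← ENNReal.ofReal_mul (by positivity), mul_div_assoc,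
    ← ENNReal.ofReal_div_of_pos hpos]
  congr 2
  field_simp
  rw [mul_pow]
  ring

/-- the near pairs -/
noncomputable def np (P : Finset (EuclideanSpace ℝ (Fin (k + 1)))) (s : ℝ) : Finset ((EuclideanSpace ℝ (Fin (k + 1))) × (EuclideanSpace ℝ (Fin (k + 1)))) := by
  classical exact (P ×ˢ P).filter (fun p => p.1 ≠ p.2 ∧ dist p.1 p.2 < s)

theorem mem_np {P : Finset (EuclideanSpace ℝ (Fin (k + 1)))} {s : ℝ} {p : (EuclideanSpace ℝ (Fin (k + 1))) × (EuclideanSpace ℝ (Fin (k + 1)))} :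
    p ∈ np P s ↔ (p.1 ∈ P ∧ p.2 ∈ P) ∧ p.1 ≠ p.2 ∧ dist p.1 p.2 < s := by
  unfold np
  rw [Finset.mem_filter, Finset.mem_product]

theorem sum_pr_le {f G : (EuclideanSpace ℝ (Fin (k + 1))) → ℝ} (hf : CosRep f) (hc : Continuous f) (hcs : HasCompactSupport f)
    (hGc : Continuous G) (hGs : HasCompactSupport G) (hG0 : ∀ z, 0 ≤ G z) (hfG : ∀ z, f z ≤ G z)
    {r : ℝ} (hr : ∀ z, r ≤ ‖z‖ → f z ≤ 0) (P : Finset (EuclideanSpace ℝ (Fin (k + 1)))) (φ : (EuclideanSpace ℝ (Fin (k + 1))) → (EuclideanSpace ℝ (Fin (k + 1))))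
    (hφ : ∀ x y, dist (φ x) (φ y) = dist x y) (ρ : ℝ) :
    ∑ x ∈ P, ∑ y ∈ P, pr f (φ x) (φ y) ρ ≤ P.card * (volume.real (ball (0 : (EuclideanSpace ℝ (Fin (k + 1)))) ρ) ^ 2 * f 0) +
      ∑ p ∈ np P (r + 2 * ρ), (inter (fun z => ENNReal.ofReal (G z)) (φ p.2) (φ p.1) ρ).toReal := by
  classical
  have h1 : ∑ x ∈ P, ∑ y ∈ P, pr f (φ x) (φ y) ρ =
      ∑ p ∈ P ×ˢ P, pr f (φ p.1) (φ p.2) ρ := by
    rw [Finset.sum_product]
  rw [h1]
  have h2 : ∀ p ∈ P ×ˢ P, pr f (φ p.1) (φ p.2) ρ ≤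
      (if p.1 = p.2 then volume.real (ball (0 : (EuclideanSpace ℝ (Fin (k + 1)))) ρ) ^ 2 * f 0 else 0) +
      (if p.1 ≠ p.2 ∧ dist p.1 p.2 < r + 2 * ρ then
        (inter (fun z => ENNReal.ofReal (G z)) (φ p.2) (φ p.1) ρ).toReal else 0) := by
    intro p _
    by_cases hp : p.1 = p.2
    · rw [if_pos hp, if_neg (fun h => h.1 hp), add_zero]
      exact pr_le_diag hc hcs hf.le_zero _ _ _
    · rw [if_neg hp, zero_add]
      by_cases hd : dist p.1 p.2 < r + 2 * ρ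
      · rw [if_pos ⟨hp, hd⟩]
        exact pr_le_inter hc hcs hGc hGs hG0 hfG hf.even _ _ _
      · rw [if_neg (fun h => hd h.2)]
        exact pr_nonpos hr _ _ _ (by rw [hφ]; exact not_lt.1 hd)
  refine (Finset.sum_le_sum h2).trans (le_of_eq ?_)
  rw [Finset.sum_add_distrib]
  congr 1
  · rw [← Finset.sum_filter, Finset.sum_const, nsmul_eq_mul]
    congr 2
    have h3 : ((P ×ˢ P).filter fun p : (EuclideanSpace ℝ (Fin (k + 1))) × (EuclideanSpace ℝ (Fin (k + 1))) => p.1 = p.2) = P.map ⟨fun x => (x, x), fun x y h => by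
        simpa using congrArg Prod.fst h⟩ := by
      ext ⟨a, b⟩
      simp only [Finset.mem_filter, Finset.mem_product, Finset.mem_map, Function.Embedding.coeFn_mk,
        Prod.mk.injEq]
      constructor
      · rintro ⟨⟨ha, hb⟩, rfl⟩
        exact ⟨a, ha, rfl, rfl⟩
      · rintro ⟨c, hc, rfl, rfl⟩
        exact ⟨⟨hc, hc⟩, rfl⟩
    rw [h3, Finset.card_map]
  · rw [← Finset.sum_filter]
    unfold np
    refine Finset.sum_congr ?_ fun _ _ => rfl
    congr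

/-- **The averaged inequality.** -/
theorem avg_ineq {f G : (EuclideanSpace ℝ (Fin (k + 1))) → ℝ} (hf : CosRep f) (hc : Continuous f) (hcs : HasCompactSupport f)
    (hGc : Continuous G) (hGs : HasCompactSupport G) (hG0 : ∀ z, 0 ≤ G z) (hfG : ∀ z, f z ≤ G z)
    {r L T T' ρ η : ℝ} (hr : ∀ z, r ≤ ‖z‖ → f z ≤ 0) (hL0 : 0 < L) (hL : ∀ z, L ≤ ‖z‖ → f z = 0)
    (hρ : 0 < ρ) (hη : 0 < η) (hT' : T + ρ + L ≤ T') (P : Finset (EuclideanSpace ℝ (Fin (k + 1)))) (hP : ∀ x ∈ P, ‖x‖ < T)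
    (c : ℝ≥0) :
    2 * (c * (P.card * (volume.real (ball (0 : (EuclideanSpace ℝ (Fin (k + 1)))) ρ) * ∫ z, f z))) -
      c ^ 2 * (volume.real (ball (0 : (EuclideanSpace ℝ (Fin (k + 1)))) T') * (∫ z, f z) +
        volume.real (ball (0 : (EuclideanSpace ℝ (Fin (k + 1)))) T' \ ball 0 (T' - L)) * (2 * ∫ z, |f z|)) -
      P.card * (volume.real (ball (0 : (EuclideanSpace ℝ (Fin (k + 1)))) ρ) ^ 2 * f 0) ≤
      ∑ p ∈ np P (r + 2 * ρ), ((ρ ^ (k + 1) * om k) ^ 2 * (1 + η) ^ (k + 1) * (∫ z, G z)) /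
        (om k * ((k : ℝ) + 1) * (η * ρ)) * ((dist p.1 p.2) ^ k)⁻¹ := by
  set A : ℝ := 2 * (c * (P.card * (volume.real (ball (0 : (EuclideanSpace ℝ (Fin (k + 1)))) ρ) * ∫ z, f z))) -
      c ^ 2 * (volume.real (ball (0 : (EuclideanSpace ℝ (Fin (k + 1)))) T') * (∫ z, f z) +
        volume.real (ball (0 : (EuclideanSpace ℝ (Fin (k + 1)))) T' \ ball 0 (T' - L)) * (2 * ∫ z, |f z|)) -
      P.card * (volume.real (ball (0 : (EuclideanSpace ℝ (Fin (k + 1)))) ρ) ^ 2 * f 0) with hA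
  have hom := om_pos k
  have hGI0 : 0 ≤ ∫ w, G w := integral_nonneg hG0
  have hB0 : ∀ p ∈ np P (r + 2 * ρ), 0 ≤ ((ρ ^ (k + 1) * om k) ^ 2 * (1 + η) ^ (k + 1) *
      (∫ z, G z)) / (om k * ((k : ℝ) + 1) * (η * ρ)) * ((dist p.1 p.2) ^ k)⁻¹ := by
    intro p _
    positivity
  obtain ⟨Ω, mΩ, m, a, hM0, hM1, ha1, ha2, ha3⟩ :=
    exists_rot (EuclideanSpace ℝ (Fin (k + 1))) (k := k) (by rw [finrank_euclideanSpace_fin])
  have hgm : Measurable (fun z : (EuclideanSpace ℝ (Fin (k + 1))) => ENNReal.ofReal (G z)) := hGc.measurable.ennreal_ofReal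
  have h1 : ∀ Q : Ω, ENNReal.ofReal A ≤ ∑ p ∈ np P (r + 2 * ρ),
      inter (fun z => ENNReal.ofReal (G z)) (a Q p.2) (a Q p.1) ρ := by
    intro Q
    have e1 := fin_ineq hf hc hcs hL0 hL hT' P (fun x => a Q x)
      (fun x hx => by rw [ha2]; exact hP x hx) c
    have e2 := sum_pr_le hf hc hcs hGc hGs hG0 hfG hr P (fun x => a Q x)
      (fun x y => ha1 Q x y) ρ
    have e3 : A ≤ ∑ p ∈ np P (r + 2 * ρ),
        (inter (fun z => ENNReal.ofReal (G z)) (a Q p.2) (a Q p.1) ρ).toReal := by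
      rw [hA]
      linarith
    refine (ENNReal.ofReal_le_ofReal e3).trans ?_
    rw [ENNReal.ofReal_sum_of_nonneg fun p _ => ENNReal.toReal_nonneg]
    refine Finset.sum_le_sum fun p _ => ?_
    rw [ENNReal.ofReal_toReal (inter_lt_top hGc hGs _ _ _).ne]
  have h2 : ENNReal.ofReal A * m Set.univ ≤ m Set.univ * ENNReal.ofReal (∑ p ∈ np P (r + 2 * ρ),
      ((ρ ^ (k + 1) * om k) ^ 2 * (1 + η) ^ (k + 1) * (∫ z, G z)) /
        (om k * ((k : ℝ) + 1) * (η * ρ)) * ((dist p.1 p.2) ^ k)⁻¹) := by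
    calc ENNReal.ofReal A * m Set.univ = ∫⁻ _Q : Ω, ENNReal.ofReal A ∂m := by
          rw [lintegral_const]
      _ ≤ ∫⁻ Q : Ω, ∑ p ∈ np P (r + 2 * ρ),
          inter (fun z => ENNReal.ofReal (G z)) (a Q p.2) (a Q p.1) ρ ∂m :=
          lintegral_mono h1
      _ = ∑ p ∈ np P (r + 2 * ρ), ∫⁻ Q : Ω,
          inter (fun z => ENNReal.ofReal (G z)) (a Q p.2) (a Q p.1) ρ ∂m :=
          lintegral_finsetSum _ fun p _ => (ha3 _ hgm p.2 p.1 ρ).1
      _ ≤ ∑ p ∈ np P (r + 2 * ρ), m Set.univ * ENNReal.ofReal (((ρ ^ (k + 1) * om k) ^ 2 *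
          (1 + η) ^ (k + 1) * (∫ z, G z)) / (om k * ((k : ℝ) + 1) * (η * ρ)) *
            ((dist p.1 p.2) ^ k)⁻¹) :=
          Finset.sum_le_sum fun p hp => rot_pair hGc hGs hG0 p.1 p.2 (mem_np.1 hp).2.1 hρ hη
            ((ha3 _ hgm p.2 p.1 ρ).2 η (mem_np.1 hp).2.1.symm hρ hη)
      _ = _ := by
          rw [← Finset.mul_sum, ENNReal.ofReal_sum_of_nonneg hB0]
  rw [mul_comm (ENNReal.ofReal A)] at h2
  have h3 := (ENNReal.mul_le_mul_iff_right hM0 hM1).1 h2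
  exact (ENNReal.ofReal_le_ofReal_iff (Finset.sum_nonneg hB0)).1 h3

end Pool.Agent.H779.RB
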