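import Mathlib

/-!
Sums over points whose number in balls is bounded.
-/

set_option autoImplicit false

open MeasureTheory Filter Topology Set

namespace Pool.Agent.H779.RB

theorem inv_pow_eq {k : ℕ} (hk : 1 ≤ k) {t R : ℝ} (ht : 0 < t) (htR : t ≤ R) :
    (t ^ k)⁻¹ = (R ^ k)⁻¹ + k * ∫ s in t..R, (s ^ (k + 1))⁻¹ := by
  have hR : 0 < R := lt_of_lt_of_le ht htR
  have h1 : ∫ s in t..R, (s ^ (k + 1))⁻¹ = ∫ s in t..R, s ^ (-((k : ℤ) + 1)) := by
    refine intervalIntegral.integral_congr fun s _ => ?_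
    rw [zpow_neg]
    norm_cast
  have h0 : (0 : ℝ) ∉ Set.uIcc t R := by
    rw [Set.uIcc_of_le htR]
    intro h
    linarith [h.1]
  rw [h1, integral_zpow (Or.inr ⟨by omega, h0⟩)]
  have h2 : -((k : ℤ) + 1) + 1 = -(k : ℤ) := by ring
  rw [h2, zpow_neg, zpow_neg, zpow_natCast, zpow_natCast]
  have hk0 : (k : ℝ) ≠ 0 := by
    have : (1 : ℝ) ≤ k := by exact_mod_cast hk
    linarith
  push_cast
  have h3 : (-((k : ℝ) + 1) + 1) = -k := by ring
  rw [h3]
  field_simp
  ring

theorem layer {ι : Type*} (S : Finset ι) (t : ι → ℝ) {R A : ℝ} {k : ℕ} (hk : 1 ≤ k)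
    (hR0 : 0 < R) (hS : ∀ i ∈ S, 0 < t i ∧ t i < R)
    (hcount : ∀ s, 0 < s → s ≤ R → ((S.filter (fun i => t i < s)).card : ℝ) ≤ A * s ^ (k + 1)) :
    ∑ i ∈ S, ((t i) ^ k)⁻¹ ≤ ((k : ℝ) + 1) * (A * R) := by
  classical
  rcases S.eq_empty_or_nonempty with rfl | hne
  · have h1 := hcount R hR0 le_rfl
    simp only [Finset.filter_empty, Finset.card_empty, Nat.cast_zero] at h1
    have h2 : 0 ≤ A := by
      by_contra h
      push Not at h
      have : A * R ^ (k + 1) < 0 := mul_neg_of_neg_of_pos h (by positivity)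
      linarith
    rw [Finset.sum_empty]
    positivity
  obtain ⟨i₀, hi₀, hmin⟩ := S.exists_min_image t hne
  set τ := t i₀ with hτ
  have hτ0 : 0 < τ := (hS i₀ hi₀).1
  have hτR : τ < R := (hS i₀ hi₀).2
  have h1 : ∀ i ∈ S, ((t i) ^ k)⁻¹ = (R ^ k)⁻¹ + k * ∫ s in Ioc τ R,
      (Ioc (t i) R).indicator (fun s : ℝ => (s ^ (k + 1))⁻¹) s := by
    intro i hi
    rw [inv_pow_eq hk (hS i hi).1 (hS i hi).2.le, intervalIntegral.integral_of_le (hS i hi).2.le]
    congr 2
    rw [setIntegral_indicator measurableSet_Ioc]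
    congr 2
    ext s
    constructor
    · intro h
      exact ⟨⟨lt_of_le_of_lt (hmin i hi) h.1, h.2⟩, h⟩
    · intro h
      exact h.2
  rw [Finset.sum_congr rfl h1, Finset.sum_add_distrib, Finset.sum_const, nsmul_eq_mul,
    ← Finset.mul_sum]
  have hint : ∀ i ∈ S, IntegrableOn ((Ioc (t i) R).indicator (fun s : ℝ => (s ^ (k + 1))⁻¹))
      (Ioc τ R) := by
    intro i hi
    refine IntegrableOn.indicator ?_ measurableSet_Ioc
    have hc : ContinuousOn (fun s : ℝ => (s ^ (k + 1))⁻¹) (Icc τ R) := by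
      refine ContinuousOn.inv₀ (continuous_pow _).continuousOn fun s hs => ?_
      have : 0 < s := lt_of_lt_of_le hτ0 hs.1
      positivity
    exact (hc.integrableOn_Icc).mono_set Ioc_subset_Icc_self
  have h2 : ∑ i ∈ S, ∫ s in Ioc τ R, (Ioc (t i) R).indicator (fun s : ℝ => (s ^ (k + 1))⁻¹) s =
      ∫ s in Ioc τ R, ∑ i ∈ S, (Ioc (t i) R).indicator (fun s : ℝ => (s ^ (k + 1))⁻¹) s :=
    (integral_finsetSum _ hint).symm
  have h3 : ∫ s in Ioc τ R, ∑ i ∈ S, (Ioc (t i) R).indicator (fun s : ℝ => (s ^ (k + 1))⁻¹) s ≤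
      ∫ _s in Ioc τ R, A := by
    refine setIntegral_mono_on (integrable_finsetSum _ hint) (integrable_const _)
      measurableSet_Ioc fun s hs => ?_
    have hs0 : 0 < s := hτ0.trans hs.1
    have h4 : ∑ i ∈ S, (Ioc (t i) R).indicator (fun s : ℝ => (s ^ (k + 1))⁻¹) s =
        ((S.filter (fun i => t i < s)).card : ℝ) * (s ^ (k + 1))⁻¹ := by
      rw [← nsmul_eq_mul, ← Finset.sum_const, Finset.sum_filter]
      refine Finset.sum_congr rfl fun i _ => ?_
      by_cases h : t i < s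
      · rw [if_pos h, indicator_of_mem (show s ∈ Ioc (t i) R from ⟨h, hs.2⟩)]
      · rw [if_neg h, indicator_of_notMem (fun h5 => h h5.1)]
    rw [h4, ← div_eq_mul_inv, div_le_iff₀ (by positivity)]
    exact hcount s hs0 hs.2
  have h5 : ∫ _s in Ioc τ R, A = (R - τ) * A := by
    rw [setIntegral_const, smul_eq_mul, measureReal_def, Real.volume_Ioc,
      ENNReal.toReal_ofReal (by linarith)]
  have hcR := hcount R hR0 le_rfl
  have h6 : S.filter (fun i => t i < R) = S := Finset.filter_true_of_mem fun i hi => (hS i hi).2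
  rw [h6] at hcR
  have hA : 0 ≤ A := by
    by_contra h
    push Not at h
    have : A * R ^ (k + 1) < 0 := mul_neg_of_neg_of_pos h (by positivity)
    have : (0 : ℝ) ≤ S.card := Nat.cast_nonneg _
    linarith
  have h7 : (S.card : ℝ) * (R ^ k)⁻¹ ≤ A * R := by
    rw [← div_eq_mul_inv, div_le_iff₀ (by positivity)]
    refine hcR.trans (le_of_eq ?_)
    ring
  rw [h2]
  have h8 : (k : ℝ) * ∫ s in Ioc τ R, ∑ i ∈ S,
      (Ioc (t i) R).indicator (fun s : ℝ => (s ^ (k + 1))⁻¹) s ≤ k * (A * R) := by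
    refine mul_le_mul_of_nonneg_left ?_ (Nat.cast_nonneg _)
    rw [h5] at h3
    refine h3.trans ?_
    have : 0 ≤ τ * A := by positivity
    linarith
  linarith

end Pool.Agent.H779.RB
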