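import Mathlib
import Pool.Agent.H779.RB.Fin2
import Pool.Agent.H779.RB.Layer

/-!
The bound for the number of the points of a set with few near pairs.
-/

set_option autoImplicit false
set_option linter.unusedSectionVars false

open MeasureTheory Filter Topology Metric

open scoped ENNReal NNReal

namespace Pool.Agent.H779.RB

variable {k : ℕ}


theorem fin_bound {f G : (EuclideanSpace ℝ (Fin (k + 1))) → ℝ} (hk : 1 ≤ k) (hf : CosRep f) (hc : Continuous f)
    (hcs : HasCompactSupport f)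
    (hGc : Continuous G) (hGs : HasCompactSupport G) (hG0 : ∀ z, 0 ≤ G z) (hfG : ∀ z, f z ≤ G z)
    {r L T T' ρ η lam : ℝ} (hr0 : 0 < r) (hr : ∀ z, r ≤ ‖z‖ → f z ≤ 0) (hL0 : 0 < L)
    (hL : ∀ z, L ≤ ‖z‖ → f z = 0) (hT0 : 0 < T) (hlam : 0 ≤ lam)
    (hρ : 0 < ρ) (hη : 0 < η) (hT' : T + ρ + L ≤ T') (P : Finset (EuclideanSpace ℝ (Fin (k + 1)))) (hP : ∀ x ∈ P, ‖x‖ < T)
    (hcount : ∀ s, 0 < s → s ≤ r + 2 * ρ →
      ((np P s).card : ℝ) ≤ lam * (s ^ (k + 1) * om k) * P.card) :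
    (P.card : ℝ) / volume.real (ball (0 : (EuclideanSpace ℝ (Fin (k + 1)))) T') * ((∫ z, f z) -
      volume.real (ball (0 : (EuclideanSpace ℝ (Fin (k + 1)))) T' \ ball 0 (T' - L)) / volume.real (ball (0 : (EuclideanSpace ℝ (Fin (k + 1)))) T') *
        (2 * ∫ z, |f z|)) ≤
      f 0 + (1 + η) ^ (k + 1) * (∫ z, G z) * lam * (r + 2 * ρ) / (η * ρ) := by
  have hom := om_pos k
  have hT'0 : 0 < T' := by linarith
  have havg := fun c => avg_ineq hf hc hcs hGc hGs hG0 hfG hr hL0 hL hρ hη hT' P hP c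
  set V := volume.real (ball (0 : (EuclideanSpace ℝ (Fin (k + 1)))) T') with hV
  set W := volume.real (ball (0 : (EuclideanSpace ℝ (Fin (k + 1)))) T' \ ball 0 (T' - L)) with hW
  have hV0 : 0 < V := by
    rw [hV, vol_real _ hT'0.le]
    positivity
  set β := volume.real (ball (0 : (EuclideanSpace ℝ (Fin (k + 1)))) ρ) with hβ
  have hβe : β = ρ ^ (k + 1) * om k := vol_real _ hρ.le
  have hβ0 : 0 < β := by
    rw [hβe]
    positivity
  have hGI0 : 0 ≤ ∫ w, G w := integral_nonneg hG0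
  generalize (∫ z, f z) = I at havg ⊢
  generalize (∫ z, |f z|) = J at havg ⊢
  generalize (∫ z, G z) = GI at havg hGI0 ⊢
  set N : ℝ := (P.card : ℝ) with hN
  have hN0 : 0 ≤ N := Nat.cast_nonneg _
  have hR0 : 0 < r + 2 * ρ := by positivity
  rcases hN0.eq_or_lt with hN1 | hN1
  · rw [← hN1, zero_div, zero_mul]
    have h1 : 0 ≤ f 0 := by
      obtain ⟨w, hw, hw0, hfw⟩ := hf
      rw [hfw 0]
      exact integral_nonneg fun p => by simpa using hw0 p
    positivity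
  · have hc0 : 0 ≤ β * N / V := by positivity
    have h1 := havg (Real.toNNReal (β * N / V))
    rw [Real.coe_toNNReal _ hc0] at h1
    -- the sum over the pairs
    have h2 : ∑ p ∈ np P (r + 2 * ρ), ((dist p.1 p.2) ^ k)⁻¹ ≤
        ((k : ℝ) + 1) * (lam * om k * N * (r + 2 * ρ)) := by
      refine layer (np P (r + 2 * ρ)) (fun p => dist p.1 p.2) hk hR0 ?_ ?_
      · intro p hp
        have := mem_np.1 hp
        exact ⟨dist_pos.2 this.2.1, this.2.2⟩
      · intro s hs0 hs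
        have h3 : (np P (r + 2 * ρ)).filter (fun p => dist p.1 p.2 < s) = np P s := by
          ext p
          rw [Finset.mem_filter, mem_np, mem_np]
          constructor
          · rintro ⟨⟨h4, h5, h6⟩, h7⟩
            exact ⟨h4, h5, h7⟩
          · rintro ⟨h4, h5, h6⟩
            exact ⟨⟨h4, h5, lt_of_lt_of_le h6 hs⟩, h6⟩
        rw [h3]
        refine (hcount s hs0 hs).trans (le_of_eq ?_)
        ring
    have h3 : ∑ p ∈ np P (r + 2 * ρ), ((ρ ^ (k + 1) * om k) ^ 2 * (1 + η) ^ (k + 1) * GI) /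
        (om k * ((k : ℝ) + 1) * (η * ρ)) * ((dist p.1 p.2) ^ k)⁻¹ ≤
        β ^ 2 * (N * ((1 + η) ^ (k + 1) * GI * lam * (r + 2 * ρ) / (η * ρ))) := by
      rw [← Finset.mul_sum]
      refine (mul_le_mul_of_nonneg_left h2 (by positivity)).trans (le_of_eq ?_)
      rw [hβe]
      field_simp
    have h4 := h1.trans h3
    have h5 : 2 * (β * N / V * (N * (β * I))) - (β * N / V) ^ 2 * (V * I + W * (2 * J)) -
        N * (β ^ 2 * f 0) = β ^ 2 * (N * (N / V * (I - W / V * (2 * J)) - f 0)) := by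
      field_simp
      ring
    rw [h5] at h4
    have h6 := le_of_mul_le_mul_left h4 (by positivity)
    have h7 := le_of_mul_le_mul_left h6 hN1
    linarith

/-- the limit -/
theorem lim_bound {f G : (EuclideanSpace ℝ (Fin (k + 1))) → ℝ} (hk : 1 ≤ k) (hf : CosRep f) (hc : Continuous f)
    (hcs : HasCompactSupport f)
    (hGc : Continuous G) (hGs : HasCompactSupport G) (hG0 : ∀ z, 0 ≤ G z) (hfG : ∀ z, f z ≤ G z)
    {r ρ η lam : ℝ} (hr0 : 0 < r) (hr : ∀ z, r ≤ ‖z‖ → f z ≤ 0) (hI : 0 < ∫ z, f z)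
    (hlam : 0 ≤ lam) (hρ : 0 < ρ) (hη : 0 < η) :
    ∀ δ : ℝ, 0 < δ → ∀ᶠ T : ℝ in atTop, ∀ P : Finset (EuclideanSpace ℝ (Fin (k + 1))), (∀ x ∈ P, ‖x‖ < T) →
      (∀ s, 0 < s → s ≤ r + 2 * ρ →
        ((np P s).card : ℝ) ≤ lam * (s ^ (k + 1) * om k) * P.card) →
      (P.card : ℝ) ≤ ((f 0 + (1 + η) ^ (k + 1) * (∫ z, G z) * lam * (r + 2 * ρ) / (η * ρ)) /
        (∫ z, f z) + δ) * volume.real (ball (0 : (EuclideanSpace ℝ (Fin (k + 1)))) T) := by
  intro δ hδ
  have hom := om_pos k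
  obtain ⟨L, hL0, hL⟩ : ∃ L : ℝ, 0 < L ∧ ∀ z, L ≤ ‖z‖ → f z = 0 := by
    obtain ⟨L, hL⟩ := hcs.isCompact.isBounded.subset_ball (0 : (EuclideanSpace ℝ (Fin (k + 1))))
    refine ⟨max L 1, by positivity, fun z hz => ?_⟩
    by_contra h
    have h1 := hL (subset_tsupport _ (Function.mem_support.2 h))
    rw [mem_ball_zero_iff] at h1
    linarith [le_max_left L 1]
  set B := f 0 + (1 + η) ^ (k + 1) * (∫ z, G z) * lam * (r + 2 * ρ) / (η * ρ) with hB
  have hGI0 : 0 ≤ ∫ w, G w := integral_nonneg hG0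
  have hf00 : 0 ≤ f 0 := by
    obtain ⟨w, hw, hw0, hfw⟩ := hf
    rw [hfw 0]
    exact integral_nonneg fun p => by simpa using hw0 p
  have hB0 : 0 ≤ B := by positivity
  generalize hIe : (∫ z, f z) = I at hI ⊢
  set J := ∫ z, |f z| with hJ
  have hJ0 : 0 ≤ J := integral_nonneg fun z => abs_nonneg _
  -- the limits
  have hq : Tendsto (fun T : ℝ => ((T + ρ + L) / T) ^ (k + 1)) atTop (𝓝 1) := by
    have h1 : Tendsto (fun T : ℝ => (T + ρ + L) / T) atTop (𝓝 1) := by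
      have h2 : Tendsto (fun T : ℝ => 1 + (ρ + L) * T⁻¹) atTop (𝓝 (1 + (ρ + L) * 0)) :=
        tendsto_const_nhds.add (tendsto_inv_atTop_zero.const_mul _)
      rw [mul_zero, add_zero] at h2
      refine h2.congr' ?_
      filter_upwards [eventually_gt_atTop 0] with T hT
      field_simp
      ring
    simpa using h1.pow (k + 1)
  have hw : Tendsto (fun T : ℝ => 1 - ((T + ρ) / (T + ρ + L)) ^ (k + 1)) atTop (𝓝 0) := by
    have h1 : Tendsto (fun T : ℝ => (T + ρ) / (T + ρ + L)) atTop (𝓝 1) := by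
      have h3 : Tendsto (fun T : ℝ => (T + ρ + L)⁻¹) atTop (𝓝 0) := by
        refine tendsto_inv_atTop_zero.comp ?_
        exact tendsto_atTop_add_const_right _ _ (tendsto_atTop_add_const_right _ _ tendsto_id)
      have h2 : Tendsto (fun T : ℝ => 1 - L * (T + ρ + L)⁻¹) atTop (𝓝 (1 - L * 0)) :=
        tendsto_const_nhds.sub (h3.const_mul _)
      rw [mul_zero, sub_zero] at h2
      refine h2.congr' ?_
      filter_upwards [eventually_gt_atTop 0] with T hT
      field_simp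
      ring
    have h4 := h1.pow (k + 1)
    rw [one_pow] at h4
    have h5 : Tendsto (fun T : ℝ => 1 - ((T + ρ) / (T + ρ + L)) ^ (k + 1)) atTop (𝓝 (1 - 1)) :=
      tendsto_const_nhds.sub h4
    rwa [sub_self] at h5
  have hlim : Tendsto (fun T : ℝ => B * ((T + ρ + L) / T) ^ (k + 1) /
      (I - (1 - ((T + ρ) / (T + ρ + L)) ^ (k + 1)) * (2 * J))) atTop (𝓝 (B / I)) := by
    have h1 : Tendsto (fun T : ℝ => I - (1 - ((T + ρ) / (T + ρ + L)) ^ (k + 1)) * (2 * J)) atTop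
        (𝓝 (I - 0 * (2 * J))) := tendsto_const_nhds.sub (hw.mul_const _)
    rw [zero_mul, sub_zero] at h1
    have h2 := (hq.const_mul B).div h1 hI.ne'
    rwa [mul_one] at h2
  have hpos : ∀ᶠ T : ℝ in atTop, 0 < I - (1 - ((T + ρ) / (T + ρ + L)) ^ (k + 1)) * (2 * J) := by
    have h1 : Tendsto (fun T : ℝ => I - (1 - ((T + ρ) / (T + ρ + L)) ^ (k + 1)) * (2 * J)) atTop
        (𝓝 (I - 0 * (2 * J))) := tendsto_const_nhds.sub (hw.mul_const _)
    rw [zero_mul, sub_zero] at h1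
    exact h1.eventually (lt_mem_nhds hI)
  filter_upwards [hlim.eventually (gt_mem_nhds (show B / I < B / I + δ by linarith)), hpos,
    eventually_gt_atTop 0] with T hT1 hT2 hT0 P hP hcount
  have h1 := fin_bound hk hf hc hcs hGc hGs hG0 hfG hr0 hr hL0 hL hT0 hlam hρ hη le_rfl P hP hcount
  rw [← hB, hIe, ← hJ] at h1
  have hV : volume.real (ball (0 : (EuclideanSpace ℝ (Fin (k + 1)))) (T + ρ + L)) = (T + ρ + L) ^ (k + 1) * om k :=
    vol_real _ (by positivity)
  have hVT : volume.real (ball (0 : (EuclideanSpace ℝ (Fin (k + 1)))) T) = T ^ (k + 1) * om k := vol_real _ hT0.le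
  have hW : volume.real (ball (0 : (EuclideanSpace ℝ (Fin (k + 1)))) (T + ρ + L) \ ball 0 (T + ρ + L - L)) =
      ((T + ρ + L) ^ (k + 1) - (T + ρ) ^ (k + 1)) * om k := by
    rw [measureReal_sdiff (ball_subset_ball (by linarith)) measurableSet_ball
      measure_ball_lt_top.ne, hV, vol_real _ (by linarith), add_sub_cancel_right]
    ring
  have hWV : volume.real (ball (0 : (EuclideanSpace ℝ (Fin (k + 1)))) (T + ρ + L) \ ball 0 (T + ρ + L - L)) /
      volume.real (ball (0 : (EuclideanSpace ℝ (Fin (k + 1)))) (T + ρ + L)) = 1 - ((T + ρ) / (T + ρ + L)) ^ (k + 1) := by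
    rw [hW, hV, div_pow]
    field_simp
  rw [hWV] at h1
  have h2 : (P.card : ℝ) / volume.real (ball (0 : (EuclideanSpace ℝ (Fin (k + 1)))) (T + ρ + L)) ≤
      B / (I - (1 - ((T + ρ) / (T + ρ + L)) ^ (k + 1)) * (2 * J)) := by
    rw [le_div_iff₀ hT2]
    exact h1
  rw [hV] at h2
  rw [hVT]
  have hV0 : 0 < (T + ρ + L) ^ (k + 1) * om k := by positivity
  rw [div_le_iff₀ hV0] at h2
  refine h2.trans ?_
  have h3 : B / (I - (1 - ((T + ρ) / (T + ρ + L)) ^ (k + 1)) * (2 * J)) *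
      ((T + ρ + L) ^ (k + 1) * om k) = B * ((T + ρ + L) / T) ^ (k + 1) /
      (I - (1 - ((T + ρ) / (T + ρ + L)) ^ (k + 1)) * (2 * J)) * (T ^ (k + 1) * om k) := by
    generalize I - (1 - ((T + ρ) / (T + ρ + L)) ^ (k + 1)) * (2 * J) = X
    rw [div_pow (T + ρ + L) T]
    field_simp
  rw [h3]
  exact mul_le_mul_of_nonneg_right hT1.le (by positivity)

end Pool.Agent.H779.RB
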