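import Mathlib
import Pool.Agent.H779.RB.Euc
import Pool.Agent.H779.RB.Fin3

/-!
The robust linear programming bound.
-/

set_option autoImplicit false
set_option linter.unusedSectionVars false

open MeasureTheory Filter Topology Metric

open scoped ENNReal NNReal

namespace Pool.Agent.H779.RB

open Pool.Agent.TH41.BL

/-- near pairs -/
noncomputable def nearPairs {n : ℕ} (P : Finset (EuclideanSpace ℝ (Fin n))) (s : ℝ) :
    Finset (EuclideanSpace ℝ (Fin n) × EuclideanSpace ℝ (Fin n)) := by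
  classical exact (P ×ˢ P).filter (fun p => p.1 ≠ p.2 ∧ dist p.1 p.2 < s)

theorem np_eq {k : ℕ} (P : Finset (EuclideanSpace ℝ (Fin (k + 1)))) (s : ℝ) :
    np P s = nearPairs P s := rfl

theorem const_eq (n : ℕ) : Real.exp (-(n * (1 / 2 * Real.log (2 * Real.pi / Real.exp 1)))) * 2 ^ n =
    (2 * Real.exp 1 / Real.pi) ^ ((n : ℝ) / 2) := by
  have hpi := Real.pi_pos
  rw [Real.rpow_def_of_pos (by positivity)]
  have h2 : (2 : ℝ) ^ n = Real.exp (n * Real.log 2) := by
    rw [mul_comm, Real.exp_mul, Real.exp_log (by norm_num), Real.rpow_natCast]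
  rw [h2, ← Real.exp_add]
  congr 1
  rw [Real.log_div (by positivity) (Real.exp_pos 1).ne', Real.log_div (by positivity) hpi.ne',
    Real.log_mul (by norm_num) hpi.ne', Real.log_mul (by norm_num) (Real.exp_pos 1).ne',
    Real.log_exp]
  ring

/-- **The robust linear programming bound, finite form.** -/
theorem robust_fin (ε : ℝ) (hε : 0 < ε) : ∃ n₀ : ℕ, ∀ n : ℕ, n₀ ≤ n → ∀ R : ℝ, 0 < R →
    ∀ lam : ℝ, 0 ≤ lam → ∀ δ : ℝ, 0 < δ → ∀ᶠ T : ℝ in atTop,
    ∀ P : Finset (EuclideanSpace ℝ (Fin n)), (∀ x ∈ P, ‖x‖ < T) →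
      (∀ s, 0 < s → s ≤ R → ((nearPairs P s).card : ℝ) ≤
        lam * volume.real (ball (0 : EuclideanSpace ℝ (Fin n)) s) * P.card) →
      (P.card : ℝ) ≤ (Real.exp (ε * n) * ((2 * Real.exp 1 / Real.pi) ^ ((n : ℝ) / 2) /
        volume.real (ball (0 : EuclideanSpace ℝ (Fin n)) R) + lam) + δ) *
          volume.real (ball (0 : EuclideanSpace ℝ (Fin n)) T) := by
  obtain ⟨n₁, K, hK, hn₁⟩ := fin_main (ε / 2) (by positivity)
  set θ : ℝ := min (ε / 16) (1 / 8) with hθ
  have hθ0 : 0 < θ := by positivity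
  have hθ1 : θ ≤ ε / 16 := min_le_left _ _
  have hθ2 : θ ≤ 1 / 8 := min_le_right _ _
  obtain ⟨n₂, hn₂⟩ : ∃ n₂ : ℕ, ∀ n : ℕ, n₂ ≤ n → K / θ ^ 2 ≤ Real.exp (ε / 2 * n) := by
    have h1 : Tendsto (fun n : ℕ => Real.exp (ε / 2 * n)) atTop atTop :=
      Real.tendsto_exp_atTop.comp (tendsto_natCast_atTop_atTop.const_mul_atTop (by positivity))
    exact eventually_atTop.1 (h1.eventually_ge_atTop _)
  refine ⟨max (max n₁ n₂) 2, fun n hn R hR lam hlam δ hδ => ?_⟩
  have hn1 : n₁ ≤ n := (le_max_left _ _).trans ((le_max_left _ _).trans hn)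
  have hn2 : n₂ ≤ n := (le_max_right _ _).trans ((le_max_left _ _).trans hn)
  have hn3 : 2 ≤ n := (le_max_right _ _).trans hn
  have hr0 : 0 < (1 - 2 * θ) * R := by
    have : 0 < 1 - 2 * θ := by linarith
    positivity
  obtain ⟨f, hf, hdB, G, hGc, hGs, hG0, hfG, hGI⟩ := hn₁ n hn1 ((1 - 2 * θ) * R) hr0
  obtain ⟨k, rfl⟩ : ∃ k, n = k + 1 := ⟨n - 1, by omega⟩
  have hk : 1 ≤ k := by omega
  have hcr : CosRep f := cosRep_of_aux hf.toAux
  have hρ : 0 < θ * R := by positivity
  have hmain := lim_bound hk hcr hf.continuous hf.compact hGc hGs hG0 hfG hr0 hf.nonpos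
    hf.integral_pos hlam hρ hθ0 δ hδ
  have hRR : (1 - 2 * θ) * R + 2 * (θ * R) = R := by ring
  rw [hRR] at hmain
  filter_upwards [hmain, eventually_gt_atTop 0] with T hT hT0 P hP hc
  have hom := om_pos k
  refine (hT P hP ?_).trans ?_
  · intro s hs0 hs
    rw [np_eq]
    refine (hc s hs0 hs).trans (le_of_eq ?_)
    rw [vol_real _ hs0.le]
  · refine mul_le_mul_of_nonneg_right ?_ measureReal_nonneg
    refine add_le_add ?_ le_rfl
    have hI := hf.integral_pos
    rw [add_div, mul_add]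
    refine add_le_add ?_ ?_
    · -- the first term
      unfold dB at hdB
      rw [mul_div_assoc] at hdB
      have hv : (volume (ball (0 : EuclideanSpace ℝ (Fin (k + 1))) ((1 - 2 * θ) * R / 2))).toReal =
          ((1 - 2 * θ) / 2) ^ (k + 1) * (R ^ (k + 1) * om k) := by
        have h1 := vol_real (k := k) (0 : EuclideanSpace ℝ (Fin (k + 1)))
          (s := (1 - 2 * θ) * R / 2) (by positivity)
        rw [measureReal_def] at h1
        rw [h1]
        rw [show (1 - 2 * θ) * R / 2 = (1 - 2 * θ) / 2 * R by ring, mul_pow]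
        ring
      rw [hv] at hdB
      have h12 : 0 < 1 - 2 * θ := by linarith
      have hpos : 0 < ((1 - 2 * θ) / 2) ^ (k + 1) * (R ^ (k + 1) * om k) := by positivity
      rw [← le_div_iff₀' hpos] at hdB
      refine hdB.trans ?_
      rw [vol_real _ hR.le]
      have h2 : (1 - 2 * θ)⁻¹ ^ (k + 1) ≤ Real.exp (ε / 4 * ((k + 1 : ℕ) : ℝ)) := by
        have h3 : (1 - 2 * θ)⁻¹ ≤ Real.exp (ε / 4) := by
          have h4 : (1 - 2 * θ)⁻¹ ≤ 1 + 4 * θ := by
            rw [inv_le_iff_one_le_mul₀ h12]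
            nlinarith
          have h5 : 1 + 4 * θ ≤ Real.exp (4 * θ) := by
            have := Real.add_one_le_exp (4 * θ)
            linarith
          refine h4.trans (h5.trans (Real.exp_le_exp.2 ?_))
          linarith
        calc (1 - 2 * θ)⁻¹ ^ (k + 1) ≤ Real.exp (ε / 4) ^ (k + 1) :=
              pow_le_pow_left₀ (by positivity) h3 _
          _ = Real.exp (ε / 4 * ((k + 1 : ℕ) : ℝ)) := by
              rw [← Real.exp_nat_mul]
              congr 1
              ring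
      have hc := const_eq (k + 1)
      have h6 : Real.exp (-(((k + 1 : ℕ) : ℝ) * (1 / 2 * Real.log (2 * Real.pi / Real.exp 1) -
          ε / 2))) = Real.exp (-(((k + 1 : ℕ) : ℝ) * (1 / 2 * Real.log (2 * Real.pi /
          Real.exp 1)))) * Real.exp (ε / 2 * ((k + 1 : ℕ) : ℝ)) := by
        rw [← Real.exp_add]
        congr 1
        ring
      rw [h6, ← hc]
      have h7 : Real.exp (-(((k + 1 : ℕ) : ℝ) * (1 / 2 * Real.log (2 * Real.pi /
          Real.exp 1)))) * Real.exp (ε / 2 * ((k + 1 : ℕ) : ℝ)) /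
          (((1 - 2 * θ) / 2) ^ (k + 1) * (R ^ (k + 1) * om k)) =
          Real.exp (ε / 2 * ((k + 1 : ℕ) : ℝ)) * (1 - 2 * θ)⁻¹ ^ (k + 1) *
          (Real.exp (-(((k + 1 : ℕ) : ℝ) * (1 / 2 * Real.log (2 * Real.pi /
          Real.exp 1)))) * 2 ^ (k + 1) / (R ^ (k + 1) * om k)) := by
        rw [div_pow, inv_pow]
        field_simp
      rw [h7]
      refine mul_le_mul_of_nonneg_right ?_ (by positivity)
      calc Real.exp (ε / 2 * ((k + 1 : ℕ) : ℝ)) * (1 - 2 * θ)⁻¹ ^ (k + 1)
          ≤ Real.exp (ε / 2 * ((k + 1 : ℕ) : ℝ)) * Real.exp (ε / 4 * ((k + 1 : ℕ) : ℝ)) :=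
            mul_le_mul_of_nonneg_left h2 (Real.exp_pos _).le
        _ ≤ Real.exp (ε * ((k + 1 : ℕ) : ℝ)) := by
            rw [← Real.exp_add]
            apply Real.exp_le_exp.2
            have : (0 : ℝ) ≤ ((k + 1 : ℕ) : ℝ) := Nat.cast_nonneg _
            nlinarith
    · -- the second term
      have h1 : (1 + θ) ^ (k + 1) ≤ Real.exp (ε / 4 * ((k + 1 : ℕ) : ℝ)) := by
        calc (1 + θ) ^ (k + 1) ≤ Real.exp (ε / 4) ^ (k + 1) := by
              refine pow_le_pow_left₀ (by positivity) ?_ _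
              have := Real.add_one_le_exp θ
              have h3 : Real.exp θ ≤ Real.exp (ε / 4) := Real.exp_le_exp.2 (by linarith)
              linarith
          _ = Real.exp (ε / 4 * ((k + 1 : ℕ) : ℝ)) := by
              rw [← Real.exp_nat_mul]
              congr 1
              ring
      have h2 := hn₂ (k + 1) hn2
      calc (1 + θ) ^ (k + 1) * (∫ z, G z) * lam * R / (θ * (θ * R)) / (∫ z, f z)
          ≤ (1 + θ) ^ (k + 1) * (K * ∫ z, f z) * lam * R / (θ * (θ * R)) / (∫ z, f z) := by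
            gcongr
        _ = (1 + θ) ^ (k + 1) * (K / θ ^ 2) * lam := by
            field_simp
        _ ≤ Real.exp (ε / 4 * ((k + 1 : ℕ) : ℝ)) * Real.exp (ε / 2 * ((k + 1 : ℕ) : ℝ)) * lam := by
            refine mul_le_mul_of_nonneg_right ?_ hlam
            exact mul_le_mul h1 h2 (by positivity) (Real.exp_pos _).le
        _ ≤ Real.exp (ε * ((k + 1 : ℕ) : ℝ)) * lam := by
            refine mul_le_mul_of_nonneg_right ?_ hlam
            rw [← Real.exp_add]
            apply Real.exp_le_exp.2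
            have : (0 : ℝ) ≤ ((k + 1 : ℕ) : ℝ) := Nat.cast_nonneg _
            nlinarith

end Pool.Agent.H779.RB
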