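import Mathlib
import Pool.Agent.H779.RB.Defs
import Pool.Agent.H779.RB.Main
import Pool.Agent.H779.RB.Lower
import Pool.Graph.R_seed8.R760.SP1

/-!
Point sets with few near pairs: comparison with packings.
-/

set_option autoImplicit false
set_option linter.unusedSectionVars false

open MeasureTheory Filter Topology Metric

open scoped ENNReal NNReal

namespace Pool.Agent.H779.RB

open Pool.Agent.H818R2

variable {n : ℕ}


/-! ### The numbers of near points -/

open Classical in
theorem others_coe (P : Finset (EuclideanSpace ℝ (Fin n))) (x : (EuclideanSpace ℝ (Fin n))) (s : ℝ) :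
    others (P : Set (EuclideanSpace ℝ (Fin n))) x s = ((P.filter (fun y => y ≠ x ∧ dist x y < s)).card : ℝ≥0∞) := by
  unfold others
  have e1 : ({y | y ∈ (P : Set (EuclideanSpace ℝ (Fin n))) ∧ y ≠ x ∧ dist x y < s} : Set (EuclideanSpace ℝ (Fin n))) =
      ((P.filter (fun y => y ≠ x ∧ dist x y < s) : Finset (EuclideanSpace ℝ (Fin n))) : Set (EuclideanSpace ℝ (Fin n))) := by
    ext y
    simp
  rw [e1, Set.encard_coe_eq_coe_finsetCard]
  simp

theorem others_mono {X Y : Set (EuclideanSpace ℝ (Fin n))} (h : X ⊆ Y) (x : (EuclideanSpace ℝ (Fin n))) (s : ℝ) : others X x s ≤ others Y x s := by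
  unfold others
  gcongr

theorem others_mono_right (X : Set (EuclideanSpace ℝ (Fin n))) (x : (EuclideanSpace ℝ (Fin n))) {s t : ℝ} (h : s ≤ t) :
    others X x s ≤ others X x t := by
  unfold others
  gcongr

theorem sum_others (P : Finset (EuclideanSpace ℝ (Fin n))) (s : ℝ) :
    ∑ x ∈ P, others (P : Set (EuclideanSpace ℝ (Fin n))) x s = ((nearPairs P s).card : ℝ≥0∞) := by
  classical
  unfold nearPairs
  rw [Finset.card_filter, Finset.sum_product, Nat.cast_sum]
  refine Finset.sum_congr rfl fun x _ => ?_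
  rw [others_coe, Finset.card_filter]
  congr 1
  refine Finset.sum_congr rfl fun y _ => ?_
  simp only [ne_comm]

theorem PtSparse.av {μ : ℝ} {P : Finset (EuclideanSpace ℝ (Fin n))} (h : PtSparse μ P) : AvSparse μ P := by
  intro s hs0 hs1
  calc ∑ x ∈ P, others (P : Set (EuclideanSpace ℝ (Fin n))) x s ≤ ∑ _x ∈ P, ENNReal.ofReal (μ * s ^ n) :=
        Finset.sum_le_sum fun x hx => h x hx s hs0 hs1
    _ = ENNReal.ofReal (μ * s ^ n * P.card) := by
        rw [Finset.sum_const, nsmul_eq_mul, mul_comm (μ * s ^ n),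
          ENNReal.ofReal_mul (p := (P.card : ℝ)) (by positivity), ENNReal.ofReal_natCast]

theorem AvSparse.pairs {μ : ℝ} {P : Finset (EuclideanSpace ℝ (Fin n))} (h : AvSparse μ P) (hμ : 0 ≤ μ) {s : ℝ}
    (hs0 : 0 < s) (hs1 : s ≤ 1) : ((nearPairs P s).card : ℝ) ≤ μ * s ^ n * P.card := by
  have h1 := h s hs0 hs1
  rw [sum_others, ← ENNReal.ofReal_natCast] at h1
  exact (ENNReal.ofReal_le_ofReal_iff (by positivity)).1 h1

theorem ptSparse_of_sparse {μ : ℝ} {P : Finset (EuclideanSpace ℝ (Fin n))} (h : Sparse μ P) : PtSparse μ P := by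
  classical
  intro x hx s hs0 hs1
  have h1 := h x hx s hs0 hs1
  rw [others_coe, ← ENNReal.ofReal_natCast]
  refine ENNReal.ofReal_le_ofReal ?_
  have e1 : ({y | y ∈ P ∧ y ≠ x ∧ dist x y < s} : Set (EuclideanSpace ℝ (Fin n))) =
      ((P.filter (fun y => y ≠ x ∧ dist x y < s) : Finset (EuclideanSpace ℝ (Fin n))) : Set (EuclideanSpace ℝ (Fin n))) := by
    ext y
    simp
  rw [e1, Set.ncard_coe_finset] at h1
  exact h1

theorem ptSparse_of_sep {μ : ℝ} {P : Finset (EuclideanSpace ℝ (Fin n))} (h : Sep 1 P) : PtSparse μ P := by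
  classical
  intro x hx s hs0 hs1
  rw [others_coe, Finset.filter_eq_empty_iff.2]
  · simp
  · rintro y hy ⟨hyx, hd⟩
    have := h x hx y hy (Ne.symm hyx)
    linarith

theorem sep_of_ptSparse {μ : ℝ} (hμ : μ < 1) {P : Finset (EuclideanSpace ℝ (Fin n))} (h : PtSparse μ P) : Sep 1 P := by
  classical
  intro x hx y hy hxy
  by_contra hd
  push Not at hd
  have h1 := h x hx 1 one_pos le_rfl
  rw [one_pow, mul_one, others_coe] at h1
  have h2 : 1 ≤ (P.filter (fun y => y ≠ x ∧ dist x y < 1)).card :=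
    Finset.card_pos.2 ⟨y, Finset.mem_filter.2 ⟨hy, Ne.symm hxy, hd⟩⟩
  have h3 : (1 : ℝ≥0∞) ≤ ENNReal.ofReal μ := le_trans (by exact_mod_cast h2) h1
  rw [← ENNReal.ofReal_one, ENNReal.ofReal_le_ofReal_iff'] at h3
  rcases h3 with h3 | h3 <;> linarith

theorem nearPairs_eq_empty {P : Finset (EuclideanSpace ℝ (Fin n))} (h : nearPairs P 1 = ∅) : Sep 1 P := by
  classical
  intro x hx y hy hxy
  by_contra hd
  push Not at hd
  have : (x, y) ∈ nearPairs P 1 := by
    unfold nearPairs
    rw [Finset.mem_filter, Finset.mem_product]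
    exact ⟨⟨hx, hy⟩, hxy, hd⟩
  rw [h] at this
  exact absurd this (Finset.notMem_empty _)

/-! ### Packings of the ball of radius `T` -/

theorem sep_card_le_rho (hn : 0 < n) {P : Finset (EuclideanSpace ℝ (Fin n))} (hP : Sep 1 P) {T : ℝ} (hT : 0 < T)
    (hPT : ∀ x ∈ P, ‖x‖ < T) : (P.card : ℝ) ≤ rho n * (2 * T + 2) ^ n := by
  classical
  have : Nonempty (Fin n) := ⟨⟨0, hn⟩⟩
  have hrho : 0 ≤ rho n := optDensity_nonneg
  rcases P.eq_empty_or_nonempty with rfl | hne
  · simp only [Finset.card_empty, Nat.cast_zero]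
    positivity
  have hinj : Function.Injective (fun x : (EuclideanSpace ℝ (Fin n)) => (2 : ℝ) • x) :=
    smul_right_injective _ (by norm_num)
  set Q := P.map ⟨fun x : (EuclideanSpace ℝ (Fin n)) => (2 : ℝ) • x, hinj⟩ with hQ
  have hQs : Sep 2 Q := by
    intro x hx y hy hxy
    rw [hQ, Finset.mem_map] at hx hy
    obtain ⟨x', hx', rfl⟩ := hx
    obtain ⟨y', hy', rfl⟩ := hy
    simp only [Function.Embedding.coeFn_mk] at hxy ⊢
    have h2 : x' ≠ y' := fun h => hxy (by rw [h])
    have h3 := hP x' hx' y' hy' h2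
    rw [dist_smul₀, Real.norm_of_nonneg (by positivity)]
    linarith
  have hQn : ∀ x ∈ Q, ‖x‖ ≤ 2 * T := by
    intro x hx
    rw [hQ, Finset.mem_map] at hx
    obtain ⟨x', hx', rfl⟩ := hx
    simp only [Function.Embedding.coeFn_mk]
    rw [norm_smul, Real.norm_of_nonneg (by positivity)]
    have := hPT x' hx'
    linarith
  have h1 := Pool.Agent.R760.SP.replaceU hQs (by rw [hQ]; exact hne.map)
  have h2 : volume.real (Pool.Agent.R760.SP.nbhd Q) ≤ (2 * T + 2) ^ n * vb (EuclideanSpace ℝ (Fin n)) := by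
    have h3 := measureReal_mono (Pool.Agent.R760.SP.nbhd_subset hQn)
      (measure_closedBall_lt_top (μ := volume)).ne
    rwa [vol_closedBall _ (by positivity), finrank_euclideanSpace_fin] at h3
  have h3 : (P.card : ℝ) * vb (EuclideanSpace ℝ (Fin n)) ≤ rho n * (2 * T + 2) ^ n * vb (EuclideanSpace ℝ (Fin n)) := by
    rw [show (P.card : ℝ) = Q.card by rw [hQ, Finset.card_map]]
    refine h1.trans ?_
    rw [mul_assoc]
    exact mul_le_mul_of_nonneg_left h2 hrho
  exact le_of_mul_le_mul_right h3 vb_pos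

theorem exists_sep_card (hn : 0 < n) {T : ℝ} (hT : 0 < T) :
    ∃ P : Finset (EuclideanSpace ℝ (Fin n)), (∀ x ∈ P, ‖x‖ < T) ∧ Sep 1 P ∧ rho n * (2 * T) ^ n ≤ P.card := by
  classical
  have : Nonempty (Fin n) := ⟨⟨0, hn⟩⟩
  obtain ⟨P, hP1, hP2, hP3⟩ := exists_large (G := ball (0 : (EuclideanSpace ℝ (Fin n))) (2 * T)) measurableSet_ball
    (a := 2 * T) (by positivity) ball_subset_closedBall (by
      rw [vol_ball _ (by positivity)]
      have : 0 < vb (EuclideanSpace ℝ (Fin n)) := vb_pos
      positivity)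
  have hinj : Function.Injective (fun x : (EuclideanSpace ℝ (Fin n)) => (1 / 2 : ℝ) • x) :=
    smul_right_injective _ (by norm_num)
  refine ⟨P.map ⟨fun x : (EuclideanSpace ℝ (Fin n)) => (1 / 2 : ℝ) • x, hinj⟩, ?_, ?_, ?_⟩
  · intro x hx
    rw [Finset.mem_map] at hx
    obtain ⟨x', hx', rfl⟩ := hx
    simp only [Function.Embedding.coeFn_mk]
    have h1 := hP2 hx'
    rw [mem_ball_zero_iff] at h1
    rw [norm_smul, Real.norm_of_nonneg (by positivity)]
    linarith
  · intro x hx y hy hxy
    rw [Finset.mem_map] at hx hy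
    obtain ⟨x', hx', rfl⟩ := hx
    obtain ⟨y', hy', rfl⟩ := hy
    simp only [Function.Embedding.coeFn_mk] at hxy ⊢
    have h2 : x' ≠ y' := fun h => hxy (by rw [h])
    have h3 := hP1 x' hx' y' hy' h2
    rw [dist_smul₀, Real.norm_of_nonneg (by positivity)]
    linarith
  · rw [Finset.card_map]
    rw [vol_ball _ (by positivity), finrank_euclideanSpace_fin, ← mul_assoc] at hP3
    exact le_of_mul_le_mul_right hP3 vb_pos

/-! ### Deleting points -/

theorem exists_sep_subset {μ : ℝ} (hμ : 0 ≤ μ) {P : Finset (EuclideanSpace ℝ (Fin n))} (h : AvSparse μ P) :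
    ∃ S : Finset (EuclideanSpace ℝ (Fin n)), S ⊆ P ∧ Sep 1 S ∧ (P.card : ℝ) ≤ 2 * (2 * μ + 1) * S.card := by
  classical
  have hp := h.pairs hμ one_pos le_rfl
  rw [one_pow, mul_one] at hp
  rcases hμ.eq_or_lt with rfl | hμ0
  · rw [zero_mul] at hp
    have h1 : nearPairs P 1 = ∅ := by
      rw [← Finset.card_eq_zero]
      have : ((nearPairs P 1).card : ℝ) = 0 := le_antisymm hp (Nat.cast_nonneg _)
      exact_mod_cast this
    refine ⟨P, subset_rfl, nearPairs_eq_empty h1, ?_⟩
    have : (0 : ℝ) ≤ P.card := Nat.cast_nonneg _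
    linarith
  set N : (EuclideanSpace ℝ (Fin n)) → Finset (EuclideanSpace ℝ (Fin n)) := fun x => P.filter (fun y => y ≠ x ∧ dist x y < 1) with hN
  have hsum : ∑ x ∈ P, ((N x).card : ℝ) ≤ μ * P.card := by
    refine le_trans (le_of_eq ?_) hp
    unfold nearPairs
    rw [Finset.card_filter, Finset.sum_product, Nat.cast_sum]
    refine Finset.sum_congr rfl fun x _ => ?_
    rw [hN, Finset.card_filter]
    congr 1
    refine Finset.sum_congr rfl fun y _ => ?_
    simp only [ne_comm]
  set Q := P.filter (fun x => ((N x).card : ℝ) ≤ 2 * μ) with hQ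
  have hQc : (P.card : ℝ) ≤ 2 * Q.card := by
    have h1 : 2 * μ * (P.filter (fun x => ¬ ((N x).card : ℝ) ≤ 2 * μ)).card ≤ μ * P.card := by
      refine le_trans ?_ hsum
      refine le_trans ?_ (Finset.sum_le_sum_of_subset_of_nonneg (Finset.filter_subset
        (fun x => ¬ ((N x).card : ℝ) ≤ 2 * μ) P) fun _ _ _ => Nat.cast_nonneg _)
      rw [mul_comm, ← nsmul_eq_mul, ← Finset.sum_const]
      refine Finset.sum_le_sum fun x hx => ?_
      rw [Finset.mem_filter, not_le] at hx
      exact hx.2.le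
    have h2 : (Q.card : ℝ) + (P.filter (fun x => ¬ ((N x).card : ℝ) ≤ 2 * μ)).card = P.card := by
      exact_mod_cast Finset.card_filter_add_card_filter_not _
    have h3 : 2 * ((P.filter (fun x => ¬ ((N x).card : ℝ) ≤ 2 * μ)).card : ℝ) ≤ P.card := by
      have : μ * (2 * ((P.filter (fun x => ¬ ((N x).card : ℝ) ≤ 2 * μ)).card : ℝ)) ≤
          μ * P.card := by linarith
      exact le_of_mul_le_mul_left this hμ0
    linarith
  -- a maximal separated subset of `Q`
  obtain ⟨S, hS, hmax⟩ := (Q.powerset.filter (fun S => Sep 1 S)).exists_max_image Finset.card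
    ⟨∅, by
      rw [Finset.mem_filter]
      exact ⟨Finset.mem_powerset.2 (Finset.empty_subset _), fun x hx => by simp at hx⟩⟩
  rw [Finset.mem_filter, Finset.mem_powerset] at hS
  have hcov : Q ⊆ S.biUnion (fun y => insert y (N y)) := by
    intro x hx
    rw [Finset.mem_biUnion]
    by_cases hxS : x ∈ S
    · exact ⟨x, hxS, Finset.mem_insert_self _ _⟩
    by_contra hcon
    push Not at hcon
    have hins : insert x S ∈ Q.powerset.filter (fun S => Sep 1 S) := by
      rw [Finset.mem_filter, Finset.mem_powerset]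
      refine ⟨Finset.insert_subset hx hS.1, ?_⟩
      have aux : ∀ y ∈ S, 1 ≤ dist y x := by
        intro y hy
        by_contra hd
        push Not at hd
        refine hcon y hy (Finset.mem_insert_of_mem ?_)
        rw [hN, Finset.mem_filter]
        exact ⟨(Finset.mem_filter.1 hx).1, fun h => hxS (h ▸ hy), hd⟩
      intro a ha b hb hab
      rw [Finset.mem_insert] at ha hb
      rcases ha with rfl | ha <;> rcases hb with rfl | hb
      · exact absurd rfl hab
      · rw [dist_comm]
        exact aux b hb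
      · exact aux a ha
      · exact hS.2 a ha b hb hab
    have h1 := hmax _ hins
    rw [Finset.card_insert_of_notMem hxS] at h1
    omega
  have hcard : (Q.card : ℝ) ≤ (2 * μ + 1) * S.card := by
    calc (Q.card : ℝ) ≤ ((S.biUnion (fun y => insert y (N y))).card : ℝ) := by
          exact_mod_cast Finset.card_le_card hcov
      _ ≤ ∑ y ∈ S, ((insert y (N y)).card : ℝ) := by exact_mod_cast Finset.card_biUnion_le
      _ ≤ ∑ _y ∈ S, (2 * μ + 1) := by
          refine Finset.sum_le_sum fun y hy => ?_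
          have h1 : ((N y).card : ℝ) ≤ 2 * μ := (Finset.mem_filter.1 (hS.1 hy)).2
          have h2 : ((insert y (N y)).card : ℝ) ≤ (N y).card + 1 := by
            exact_mod_cast Finset.card_insert_le _ _
          linarith
      _ = (2 * μ + 1) * S.card := by
          rw [Finset.sum_const, nsmul_eq_mul, mul_comm]
  refine ⟨S, hS.1.trans (Finset.filter_subset _ _), hS.2, ?_⟩
  linarith

end Pool.Agent.H779.RB
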