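import Mathlib
import Pool.Agent.H779.RB.Rel1
import Pool.Graph.R_seed8.H818R2.Limit

/-!
Point sets with few near pairs: the largest densities.
-/

set_option autoImplicit false
set_option linter.unusedSectionVars false

open MeasureTheory Filter Topology Metric

open scoped ENNReal NNReal

namespace Pool.Agent.H779.RB

open Pool.Agent.H818R2

variable {n : ℕ}


theorem relDensity_mono {C C' : Finset (EuclideanSpace ℝ (Fin n)) → Prop} (h : ∀ P, C P → C' P) :
    relDensity C ≤ relDensity C' := by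
  unfold relDensity
  refine limsup_le_limsup (Eventually.of_forall fun T => ?_)
  refine ENNReal.div_le_div_right (iSup_le fun P => ?_) _
  exact le_iSup (fun P : {P : Finset (EuclideanSpace ℝ (Fin n)) // (∀ x ∈ P, ‖x‖ < T) ∧ C' P} => (P.1.card : ℝ≥0∞))
    ⟨P.1, P.2.1, h _ P.2.2⟩

theorem relDensity_le {C : Finset (EuclideanSpace ℝ (Fin n)) → Prop} {a : ℝ} (ha : 0 ≤ a)
    (h : ∀ δ : ℝ, 0 < δ → ∀ᶠ T : ℝ in atTop, ∀ P : Finset (EuclideanSpace ℝ (Fin n)), (∀ x ∈ P, ‖x‖ < T) → C P →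
      (P.card : ℝ) ≤ (a + δ) * (2 * T) ^ n) : relDensity C ≤ ENNReal.ofReal a := by
  refine ENNReal.le_of_forall_pos_le_add fun δ hδ _ => ?_
  have h1 := h δ (by exact_mod_cast hδ)
  have h2 : relDensity C ≤ ENNReal.ofReal (a + δ) := by
    unfold relDensity
    refine limsup_le_of_le (by isBoundedDefault) ?_
    filter_upwards [h1, eventually_gt_atTop 0] with T hT hT0
    refine ENNReal.div_le_of_le_mul (iSup_le fun P => ?_)
    rw [← ENNReal.ofReal_mul (by positivity), ← ENNReal.ofReal_natCast]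
    exact ENNReal.ofReal_le_ofReal (hT P.1 P.2.1 P.2.2)
  rwa [ENNReal.ofReal_add ha (by positivity), ENNReal.ofReal_coe_nnreal] at h2

theorem le_relDensity {C : Finset (EuclideanSpace ℝ (Fin n)) → Prop} {a : ℝ}
    (h : ∀ᶠ T : ℝ in atTop, ∃ P : Finset (EuclideanSpace ℝ (Fin n)), (∀ x ∈ P, ‖x‖ < T) ∧ C P ∧
      a * (2 * T) ^ n ≤ P.card) : ENNReal.ofReal a ≤ relDensity C := by
  unfold relDensity
  refine le_limsup_of_le (by isBoundedDefault) fun b hb => ?_
  obtain ⟨T, ⟨P, hP1, hP2, hP3⟩, hT0, hb⟩ := (h.and ((eventually_gt_atTop 0).and hb)).exists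
  refine le_trans ?_ hb
  have hpos : 0 < (2 * T) ^ n := by positivity
  rw [ENNReal.le_div_iff_mul_le (Or.inl (by simpa using hpos)) (Or.inl ENNReal.ofReal_ne_top)]
  refine le_trans ?_ (le_iSup (fun P : {P : Finset (EuclideanSpace ℝ (Fin n)) // (∀ x ∈ P, ‖x‖ < T) ∧ C P} =>
    (P.1.card : ℝ≥0∞)) ⟨P, hP1, hP2⟩)
  rw [← ENNReal.ofReal_mul' hpos.le]
  simp only
  rw [← ENNReal.ofReal_natCast]
  exact ENNReal.ofReal_le_ofReal hP3

theorem shift_pow (n : ℕ) {a δ : ℝ} (hδ : 0 < δ) :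
    ∀ᶠ T : ℝ in atTop, a * (2 * T + 2) ^ n ≤ (a + δ) * (2 * T) ^ n := by
  have h1 : Tendsto (fun T : ℝ => a * (1 + T⁻¹) ^ n) atTop (𝓝 (a * (1 + 0) ^ n)) :=
    ((tendsto_inv_atTop_zero.const_add 1).pow n).const_mul a
  rw [add_zero, one_pow, mul_one] at h1
  filter_upwards [h1.eventually_lt_const (show a < a + δ by linarith), eventually_gt_atTop 0]
    with T hT hT0
  have h2 : (2 * T + 2) ^ n = (1 + T⁻¹) ^ n * (2 * T) ^ n := by
    rw [← mul_pow]
    congr 1
    field_simp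
  rw [h2, ← mul_assoc]
  exact mul_le_mul_of_nonneg_right hT.le (by positivity)

/-- The packing problem is the case `μ < 1`. -/
theorem ptDensity_eq (hn : 0 < n) {μ : ℝ} (hμ1 : μ < 1) :
    ptDensity n μ = ENNReal.ofReal (rho n) := by
  have hrho : 0 ≤ rho n := optDensity_nonneg
  refine le_antisymm ?_ ?_
  · refine relDensity_le hrho fun δ hδ => ?_
    filter_upwards [shift_pow n hδ, eventually_gt_atTop 0] with T hT hT0 P hP1 hP2
    exact (sep_card_le_rho hn (sep_of_ptSparse hμ1 hP2) hT0 hP1).trans hT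
  · refine le_relDensity ?_
    filter_upwards [eventually_gt_atTop 0] with T hT0
    obtain ⟨P, hP1, hP2, hP3⟩ := exists_sep_card hn hT0
    exact ⟨P, hP1, ptSparse_of_sep hP2, hP3⟩

theorem rho_le_ptDensity (hn : 0 < n) (μ : ℝ) : ENNReal.ofReal (rho n) ≤ ptDensity n μ := by
  refine le_relDensity ?_
  filter_upwards [eventually_gt_atTop 0] with T hT0
  obtain ⟨P, hP1, hP2, hP3⟩ := exists_sep_card hn hT0
  exact ⟨P, hP1, ptSparse_of_sep hP2, hP3⟩

theorem pt_le_av (n : ℕ) (μ : ℝ) : ptDensity n μ ≤ avDensity n μ :=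
  relDensity_mono fun _ h => h.av

theorem avDensity_le_rho (hn : 0 < n) {μ : ℝ} (hμ : 0 ≤ μ) :
    avDensity n μ ≤ ENNReal.ofReal (2 * (2 * μ + 1) * rho n) := by
  have hrho : 0 ≤ rho n := optDensity_nonneg
  refine relDensity_le (by positivity) fun δ hδ => ?_
  filter_upwards [shift_pow n (a := 2 * (2 * μ + 1) * rho n) hδ,
    eventually_gt_atTop 0] with T hT hT0 P hP1 hP2
  obtain ⟨S, hS1, hS2, hS3⟩ := exists_sep_subset hμ hP2
  refine hS3.trans (le_trans ?_ hT)
  have h1 := sep_card_le_rho hn hS2 hT0 fun x hx => hP1 x (hS1 hx)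
  calc 2 * (2 * μ + 1) * (S.card : ℝ) ≤ 2 * (2 * μ + 1) * (rho n * (2 * T + 2) ^ n) :=
        mul_le_mul_of_nonneg_left h1 (by positivity)
    _ = _ := by ring

/-- The lower bound. -/
theorem le_ptDensity (hn : 0 < n) {μ : ℝ} (hμ : 1 ≤ μ) :
    ENNReal.ofReal (μ / (6 * (Real.logb 2 μ + 2) * 2 ^ n)) ≤ ptDensity n μ := by
  have hlog : 0 ≤ Real.logb 2 μ := Real.logb_nonneg (by norm_num) hμ
  refine le_relDensity ?_
  filter_upwards [eventually_gt_atTop 0] with T hT0
  set m : ℕ := ⌈Real.logb 2 μ⌉₊ with hm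
  have hm1 : μ ≤ 2 ^ m := by
    have h1 := Nat.le_ceil (Real.logb 2 μ)
    rw [Real.logb_le_iff_le_rpow (by norm_num) (by linarith)] at h1
    exact_mod_cast h1
  have hm2 : (m : ℝ) ≤ Real.logb 2 μ + 1 := (Nat.ceil_lt_add_one hlog).le
  obtain ⟨P, hP1, hP2, hP3⟩ := exists_sparse hn hμ m hm1 hT0
  refine ⟨P, hP1, ptSparse_of_sparse hP2, ?_⟩
  rw [mul_pow, div_mul_eq_mul_div, div_le_iff₀ (by positivity)]
  have h1 : μ * T ^ n ≤ 6 * (Real.logb 2 μ + 2) * P.card := by
    refine hP3.trans ?_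
    have : (0 : ℝ) ≤ P.card := Nat.cast_nonneg _
    nlinarith
  calc μ * (2 ^ n * T ^ n) = (μ * T ^ n) * 2 ^ n := by ring
    _ ≤ (6 * (Real.logb 2 μ + 2) * P.card) * 2 ^ n := mul_le_mul_of_nonneg_right h1 (by positivity)
    _ = _ := by ring

theorem const_half (n : ℕ) : (2 * Real.exp 1 / Real.pi) ^ ((n : ℝ) / 2) =
    2 ^ n * (Real.exp 1 / (2 * Real.pi)) ^ ((n : ℝ) / 2) := by
  have hpi := Real.pi_pos
  have he := Real.exp_pos 1
  have h1 : (2 * Real.exp 1 / Real.pi) = 2 ^ (2 : ℝ) * (Real.exp 1 / (2 * Real.pi)) := by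
    rw [show (2 : ℝ) ^ (2 : ℝ) = 4 by norm_num]
    field_simp
    norm_num
  rw [h1, Real.mul_rpow (by positivity) (by positivity), ← Real.rpow_mul (by norm_num)]
  congr 1
  rw [show (2 : ℝ) * ((n : ℝ) / 2) = n by ring, Real.rpow_natCast]

/-- The upper bound. -/
theorem avDensity_le (ε : ℝ) (hε : 0 < ε) : ∀ᶠ n : ℕ in atTop, ∀ μ : ℝ, 0 ≤ μ →
    avDensity n μ ≤ ENNReal.ofReal ((2 : ℝ) ^ (ε * n) * (μ / 2 ^ n +
      (Real.exp 1 / (2 * Real.pi)) ^ ((n : ℝ) / 2))) := by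
  have hlog : 0 < Real.log 2 := Real.log_pos (by norm_num)
  obtain ⟨n₀, hn₀⟩ := robust_fin (Real.log 2 * ε) (by positivity)
  filter_upwards [eventually_ge_atTop n₀, eventually_gt_atTop 0] with n hn hn0 μ hμ
  have : Nonempty (Fin n) := ⟨⟨0, hn0⟩⟩
  have hvb : 0 < vb (EuclideanSpace ℝ (Fin n)) := vb_pos
  have hvol : ∀ s : ℝ, 0 < s → volume.real (ball (0 : EuclideanSpace ℝ (Fin n)) s) = s ^ n * vb (EuclideanSpace ℝ (Fin n)) := fun s hs => by
    rw [vol_ball _ hs, finrank_euclideanSpace_fin]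
  have hpi := Real.pi_pos
  have he := Real.exp_pos 1
  refine relDensity_le (by positivity) fun δ hδ => ?_
  have h1 := hn₀ n hn 1 one_pos (μ / vb (EuclideanSpace ℝ (Fin n))) (by positivity) (δ * 2 ^ n / vb (EuclideanSpace ℝ (Fin n))) (by positivity)
  filter_upwards [h1, eventually_gt_atTop 0] with T hT hT0 P hP1 hP2
  refine (hT P hP1 fun s hs0 hs1 => ?_).trans (le_of_eq ?_)
  · refine (hP2.pairs hμ hs0 hs1).trans (le_of_eq ?_)
    rw [hvol s hs0]
    field_simp
  · rw [hvol 1 one_pos, hvol T hT0, one_pow, one_mul, const_half, mul_pow,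
      show Real.exp (Real.log 2 * ε * n) = (2 : ℝ) ^ (ε * n) by
        rw [Real.rpow_def_of_pos (by norm_num)]; congr 1; ring]
    field_simp
    ring

/-! ### The exponents -/

theorem logb_lp : 1 - 1 / 2 * Real.logb 2 (2 * Real.exp 1 / Real.pi) =
    1 / 2 * Real.logb 2 (2 * Real.pi / Real.exp 1) := by
  have hpi := Real.pi_pos
  have he := Real.exp_pos 1
  have h1 : (2 * Real.exp 1 / Real.pi) = 4 * (2 * Real.pi / Real.exp 1)⁻¹ := by
    field_simp
    norm_num
  rw [h1, Real.logb_mul (by norm_num) (by positivity), Real.logb_inv,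
    show (4 : ℝ) = 2 ^ (2 : ℝ) by norm_num, Real.logb_rpow (by norm_num) (by norm_num)]
  ring

theorem rpow_lp (n : ℕ) : (Real.exp 1 / (2 * Real.pi)) ^ ((n : ℝ) / 2) =
    (2 : ℝ) ^ (-((1 / 2 * Real.logb 2 (2 * Real.pi / Real.exp 1)) * n)) := by
  have hpi := Real.pi_pos
  have he := Real.exp_pos 1
  have h1 : (Real.exp 1 / (2 * Real.pi)) = (2 : ℝ) ^ (-Real.logb 2 (2 * Real.pi / Real.exp 1)) := by
    rw [← Real.logb_inv, Real.rpow_logb (by norm_num) (by norm_num) (by positivity), inv_div]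
  rw [h1, ← Real.rpow_mul (by norm_num)]
  congr 1
  ring

theorem tendsto_log_lin (a b : ℝ) (ha : 0 < a) (hb : 0 < b) :
    Tendsto (fun n : ℕ => Real.logb 2 (a * n + b) / n) atTop (𝓝 0) := by
  have h1 : Tendsto (fun x : ℝ => Real.log x / x) atTop (𝓝 0) := by
    simpa using Real.tendsto_pow_log_div_mul_add_atTop 1 0 1 one_ne_zero
  have h2 : Tendsto (fun n : ℕ => a * (n : ℝ) + b) atTop atTop :=
    tendsto_atTop_add_const_right _ _ (tendsto_natCast_atTop_atTop.const_mul_atTop ha)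
  have h3 := (h1.comp h2).mul_const ((a + b) / Real.log 2)
  rw [zero_mul] at h3
  refine squeeze_zero_norm' ?_ h3
  filter_upwards [eventually_ge_atTop 1, h2.eventually_ge_atTop 1] with n hn hn2
  have hn' : (1 : ℝ) ≤ n := by exact_mod_cast hn
  have hlog : 0 ≤ Real.log (a * n + b) := Real.log_nonneg hn2
  have hl2 : 0 < Real.log 2 := Real.log_pos (by norm_num)
  simp only [Function.comp]
  rw [Real.norm_of_nonneg (div_nonneg (Real.logb_nonneg (by norm_num) hn2) (by positivity)),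
    Real.logb, div_div, div_mul_div_comm, div_le_div_iff₀ (by positivity) (by positivity)]
  have h4 : a * n + b ≤ (a + b) * n := by nlinarith
  calc Real.log (a * n + b) * ((a * n + b) * Real.log 2)
      ≤ Real.log (a * n + b) * (((a + b) * n) * Real.log 2) := by gcongr
    _ = _ := by ring

/-- The exponent from two bounds. -/
theorem tendsto_exponent {D : ℕ → ℝ≥0∞} {u : ℝ}
    (hlow : ∀ᶠ n : ℕ in atTop, ENNReal.ofReal ((2 : ℝ) ^ (u * n) /
      (6 * (u * n + 2) * 2 ^ n)) ≤ D n) (hu0 : 0 ≤ u)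
    (hup : ∀ ε : ℝ, 0 < ε → ∀ᶠ n : ℕ in atTop, D n ≤ ENNReal.ofReal ((2 : ℝ) ^ (ε * n) *
      (2 * ((2 : ℝ) ^ (u * n) / 2 ^ n)))) :
    Tendsto (fun n : ℕ => -(Real.logb 2 (D n).toReal) / n) atTop (𝓝 (1 - u)) := by
  rw [Metric.tendsto_atTop']
  intro ε hε
  have h1 := hup (ε / 4) (by positivity)
  have h2 : Tendsto (fun n : ℕ => Real.logb 2 ((6 * (u + 1)) * n + 12) / n) atTop (𝓝 0) :=
    tendsto_log_lin _ _ (by positivity) (by positivity)
  have h3 : Tendsto (fun n : ℕ => (1 : ℝ) / n) atTop (𝓝 0) := tendsto_one_div_atTop_nhds_zero_nat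
  have key : ∀ᶠ n : ℕ in atTop, dist (-(Real.logb 2 (D n).toReal) / n) (1 - u) < ε := by
    filter_upwards [hlow, h1, h2.eventually_lt_const (show (0 : ℝ) < ε / 4 by positivity),
      h3.eventually_lt_const (show (0 : ℝ) < ε / 4 by positivity), eventually_gt_atTop 0]
      with n hl hu hq hq' hn
    have hn' : (0 : ℝ) < n := by exact_mod_cast hn
    have hDt : D n ≠ ⊤ := ne_top_of_le_ne_top ENNReal.ofReal_ne_top hu
    have hl' : (2 : ℝ) ^ (u * n) / (6 * (u * n + 2) * 2 ^ n) ≤ (D n).toReal :=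
      (ENNReal.ofReal_le_iff_le_toReal hDt).1 hl
    have hu' : (D n).toReal ≤ (2 : ℝ) ^ (ε / 4 * n) * (2 * ((2 : ℝ) ^ (u * n) / 2 ^ n)) :=
      ENNReal.toReal_le_of_le_ofReal (by positivity) hu
    have hlpos : 0 < (2 : ℝ) ^ (u * n) / (6 * (u * n + 2) * 2 ^ n) := by positivity
    have hDpos : 0 < (D n).toReal := hlpos.trans_le hl'
    have e2 : (2 : ℝ) ^ n = (2 : ℝ) ^ (n : ℝ) := (Real.rpow_natCast _ _).symm
    -- the lower estimate of `logb`
    have a1 : u * n - n - Real.logb 2 ((6 * (u + 1)) * n + 12) ≤ Real.logb 2 (D n).toReal := by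
      have b1 : (2 : ℝ) ^ (u * n) / (((6 * (u + 1)) * n + 12) * 2 ^ n) ≤ (D n).toReal := by
        refine le_trans ?_ hl'
        apply div_le_div_of_nonneg_left (by positivity) (by positivity)
        refine mul_le_mul_of_nonneg_right ?_ (by positivity)
        nlinarith
      have b2 := Real.logb_le_logb_of_le (b := 2) (by norm_num) (by positivity) b1
      rw [Real.logb_div (by positivity) (by positivity), Real.logb_mul (by positivity)
        (by positivity), Real.logb_rpow (by norm_num) (by norm_num), e2,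
        Real.logb_rpow (by norm_num) (by norm_num)] at b2
      linarith
    have a2 : Real.logb 2 (D n).toReal ≤ ε / 4 * n + 1 + u * n - n := by
      have b2 := Real.logb_le_logb_of_le (b := 2) (by norm_num) hDpos hu'
      rw [Real.logb_mul (by positivity) (by positivity), Real.logb_mul (by positivity)
        (by positivity), Real.logb_div (by positivity) (by positivity),
        Real.logb_rpow (by norm_num) (by norm_num), Real.logb_rpow (by norm_num) (by norm_num), e2,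
        Real.logb_rpow (by norm_num) (by norm_num), Real.logb_self_eq_one (by norm_num)] at b2
      linarith
    have a3 : Real.logb 2 ((6 * (u + 1)) * n + 12) < ε / 4 * n := by
      rwa [div_lt_iff₀ hn'] at hq
    have a4 : 1 < ε / 4 * n := by rwa [div_lt_iff₀ hn'] at hq'
    rw [Real.dist_eq, abs_lt]
    constructor
    · rw [lt_sub_iff_add_lt, lt_div_iff₀ hn']
      nlinarith
    · rw [sub_lt_iff_lt_add, div_lt_iff₀ hn']
      nlinarith
  obtain ⟨N, hN⟩ := eventually_atTop.1 key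
  exact ⟨N, fun n hn => hN n hn.le⟩

theorem lp_le {u : ℝ} (hu : 1 / 2 * Real.logb 2 (2 * Real.exp 1 / Real.pi) ≤ u) (n : ℕ) :
    (Real.exp 1 / (2 * Real.pi)) ^ ((n : ℝ) / 2) ≤ (2 : ℝ) ^ (u * n) / 2 ^ n := by
  rw [rpow_lp, ← Real.rpow_natCast 2 n, ← Real.rpow_sub (by norm_num)]
  refine Real.rpow_le_rpow_of_exponent_le (by norm_num) ?_
  have h1 := logb_lp
  have hn : (0 : ℝ) ≤ n := Nat.cast_nonneg n
  nlinarith

theorem exponents {u : ℝ} (hu : 1 / 2 * Real.logb 2 (2 * Real.exp 1 / Real.pi) ≤ u)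
    (hu0 : 0 ≤ u) :
    Tendsto (fun n : ℕ => -(Real.logb 2 (ptDensity n (2 ^ (u * n))).toReal) / n) atTop
      (𝓝 (1 - u)) ∧
    Tendsto (fun n : ℕ => -(Real.logb 2 (avDensity n (2 ^ (u * n))).toReal) / n) atTop
      (𝓝 (1 - u)) := by
  have hlow : ∀ᶠ n : ℕ in atTop, ENNReal.ofReal ((2 : ℝ) ^ (u * n) /
      (6 * (u * n + 2) * 2 ^ n)) ≤ ptDensity n (2 ^ (u * n)) := by
    filter_upwards [eventually_gt_atTop 0] with n hn
    have h1 := le_ptDensity hn (μ := (2 : ℝ) ^ (u * n))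
      (Real.one_le_rpow (by norm_num) (by positivity))
    rwa [Real.logb_rpow (by norm_num) (by norm_num)] at h1
  have hup : ∀ ε : ℝ, 0 < ε → ∀ᶠ n : ℕ in atTop, avDensity n (2 ^ (u * n)) ≤
      ENNReal.ofReal ((2 : ℝ) ^ (ε * n) * (2 * ((2 : ℝ) ^ (u * n) / 2 ^ n))) := by
    intro ε hε
    filter_upwards [avDensity_le ε hε] with n hn
    refine (hn _ (by positivity)).trans (ENNReal.ofReal_le_ofReal ?_)
    refine mul_le_mul_of_nonneg_left ?_ (by positivity)
    have := lp_le hu n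
    linarith
  refine ⟨tendsto_exponent hlow hu0 fun ε hε => ?_, tendsto_exponent ?_ hu0 hup⟩
  · filter_upwards [hup ε hε] with n hn
    exact (pt_le_av n _).trans hn
  · filter_upwards [hlow] with n hn
    exact hn.trans (pt_le_av n _)

end Pool.Agent.H779.RB
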