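import Mathlib
import Pool.Agent.H779.RB.Rel2
import Pool.Graph.R_seed8.W259.GP.Num

/-!
Points with few near points in arbitrary sets, and in packings.
-/

set_option autoImplicit false
set_option linter.unusedSectionVars false

open MeasureTheory Filter Topology Metric

open scoped ENNReal NNReal

namespace Pool.Agent.H779.RB

open Pool.Agent.H818R2

variable {n : ℕ}


theorem encard_le_of_finset {Z : Set (EuclideanSpace ℝ (Fin n))} {b : ℝ} (h : ∀ P : Finset (EuclideanSpace ℝ (Fin n)), (P : Set (EuclideanSpace ℝ (Fin n))) ⊆ Z →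
    (P.card : ℝ) ≤ b) : (Z.encard : ℝ≥0∞) ≤ ENNReal.ofReal b := by
  classical
  by_cases hZ : Z.Finite
  · have h1 := h hZ.toFinset (by simp)
    rw [hZ.encard_eq_coe_toFinset_card]
    simp only [ENat.toENNReal_coe]
    rw [← ENNReal.ofReal_natCast]
    exact ENNReal.ofReal_le_ofReal h1
  · exfalso
    obtain ⟨m, hm⟩ := exists_nat_gt b
    obtain ⟨P, hP, hPm⟩ := (show Z.Infinite from hZ).exists_subset_card_eq m
    have h1 := h P hP
    rw [hPm] at h1
    linarith

theorem nearPairs_le_of_sparsePts {X : Set (EuclideanSpace ℝ (Fin n))} {R lam : ℝ} (hlam : 0 ≤ lam) {P : Finset (EuclideanSpace ℝ (Fin n))}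
    (hP : (P : Set (EuclideanSpace ℝ (Fin n))) ⊆ sparsePts X R lam) {s : ℝ} (hs0 : 0 < s) (hs : s ≤ R) :
    ((nearPairs P s).card : ℝ) ≤ lam * s ^ n * P.card := by
  have h1 : ((nearPairs P s).card : ℝ≥0∞) ≤ ENNReal.ofReal (lam * s ^ n * P.card) := by
    rw [← sum_others]
    calc ∑ x ∈ P, others (P : Set (EuclideanSpace ℝ (Fin n))) x s ≤ ∑ _x ∈ P, ENNReal.ofReal (lam * s ^ n) :=
          Finset.sum_le_sum fun x hx =>
            (others_mono (fun y hy => (hP hy).1) x s).trans ((hP hx).2 s hs0 hs)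
      _ = ENNReal.ofReal (lam * s ^ n * P.card) := by
          rw [Finset.sum_const, nsmul_eq_mul, mul_comm (lam * s ^ n),
            ENNReal.ofReal_mul (p := (P.card : ℝ)) (by positivity), ENNReal.ofReal_natCast]
  rw [← ENNReal.ofReal_natCast] at h1
  exact (ENNReal.ofReal_le_ofReal_iff (by positivity)).1 h1

/-- The points of an arbitrary set which have few near points. -/
theorem numDensity_sparsePts (ε : ℝ) (hε : 0 < ε) : ∀ᶠ n : ℕ in atTop,
    ∀ (X : Set (EuclideanSpace ℝ (Fin n))) (R lam : ℝ), 0 < R → 0 ≤ lam →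
      numDensity (sparsePts X R lam) ≤ ENNReal.ofReal ((2 : ℝ) ^ (ε * n) *
        ((2 * Real.exp 1 / Real.pi) ^ ((n : ℝ) / 2) / R ^ n + lam)) := by
  have hlog : 0 < Real.log 2 := Real.log_pos (by norm_num)
  obtain ⟨n₀, hn₀⟩ := robust_fin (Real.log 2 * ε) (by positivity)
  filter_upwards [eventually_ge_atTop n₀, eventually_gt_atTop 0] with n hn hn0 X R lam hR hlam
  have : Nonempty (Fin n) := ⟨⟨0, hn0⟩⟩
  have hvb : 0 < vb (EuclideanSpace ℝ (Fin n)) := vb_pos
  have hvol : ∀ s : ℝ, 0 < s → volume.real (ball (0 : EuclideanSpace ℝ (Fin n)) s) =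
      s ^ n * vb (EuclideanSpace ℝ (Fin n)) := fun s hs => by
    rw [vol_ball _ hs, finrank_euclideanSpace_fin]
  have hpi := Real.pi_pos
  have he := Real.exp_pos 1
  set a : ℝ := (2 : ℝ) ^ (ε * n) * ((2 * Real.exp 1 / Real.pi) ^ ((n : ℝ) / 2) / R ^ n + lam)
    with ha
  have ha0 : 0 ≤ a := by positivity
  refine ENNReal.le_of_forall_pos_le_add fun δ hδ _ => ?_
  have hδ' : (0 : ℝ) < δ := by exact_mod_cast hδ
  have h1 := hn₀ n hn R hR (lam / vb (EuclideanSpace ℝ (Fin n))) (by positivity)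
    (δ / vb (EuclideanSpace ℝ (Fin n))) (by positivity)
  have h2 : numDensity (sparsePts X R lam) ≤ ENNReal.ofReal (a + δ) := by
    unfold numDensity
    refine limsup_le_of_le (by isBoundedDefault) ?_
    filter_upwards [h1, eventually_gt_atTop 0] with T hT hT0
    refine ENNReal.div_le_of_le_mul ?_
    rw [← ENNReal.ofReal_mul (by positivity)]
    refine encard_le_of_finset fun P hP => ?_
    refine (hT P (fun x hx => mem_ball_zero_iff.1 (hP hx).2) fun s hs0 hs => ?_).trans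
      (le_of_eq ?_)
    · refine (nearPairs_le_of_sparsePts hlam (fun x hx => (hP hx).1) hs0 hs).trans (le_of_eq ?_)
      rw [hvol s hs0]
      field_simp
    · rw [hvol R hR, hvol T hT0, ha,
        show Real.exp (Real.log 2 * ε * n) = (2 : ℝ) ^ (ε * n) by
          rw [Real.rpow_def_of_pos (by norm_num)]; congr 1; ring]
      field_simp
  rwa [ENNReal.ofReal_add ha0 hδ'.le, ENNReal.ofReal_coe_nnreal] at h2

/-! ### Packings -/

theorem numDensity_mono {X Y : Set (EuclideanSpace ℝ (Fin n))} (h : X ⊆ Y) : numDensity X ≤ numDensity Y := by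
  unfold numDensity
  refine limsup_le_limsup (Eventually.of_forall fun T => ?_)
  refine ENNReal.div_le_div_right ?_ _
  gcongr

theorem body_le_card {Y : Set (EuclideanSpace ℝ (Fin n))} {r : ℝ} (hr : 0 < r) (R : ℝ) {F : Finset (EuclideanSpace ℝ (Fin n))}
    (hF : Y ∩ ball 0 (R + r) ⊆ F) :
    volume.real (ball (0 : (EuclideanSpace ℝ (Fin n))) R ∩ body Y r) ≤ F.card * (r ^ n * vb (EuclideanSpace ℝ (Fin n))) := by
  have h2 : volume.real (ball (0 : (EuclideanSpace ℝ (Fin n))) R ∩ body Y r) ≤ volume.real (⋃ x ∈ F, ball x r) := by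
    apply measureReal_mono
    · rintro z ⟨hz, hzX⟩
      simp only [body, Set.mem_iUnion, exists_prop] at hzX
      obtain ⟨x, hx, hxz⟩ := hzX
      simp only [Set.mem_iUnion, exists_prop]
      refine ⟨x, hF ⟨hx, ?_⟩, hxz⟩
      rw [mem_ball_zero_iff] at hz ⊢
      rw [mem_ball, dist_comm, dist_eq_norm] at hxz
      calc ‖x‖ = ‖z + (x - z)‖ := by congr 1; abel
        _ ≤ ‖z‖ + ‖x - z‖ := norm_add_le _ _
        _ < R + r := by linarith
    · refine ((measure_biUnion_lt_top (Finset.finite_toSet _) ?_)).ne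
      intro i _; exact measure_ball_lt_top
  refine h2.trans ((measureReal_biUnion_finset_le _ _).trans ?_)
  rw [Finset.sum_congr rfl (fun x _ => vol_ball x hr)]
  simp

theorem upperDensity_le_of_num (hn : 0 < n) {Y : Set (EuclideanSpace ℝ (Fin n))} {r : ℝ} (hr : 0 < r) {a : ℝ}
    (ha : 0 ≤ a) (h : numDensity Y ≤ ENNReal.ofReal a) : upperDensity Y r ≤ a * r ^ n := by
  have : Nonempty (Fin n) := ⟨⟨0, hn⟩⟩
  have hvb : 0 < vb (EuclideanSpace ℝ (Fin n)) := vb_pos
  refine le_of_forall_pos_le_add fun η hη => ?_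
  -- choose `δ`
  obtain ⟨δ, hδ0, hδ⟩ : ∃ δ : ℝ, 0 < δ ∧ (a + δ) * r ^ n < a * r ^ n + η := by
    refine ⟨η / (2 * r ^ n), by positivity, ?_⟩
    have : (a + η / (2 * r ^ n)) * r ^ n = a * r ^ n + η / 2 := by field_simp
    linarith
  have h1 : numDensity Y < ENNReal.ofReal (a + δ) :=
    lt_of_le_of_lt h ((ENNReal.ofReal_lt_ofReal_iff (by positivity)).2 (by linarith))
  have h2 : ∀ᶠ T : ℝ in atTop, ((Y ∩ ball 0 T).encard : ℝ≥0∞) / ENNReal.ofReal (T ^ n) <
      ENNReal.ofReal (a + δ) := eventually_lt_of_limsup_lt h1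
  have h3 : Tendsto (fun R : ℝ => R + r) atTop atTop := tendsto_atTop_add_const_right _ _ tendsto_id
  have h4 : Tendsto (fun R : ℝ => (a + δ) * r ^ n * (1 + r * R⁻¹) ^ n) atTop
      (𝓝 ((a + δ) * r ^ n * (1 + r * 0) ^ n)) :=
    (((tendsto_inv_atTop_zero.const_mul r).const_add 1).pow n).const_mul _
  rw [mul_zero, add_zero, one_pow, mul_one] at h4
  unfold upperDensity
  refine limsup_le_of_le (ratio_cobdd Y r) ?_
  filter_upwards [h3.eventually h2, h4.eventually_lt_const hδ, eventually_gt_atTop 0]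
    with R hR hR' hR0
  have hpos : 0 < (R + r) ^ n := by positivity
  rw [ENNReal.div_lt_iff (Or.inl (by simpa using hpos)) (Or.inl ENNReal.ofReal_ne_top),
    ← ENNReal.ofReal_mul (by positivity)] at hR
  have hfin : (Y ∩ ball 0 (R + r)).Finite := by
    rw [← Set.encard_lt_top_iff]
    by_contra hcon
    rw [not_lt, top_le_iff] at hcon
    rw [hcon] at hR
    simp at hR
  have hcard : (hfin.toFinset.card : ℝ) ≤ (a + δ) * (R + r) ^ n := by
    rw [hfin.encard_eq_coe_toFinset_card] at hR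
    simp only [ENat.toENNReal_coe] at hR
    rw [← ENNReal.ofReal_natCast] at hR
    exact (ENNReal.ofReal_le_ofReal_iff (by positivity)).1 hR.le
  have hb := body_le_card (Y := Y) hr R (F := hfin.toFinset) (by simp)
  rw [vol_ball _ hR0, finrank_euclideanSpace_fin, div_le_iff₀ (by positivity)]
  refine hb.trans ?_
  have h5 : (R + r) ^ n = (1 + r * R⁻¹) ^ n * R ^ n := by
    rw [← mul_pow]
    congr 1
    field_simp
  calc (hfin.toFinset.card : ℝ) * (r ^ n * vb (EuclideanSpace ℝ (Fin n))) ≤ ((a + δ) * (R + r) ^ n) * (r ^ n * vb (EuclideanSpace ℝ (Fin n))) :=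
        mul_le_mul_of_nonneg_right hcard (by positivity)
    _ = ((a + δ) * r ^ n * (1 + r * R⁻¹) ^ n) * (R ^ n * vb (EuclideanSpace ℝ (Fin n))) := by rw [h5]; ring
    _ ≤ _ := mul_le_mul_of_nonneg_right hR'.le (by positivity)

/-- The balls of a packing with few near balls. -/
theorem upperDensity_sparsePts (ε : ℝ) (hε : 0 < ε) : ∀ᶠ n : ℕ in atTop,
    ∀ (X : Set (EuclideanSpace ℝ (Fin n))) (r β lam : ℝ), 0 < r → 0 < β → 0 ≤ lam →
      upperDensity (sparsePts X (2 * β * r) (lam / r ^ n)) r ≤ (2 : ℝ) ^ (ε * n) *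
        ((Real.exp 1 / (2 * Real.pi)) ^ ((n : ℝ) / 2) / β ^ n + lam) := by
  filter_upwards [numDensity_sparsePts ε hε, eventually_gt_atTop 0] with n hn hn0 X r β lam hr hβ
    hlam
  have hpi := Real.pi_pos
  have he := Real.exp_pos 1
  refine (upperDensity_le_of_num hn0 hr (by positivity) (hn X (2 * β * r) (lam / r ^ n)
    (by positivity) (by positivity))).trans (le_of_eq ?_)
  rw [const_half, mul_pow, mul_pow]
  field_simp

theorem others_eq_zero {X : Set (EuclideanSpace ℝ (Fin n))} {r : ℝ} (hX : IsPacking X r) {x : (EuclideanSpace ℝ (Fin n))} (hx : x ∈ X) {s : ℝ}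
    (hs : s ≤ 2 * r) : others X x s = 0 := by
  unfold others
  have : ({y | y ∈ X ∧ y ≠ x ∧ dist x y < s} : Set (EuclideanSpace ℝ (Fin n))) = ∅ := by
    rw [Set.eq_empty_iff_forall_notMem]
    rintro y ⟨hy, hyx, hd⟩
    have h1 := hX.2 hx hy (Ne.symm hyx)
    simp only [Function.onFun] at h1
    rw [disjoint_ball_ball_iff hX.1 hX.1] at h1
    linarith
  rw [this]
  simp

theorem beta_num : (2 : ℝ) ^ ((1 : ℝ) / 700) ≤ 1001 / 1000 := by
  have h0 : (1105 / 1000 : ℝ) ≤ (1001 / 1000) ^ 100 := by norm_num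
  have h1 : (2 : ℝ) ≤ (1001 / 1000) ^ 700 := by
    calc (2 : ℝ) ≤ (1105 / 1000) ^ 7 := by norm_num
      _ ≤ ((1001 / 1000) ^ 100) ^ 7 := pow_le_pow_left₀ (by norm_num) h0 7
      _ = (1001 / 1000) ^ 700 := by rw [← pow_mul]
  calc (2 : ℝ) ^ ((1 : ℝ) / 700) ≤ ((1001 / 1000 : ℝ) ^ 700) ^ ((1 : ℝ) / 700) :=
        Real.rpow_le_rpow (by norm_num) h1 (by norm_num)
    _ = 1001 / 1000 := by
        rw [← Real.rpow_natCast, ← Real.rpow_mul (by norm_num)]
        norm_num

/-- Numerical form. -/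
theorem numeric : ∀ᶠ n : ℕ in atTop, ∀ (X : Set (EuclideanSpace ℝ (Fin n))) (r : ℝ),
    IsPacking X r → upperDensity {x | x ∈ X ∧ others X x (1001 / 1000 * (2 * r)) ≤
      ENNReal.ofReal ((2 : ℝ) ^ (394 / 1000 * n : ℝ))} r ≤
        (2 : ℝ) ^ (-(6055 / 10000 * n) : ℝ) := by
  filter_upwards [numDensity_sparsePts (1 / 10000) (by norm_num), eventually_ge_atTop 10000]
    with n hn hn1 X r hX
  have hn1' : (10000 : ℝ) ≤ n := by exact_mod_cast hn1
  have hn0 : 0 < n := by omega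
  have hr := hX.1
  have hpi := Real.pi_pos
  have he := Real.exp_pos 1
  set lam : ℝ := (2 : ℝ) ^ (-(606 / 1000 * n) : ℝ) with hlam
  have hlam0 : 0 < lam := by positivity
  have hsub : {x | x ∈ X ∧ others X x (1001 / 1000 * (2 * r)) ≤
      ENNReal.ofReal ((2 : ℝ) ^ (394 / 1000 * n : ℝ))} ⊆
      sparsePts X (2 * (1001 / 1000) * r) (lam / r ^ n) := by
    rintro x ⟨hx, hx2⟩
    refine ⟨hx, fun s hs0 hs => ?_⟩
    rcases le_or_gt s (2 * r) with h | h
    · rw [others_eq_zero hX hx h]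
      simp
    · refine (others_mono_right X x (show s ≤ 1001 / 1000 * (2 * r) by linarith)).trans
        (hx2.trans (ENNReal.ofReal_le_ofReal ?_))
      have h1 : (2 : ℝ) ^ (394 / 1000 * n : ℝ) = lam * 2 ^ n := by
        rw [hlam, ← Real.rpow_natCast 2 n, ← Real.rpow_add (by norm_num)]
        congr 1
        ring
      rw [h1]
      calc lam * 2 ^ n = lam / r ^ n * (2 * r) ^ n := by
            rw [mul_pow]
            field_simp
        _ ≤ lam / r ^ n * s ^ n := by
            refine mul_le_mul_of_nonneg_left ?_ (by positivity)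
            exact pow_le_pow_left₀ (by positivity) h.le n
  have h1 := (numDensity_mono hsub).trans (hn X _ (lam / r ^ n)
    (show 0 < 2 * (1001 / 1000) * r by positivity) (by positivity))
  refine (upperDensity_le_of_num hn0 hr (by positivity) h1).trans ?_
  -- numerical estimates
  have e1 : (2 : ℝ) ^ (1 / 10000 * (n : ℝ)) * ((2 * Real.exp 1 / Real.pi) ^ ((n : ℝ) / 2) /
      (2 * (1001 / 1000) * r) ^ n + lam / r ^ n) * r ^ n = (2 : ℝ) ^ (1 / 10000 * (n : ℝ)) *
      ((Real.exp 1 / (2 * Real.pi)) ^ ((n : ℝ) / 2) / (1001 / 1000) ^ n + lam) := by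
    rw [const_half, mul_pow, mul_pow]
    field_simp
  rw [e1]
  have e2 : (Real.exp 1 / (2 * Real.pi)) ^ ((n : ℝ) / 2) ≤ (2 : ℝ) ^ (-(6044 / 10000 * n) : ℝ) := by
    rw [rpow_lp]
    refine Real.rpow_le_rpow_of_exponent_le (by norm_num) ?_
    have h2 := Pool.Agent.W259.GP.num_bound
    nlinarith
  have e3 : (2 : ℝ) ^ (14 / 10000 * n : ℝ) ≤ (1001 / 1000) ^ n := by
    calc (2 : ℝ) ^ (14 / 10000 * n : ℝ) ≤ (2 : ℝ) ^ ((1 : ℝ) / 700 * n) := by
          refine Real.rpow_le_rpow_of_exponent_le (by norm_num) ?_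
          nlinarith
      _ = ((2 : ℝ) ^ ((1 : ℝ) / 700)) ^ n := by
          rw [Real.rpow_mul (by norm_num), Real.rpow_natCast]
      _ ≤ (1001 / 1000) ^ n := pow_le_pow_left₀ (by positivity) beta_num n
  have e4 : (Real.exp 1 / (2 * Real.pi)) ^ ((n : ℝ) / 2) / (1001 / 1000) ^ n ≤
      (2 : ℝ) ^ (-(6058 / 10000 * n) : ℝ) := by
    rw [div_le_iff₀ (by positivity)]
    refine e2.trans ?_
    calc (2 : ℝ) ^ (-(6044 / 10000 * n) : ℝ) =
          (2 : ℝ) ^ (-(6058 / 10000 * n) : ℝ) * (2 : ℝ) ^ (14 / 10000 * n : ℝ) := by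
          rw [← Real.rpow_add (by norm_num)]
          congr 1
          ring
      _ ≤ _ := mul_le_mul_of_nonneg_left e3 (by positivity)
  have e5 : lam ≤ (2 : ℝ) ^ (-(6058 / 10000 * n) : ℝ) := by
    rw [hlam]
    refine Real.rpow_le_rpow_of_exponent_le (by norm_num) ?_
    nlinarith
  calc (2 : ℝ) ^ (1 / 10000 * (n : ℝ)) * ((Real.exp 1 / (2 * Real.pi)) ^ ((n : ℝ) / 2) /
        (1001 / 1000) ^ n + lam)
      ≤ (2 : ℝ) ^ (1 / 10000 * (n : ℝ)) * ((2 : ℝ) ^ (-(6058 / 10000 * n) : ℝ) +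
        (2 : ℝ) ^ (-(6058 / 10000 * n) : ℝ)) :=
        mul_le_mul_of_nonneg_left (add_le_add e4 e5) (by positivity)
    _ = (2 : ℝ) ^ (1 / 10000 * (n : ℝ) + 1 + -(6058 / 10000 * n) : ℝ) := by
        rw [Real.rpow_add (by norm_num), Real.rpow_add (by norm_num), Real.rpow_one]
        ring
    _ ≤ (2 : ℝ) ^ (-(6055 / 10000 * n) : ℝ) := by
        refine Real.rpow_le_rpow_of_exponent_le (by norm_num) ?_
        nlinarith

end Pool.Agent.H779.RB
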